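import Mathlib

/-!
LineSums campaign (MP_90b327_co): definitions and the basic properties of the exponential.
-/

set_option autoImplicit false

namespace Pool.Agent.Lib.MP_90b327_co.LS

open Finset Polynomial
open scoped BigOperators

/-- `e(x) = exp(2 pi i x)` -/
noncomputable def ee (x : ℝ) : ℂ := Complex.exp (((2 * Real.pi * x : ℝ) : ℂ) * Complex.I)

lemma norm_ee (x : ℝ) : ‖ee x‖ = 1 := Complex.norm_exp_ofReal_mul_I _

lemma ee_zero : ee 0 = 1 := by simp [ee]

lemma ee_add (x y : ℝ) : ee (x + y) = ee x * ee y := by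
  unfold ee
  rw [← Complex.exp_add]
  congr 1
  push_cast
  ring

lemma ee_neg (x : ℝ) : ee (-x) = (starRingEnd ℂ) (ee x) := by
  unfold ee
  rw [← Complex.exp_conj, map_mul, Complex.conj_I, Complex.conj_ofReal]
  congr 1
  push_cast
  ring

lemma ee_mul_conj (x : ℝ) : ee x * (starRingEnd ℂ) (ee x) = 1 := by
  rw [← ee_neg, ← ee_add, add_neg_cancel, ee_zero]

lemma ee_sub (x y : ℝ) : ee (x - y) = ee x * (starRingEnd ℂ) (ee y) := by
  rw [sub_eq_add_neg, ee_add, ee_neg]

lemma ee_sum {ι : Type*} (s : Finset ι) (f : ι → ℝ) : ee (∑ i ∈ s, f i) = ∏ i ∈ s, ee (f i) := by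
  classical
  induction s using Finset.induction_on with
  | empty => simp [ee_zero]
  | insert a s ha ih => rw [Finset.sum_insert ha, Finset.prod_insert ha, ee_add, ih]

lemma ee_int (n : ℤ) : ee n = 1 := by
  unfold ee
  rw [Complex.exp_eq_one_iff]
  refine ⟨n, ?_⟩
  push_cast
  ring

lemma ee_re (x : ℝ) : (ee x).re = Real.cos (2 * Real.pi * x) := by
  unfold ee
  rw [Complex.exp_ofReal_mul_I_re]

lemma norm_ee_add_sub_one (x y : ℝ) : ‖ee (x + y) - 1‖ ≤ ‖ee x - 1‖ + ‖ee y - 1‖ := by
  have h : ee (x + y) - 1 = ee x * (ee y - 1) + (ee x - 1) := by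
    rw [ee_add]
    ring
  rw [h]
  refine (norm_add_le _ _).trans ?_
  rw [norm_mul, norm_ee, one_mul, add_comm]

lemma norm_ee_neg_sub_one (x : ℝ) : ‖ee (-x) - 1‖ = ‖ee x - 1‖ := by
  rw [ee_neg, ← Complex.norm_conj (ee x - 1)]
  simp

lemma norm_ee_sum_sub_one {ι : Type*} (s : Finset ι) (f : ι → ℝ) :
    ‖ee (∑ i ∈ s, f i) - 1‖ ≤ ∑ i ∈ s, ‖ee (f i) - 1‖ := by
  classical
  induction s using Finset.induction_on with
  | empty => simp [ee_zero]
  | insert a s ha ih =>
    rw [Finset.sum_insert ha, Finset.sum_insert ha]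
    exact (norm_ee_add_sub_one _ _).trans (add_le_add le_rfl ih)

lemma norm_ee_nat_mul_sub_one (k : ℕ) (x : ℝ) : ‖ee (k * x) - 1‖ ≤ k * ‖ee x - 1‖ := by
  have h := norm_ee_sum_sub_one (Finset.range k) (fun _ => x)
  simpa using h

lemma norm_ee_sub_ee (x y : ℝ) : ‖ee x - ee y‖ = ‖ee (x - y) - 1‖ := by
  have h : ee x - ee y = (ee (x - y) - 1) * ee y := by
    rw [sub_mul, one_mul, ← ee_add]
    congr 2
    ring
  rw [h, norm_mul, norm_ee, mul_one]

lemma norm_ee_sub_one_le_two (x : ℝ) : ‖ee x - 1‖ ≤ 2 := by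
  refine (norm_sub_le _ _).trans ?_
  rw [norm_ee, norm_one]
  norm_num

/-- the average of a complex function over a finite type -/
noncomputable def avc {α : Type} [Fintype α] (f : α → ℂ) : ℂ := (∑ x, f x) / (Fintype.card α : ℂ)

/-- the average of a real function over a finite type -/
noncomputable def avr {α : Type} [Fintype α] (f : α → ℝ) : ℝ := (∑ x, f x) / (Fintype.card α : ℝ)

lemma avc_norm_le {α : Type} [Fintype α] (f : α → ℂ) (h : ∀ x, ‖f x‖ ≤ 1) : ‖avc f‖ ≤ 1 := by
  unfold avc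
  rcases Nat.eq_zero_or_pos (Fintype.card α) with h0 | h0
  · simp [h0]
  · have hc : (0 : ℝ) < Fintype.card α := by exact_mod_cast h0
    rw [norm_div, Complex.norm_natCast, div_le_one hc]
    calc ‖∑ x, f x‖ ≤ ∑ x, ‖f x‖ := norm_sum_le _ _
      _ ≤ ∑ _x : α, (1 : ℝ) := Finset.sum_le_sum (fun x _ => h x)
      _ = Fintype.card α := by simp

lemma avc_norm_le_avr {α : Type} [Fintype α] (f : α → ℂ) : ‖avc f‖ ≤ avr (fun x => ‖f x‖) := by
  unfold avc avr
  rw [norm_div, Complex.norm_natCast]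
  exact div_le_div_of_nonneg_right (norm_sum_le _ _) (Nat.cast_nonneg _)

lemma avc_re {α : Type} [Fintype α] (f : α → ℂ) : (avc f).re = avr (fun x => (f x).re) := by
  unfold avc avr
  rw [← Complex.ofReal_natCast, Complex.div_ofReal_re, Complex.re_sum]

lemma avc_sub {α : Type} [Fintype α] (f g : α → ℂ) : avc (fun x => f x - g x) = avc f - avc g := by
  unfold avc
  rw [Finset.sum_sub_distrib, sub_div]

lemma avr_nonneg {α : Type} [Fintype α] (f : α → ℝ) (h : ∀ x, 0 ≤ f x) : 0 ≤ avr f :=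
  div_nonneg (Finset.sum_nonneg (fun x _ => h x)) (Nat.cast_nonneg _)

lemma avr_mono {α : Type} [Fintype α] (f g : α → ℝ) (h : ∀ x, f x ≤ g x) : avr f ≤ avr g :=
  div_le_div_of_nonneg_right (Finset.sum_le_sum (fun x _ => h x)) (Nat.cast_nonneg _)

lemma avr_const {α : Type} [Fintype α] [Nonempty α] (c : ℝ) : avr (fun _ : α => c) = c := by
  unfold avr
  have hc : (Fintype.card α : ℝ) ≠ 0 := by exact_mod_cast Fintype.card_ne_zero
  rw [Finset.sum_const, Finset.card_univ, nsmul_eq_mul]
  field_simp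

lemma avc_const {α : Type} [Fintype α] [Nonempty α] (c : ℂ) : avc (fun _ : α => c) = c := by
  unfold avc
  have hc : (Fintype.card α : ℂ) ≠ 0 := by exact_mod_cast Fintype.card_ne_zero
  rw [Finset.sum_const, Finset.card_univ, nsmul_eq_mul]
  field_simp

lemma avc_equiv {α β : Type} [Fintype α] [Fintype β] (e : α ≃ β) (f : β → ℂ) :
    avc (fun x => f (e x)) = avc f := by
  unfold avc
  rw [Fintype.card_congr e, Equiv.sum_comp e f]

lemma avr_equiv {α β : Type} [Fintype α] [Fintype β] (e : α ≃ β) (f : β → ℝ) :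
    avr (fun x => f (e x)) = avr f := by
  unfold avr
  rw [Fintype.card_congr e, Equiv.sum_comp e f]

lemma avc_prod {α β : Type} [Fintype α] [Fintype β] (f : α → β → ℂ) :
    avc (fun p : α × β => f p.1 p.2) = avc (fun x => avc (f x)) := by
  unfold avc
  rw [Fintype.sum_prod_type, Fintype.card_prod, Nat.cast_mul, ← Finset.sum_div, div_div]
  congr 1
  ring

lemma avr_prod {α β : Type} [Fintype α] [Fintype β] (f : α → β → ℝ) :
    avr (fun p : α × β => f p.1 p.2) = avr (fun x => avr (f x)) := by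
  unfold avr
  rw [Fintype.sum_prod_type, Fintype.card_prod, Nat.cast_mul, ← Finset.sum_div, div_div]
  congr 1
  ring

lemma avc_comm {α β : Type} [Fintype α] [Fintype β] (f : α → β → ℂ) :
    avc (fun x => avc (f x)) = avc (fun y => avc (fun x => f x y)) := by
  unfold avc
  rw [← Finset.sum_div, ← Finset.sum_div, Finset.sum_comm, div_div, div_div, mul_comm]

lemma avr_comm {α β : Type} [Fintype α] [Fintype β] (f : α → β → ℝ) :
    avr (fun x => avr (f x)) = avr (fun y => avr (fun x => f x y)) := by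
  unfold avr
  rw [← Finset.sum_div, ← Finset.sum_div, Finset.sum_comm, div_div, div_div, mul_comm]

lemma exists_le_of_avr {α : Type} [Fintype α] [Nonempty α] (f : α → ℝ) (c : ℝ) (h : c ≤ avr f) :
    ∃ x, c ≤ f x := by
  by_contra hcon
  push Not at hcon
  have hc : (0 : ℝ) < Fintype.card α := by exact_mod_cast Fintype.card_pos
  have h1 : ∑ x, f x < ∑ _x : α, c := Finset.sum_lt_sum_of_nonempty Finset.univ_nonempty (fun x _ => hcon x)
  unfold avr at h
  rw [le_div_iff₀ hc] at h
  rw [Finset.sum_const, Finset.card_univ, nsmul_eq_mul] at h1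
  linarith

/-- Jensen for powers -/
lemma avr_pow_le {α : Type} [Fintype α] [Nonempty α] (f : α → ℝ) (h : ∀ x, 0 ≤ f x) (k : ℕ) :
    (avr f) ^ k ≤ avr (fun x => f x ^ k) := by
  have hc : (Fintype.card α : ℝ) ≠ 0 := by exact_mod_cast Fintype.card_ne_zero
  have h1 := Real.pow_arith_mean_le_arith_mean_pow (Finset.univ : Finset α)
    (fun _ => ((Fintype.card α : ℝ))⁻¹) f (fun _ _ => by positivity)
    (by rw [Finset.sum_const, Finset.card_univ, nsmul_eq_mul]; field_simp) (fun i _ => h i) k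
  unfold avr
  rw [← Finset.mul_sum, ← Finset.mul_sum] at h1
  rw [div_eq_inv_mul, div_eq_inv_mul]
  exact h1

open Classical in
/-- the probability of an event under the uniform distribution -/
noncomputable def pr {α : Type} [Fintype α] (P : α → Prop) : ℝ := avr (fun x => if P x then (1 : ℝ) else 0)

lemma pr_nonneg {α : Type} [Fintype α] (P : α → Prop) : 0 ≤ pr P := by
  unfold pr
  apply avr_nonneg
  intro x
  split_ifs <;> norm_num

lemma pr_le_one {α : Type} [Fintype α] (P : α → Prop) : pr P ≤ 1 := by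
  classical
  rcases isEmpty_or_nonempty α with h | h
  · unfold pr avr
    simp
  · unfold pr
    refine (avr_mono _ (fun _ => 1) ?_).trans_eq (avr_const 1)
    intro x
    split_ifs <;> norm_num

lemma pr_mono {α : Type} [Fintype α] (P Q : α → Prop) (h : ∀ x, P x → Q x) : pr P ≤ pr Q := by
  classical
  unfold pr
  apply avr_mono
  intro x
  by_cases hP : P x
  · rw [if_pos hP, if_pos (h x hP)]
  · rw [if_neg hP]
    split_ifs <;> norm_num

lemma pr_compl {α : Type} [Fintype α] [Nonempty α] (P : α → Prop) : pr (fun x => ¬ P x) = 1 - pr P := by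
  classical
  have h : pr (fun x => ¬ P x) + pr P = 1 := by
    rw [← avr_const (α := α) 1]
    unfold pr avr
    rw [← add_div, ← Finset.sum_add_distrib]
    congr 1
    apply Finset.sum_congr rfl
    intro x _
    by_cases hP : P x <;> simp [hP]
  linarith

lemma pr_equiv {α β : Type} [Fintype α] [Fintype β] (e : α ≃ β) (P : β → Prop) :
    pr (fun x => P (e x)) = pr P := by
  classical
  unfold pr
  exact avr_equiv e (fun y => if P y then (1 : ℝ) else 0)

/-- Markov -/
lemma pr_markov {α : Type} [Fintype α] (f : α → ℝ) (h : ∀ x, 0 ≤ f x) (t : ℝ) (ht : 0 < t) :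
    pr (fun x => t ≤ f x) ≤ avr f / t := by
  classical
  rw [le_div_iff₀ ht]
  have h1 : pr (fun x => t ≤ f x) * t = avr (fun x => (if t ≤ f x then (1 : ℝ) else 0) * t) := by
    unfold pr avr
    rw [← Finset.sum_mul]
    ring
  rw [h1]
  apply avr_mono
  intro x
  split_ifs with hx
  · linarith
  · simpa using h x

/-- choose the coordinate of `x` (if `ω l = false`) or of `y` (if `ω l = true`) -/
def pick {s : ℕ} {W : Type} (ω : Fin s → Bool) (x y : Fin s → W) : Fin s → W :=
  fun l => if ω l then y l else x l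

/-- the sign `(-1)^|ω|` -/
def sgn {s : ℕ} (ω : Fin s → Bool) : ℝ := ∏ l, (if ω l then (-1 : ℝ) else 1)

/-- alternating sum over the box with corners `x`, `y` -/
def box {s : ℕ} {W : Type} (F : (Fin s → W) → ℝ) (x y : Fin s → W) : ℝ :=
  ∑ ω : Fin s → Bool, sgn ω * F (pick ω x y)

/-- the multiset of the values of `y` -/
def ms {s : ℕ} {V : Type} (y : Fin s → V) : Multiset V := (univ : Finset (Fin s)).val.map y

lemma card_ms {s : ℕ} {V : Type} (y : Fin s → V) : Multiset.card (ms y) = s := by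
  simp [ms]

/-- the phase -/
noncomputable def Ph {V ι : Type} [Fintype ι] (K : Multiset V → ℝ[X]) (u : ι → V) : ℝ :=
  ∑ B : Finset ι, (K (B.val.map u)).eval (Fintype.card ι : ℝ)

/-- its exponential average -/
noncomputable def ph {V : Type} [Fintype V] (K : Multiset V → ℝ[X]) (n : ℕ) : ℂ :=
  avc (fun u : Fin n → V => ee (Ph K u))

/-- the class `C(s, D, E)` of kernels -/
structure Cls {V : Type} (s D E : ℕ) (K : Multiset V → ℝ[X]) : Prop where
  big : ∀ M, s < Multiset.card M → K M = 0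
  zero : ∀ M, (K M).coeff 0 = 0
  top : ∀ M, Multiset.card M = s → (K M).natDegree ≤ D
  low : ∀ M, Multiset.card M < s → (K M).natDegree ≤ E

/-- the integer of the scale `(Q, J)` at the point `x` -/
def scn (Q J q Bq : ℕ) (x : Fin J × (Fin q → Fin Bq)) : ℕ :=
  Q * (J + (x.1 : ℕ) + ∑ i, (x.2 i : ℕ))

/-- the average over a scale -/
noncomputable def sc (Q J q Bq : ℕ) (F : ℕ → ℂ) : ℂ :=
  avc (fun x : Fin J × (Fin q → Fin Bq) => F (scn Q J q Bq x))

end Pool.Agent.Lib.MP_90b327_co.LS
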