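import Mathlib
import Pool.Agent.Lib.MP_90b327_co.LS.Def

/-!
LineSums campaign: definitions for the combinatorial half (integer vectors on the reference cells, gadgets, line sums).
-/

set_option autoImplicit false

namespace Pool.Agent.Lib.MP_90b327_co.LS

open Finset Polynomial
open scoped BigOperators

/-- the number of points of `A` on the line through `a` in direction `j` -/
def ls {d : ℕ} {U : Type} [Fintype U] [DecidableEq U] (A : Finset (Fin d → U)) (j : Fin d)
    (a : Fin d → U) : ℕ :=
  ((univ : Finset U).filter (fun v => Function.update a j v ∈ A)).card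

/-- reference cells: at least one coordinate is the extra vertex `none` -/
abbrev RR (d : ℕ) (V : Type) : Type := {c : Fin d → Option V // ∃ i, c i = none}

/-- the weight of one coordinate -/
def hh {V : Type} [DecidableEq V] (γ : Finset V) : Option V → ℤ
  | none => -(γ.card : ℤ)
  | some v => if v ∈ γ then 1 else 0

/-- `γ^d` minus the reference vector: `∏ hh` -/
def HH {d : ℕ} {V : Type} [DecidableEq V] (γ : Finset V) (c : Fin d → Option V) : ℤ :=
  ∏ i, hh γ (c i)

/-- the reference vector of `γ` -/
def GG {d : ℕ} {V : Type} [DecidableEq V] (γ : Finset V) (c : RR d V) : ℤ := -HH γ c.1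

/-- the number of coordinates equal to `none` -/
def zc {d : ℕ} {V : Type} [DecidableEq V] (c : Fin d → Option V) : ℕ :=
  ((univ : Finset (Fin d)).filter (fun i => c i = none)).card

/-- the set of the vertices of a reference cell -/
def supp {d : ℕ} {V : Type} [Fintype V] [DecidableEq V] (c : Fin d → Option V) : Finset V :=
  (univ : Finset V).filter (fun v => ∃ i, c i = some v)

/-- the kernel of a character -/
noncomputable def kk {d : ℕ} {V : Type} [Fintype V] [DecidableEq V] (θ : RR d V → ℝ) :
    Multiset V → ℝ[X] := fun M =>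
  if Multiset.card M ≤ d - 1 then
    ∑ c : RR d V, if supp c.1 = M.toFinset then C (θ c * (-1) ^ (zc c.1 + 1)) * X ^ (zc c.1) else 0
  else 0

/-- the vertices of the window: `Option V` and the auxiliary vertices of the gadgets -/
abbrev UU (d : ℕ) (V : Type) (L : ℕ) : Type := Option V ⊕ (RR d V × Fin L × Fin d)

instance decRR {d : ℕ} {V : Type} [DecidableEq V] : DecidableEq (RR d V) := inferInstance

instance decUU {d L : ℕ} {V : Type} [DecidableEq V] : DecidableEq (UU d V L) := inferInstance

instance decCell {d L : ℕ} {V : Type} [DecidableEq V] : DecidableEq (Fin d → UU d V L) :=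
  fun a b => Fintype.decidablePiFintype a b

/-- the cells of the gadget `(c, l)` -/
def cw {d : ℕ} {V : Type} {L : ℕ} (c : RR d V) (l : Fin L) (ω : Fin d → Bool) :
    Fin d → UU d V L :=
  pick ω (fun i => Sum.inl (c.1 i)) (fun i => Sum.inr (c, l, i))

/-- the number of coordinates with `ω i = true` -/
def nt {d : ℕ} (ω : Fin d → Bool) : ℕ := ((univ : Finset (Fin d)).filter (fun i => ω i = true)).card

open Classical in
/-- the pattern `X_z` -/
noncomputable def pat {d : ℕ} {V : Type} [Fintype V] [DecidableEq V] {L : ℕ} (z : RR d V → ℕ) :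
    Finset (Fin d → UU d V L) :=
  univ.filter (fun x => ∃ (c : RR d V) (l : Fin L) (ω : Fin d → Bool),
    (∃ i, ω i = true) ∧ (Odd (nt ω) ↔ (l : ℕ) < z c) ∧ x = cw c l ω)

open Classical in
/-- `γ^d` inside the window -/
noncomputable def full {d : ℕ} {V : Type} [Fintype V] [DecidableEq V] {L : ℕ} (γ : Finset V) :
    Finset (Fin d → UU d V L) :=
  univ.filter (fun x => ∀ i, ∃ v ∈ γ, x i = Sum.inl (some v))

lemma mem_pat {d : ℕ} {V : Type} [Fintype V] [DecidableEq V] {L : ℕ} (z : RR d V → ℕ)
    (x : Fin d → UU d V L) : x ∈ pat (L := L) z ↔ ∃ (c : RR d V) (l : Fin L) (ω : Fin d → Bool),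
    (∃ i, ω i = true) ∧ (Odd (nt ω) ↔ (l : ℕ) < z c) ∧ x = cw c l ω := by
  simp [pat]

lemma mem_full {d : ℕ} {V : Type} [Fintype V] [DecidableEq V] {L : ℕ} (γ : Finset V)
    (x : Fin d → UU d V L) : x ∈ full (L := L) γ ↔ ∀ i, ∃ v ∈ γ, x i = Sum.inl (some v) := by
  simp [full]

end Pool.Agent.Lib.MP_90b327_co.LS
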