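import Mathlib
import Pool.Agent.Lib.MP_90b327_co.LS.Grd

/-!
Module Box (30 min): the alternating sum over a box has zero line sums; the same for `HH`.

PROOF of `box_line`: exchange the sums; for fixed `ω` `Σ_v [pick ω c a = update b j v]` is `1` if `pick ω c a i = b i` for all `i ≠ j`, else `0`; this does not change when `ω j` is flipped, and the
sign changes (`Finset.sum_involution` with `ω ↦ Function.update ω j (!ω j)`).
PROOF of `HH_line`: `HH γ (update b j v) = (∏_{i ≠ j} hh γ (b i)) * hh γ v` and `Σ_v hh γ v = -|γ| + |γ| = 0` (`Fintype.sum_option`).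
-/

set_option autoImplicit false

namespace Pool.Agent.Lib.MP_90b327_co.LS

open Finset Polynomial
open scoped BigOperators

private lemma box_sign {d : ℕ} (ω : Fin d → Bool) :
    (-1 : ℤ) ^ (nt ω) = ∏ i, (if ω i = true then (-1 : ℤ) else 1) := by
  rw [Finset.prod_ite, Finset.prod_const, Finset.prod_const_one, mul_one]
  rfl

private lemma box_flip {d : ℕ} (ω : Fin d → Bool) (j : Fin d) :
    (-1 : ℤ) ^ (nt (Function.update ω j (!ω j))) = -(-1 : ℤ) ^ (nt ω) := by
  classical
  rw [box_sign, box_sign, ← Finset.mul_prod_erase univ _ (mem_univ j),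
    ← Finset.mul_prod_erase univ (fun i => if ω i = true then (-1 : ℤ) else 1) (mem_univ j)]
  have h1 : ∏ i ∈ univ.erase j, (if (Function.update ω j (!ω j)) i = true then (-1 : ℤ) else 1) =
      ∏ i ∈ univ.erase j, (if ω i = true then (-1 : ℤ) else 1) := by
    refine Finset.prod_congr rfl fun i hi => ?_
    rw [Function.update_of_ne (Finset.ne_of_mem_erase hi)]
  rw [h1, Function.update_self]
  cases ω j <;> simp

private lemma box_count {d : ℕ} {U : Type} [Fintype U] [DecidableEq U] (g b : Fin d → U) (j : Fin d) :
    ∑ v : U, (if g = Function.update b j v then (1 : ℤ) else 0) =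
      if ∀ i, i ≠ j → g i = b i then 1 else 0 := by
  classical
  have h1 : ∀ v : U, (if g = Function.update b j v then (1 : ℤ) else 0) =
      if g j = v then (if ∀ i, i ≠ j → g i = b i then 1 else 0) else 0 := by
    intro v
    by_cases h4 : g = Function.update b j v
    · obtain ⟨h2, h3⟩ := Function.eq_update_iff.1 h4
      rw [if_pos h4, if_pos h2, if_pos h3]
    · rw [if_neg h4]
      by_cases h2 : g j = v
      · rw [if_pos h2, if_neg (fun h3 => h4 (Function.eq_update_iff.2 ⟨h2, h3⟩))]
      · rw [if_neg h2]
  rw [Finset.sum_congr rfl fun v _ => h1 v, Finset.sum_ite_eq, if_pos (mem_univ _)]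

theorem box_line {d : ℕ} {U : Type} [Fintype U] [DecidableEq U] (c a b : Fin d → U) (j : Fin d) :
    ∑ v : U, ∑ ω : Fin d → Bool, (-1 : ℤ) ^ (nt ω) *
      (if pick ω c a = Function.update b j v then 1 else 0) = 0 := by
  classical
  rw [Finset.sum_comm]
  have h1 : ∀ ω : Fin d → Bool, ∑ v : U, (-1 : ℤ) ^ (nt ω) *
      (if pick ω c a = Function.update b j v then 1 else 0) =
      (-1 : ℤ) ^ (nt ω) * (if ∀ i, i ≠ j → pick ω c a i = b i then 1 else 0) := by
    intro ω
    rw [← Finset.mul_sum, box_count]
  rw [Finset.sum_congr rfl fun ω _ => h1 ω]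
  refine Finset.sum_involution (fun ω _ => Function.update ω j (!ω j)) ?_ ?_ ?_ ?_
  · intro ω _
    have h2 : (∀ i, i ≠ j → pick (Function.update ω j (!ω j)) c a i = b i) ↔
        (∀ i, i ≠ j → pick ω c a i = b i) := by
      refine forall_congr' fun i => forall_congr' fun hi => ?_
      unfold pick
      rw [Function.update_of_ne hi]
    rw [box_flip]
    simp only [h2]
    ring
  · intro ω _ _ h
    have h2 := congrFun h j
    rw [Function.update_self] at h2
    cases h3 : ω j <;> rw [h3] at h2 <;> simp at h2
  · intro ω _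
    exact mem_univ _
  · intro ω _
    rw [Function.update_self, Bool.not_not, Function.update_idem, Function.update_eq_self]

theorem HH_line {d : ℕ} {V : Type} [Fintype V] [DecidableEq V] (γ : Finset V) (b : Fin d → Option V)
    (j : Fin d) : ∑ v : Option V, HH γ (Function.update b j v) = 0 := by
  classical
  have h1 : ∀ v : Option V, HH γ (Function.update b j v) =
      hh γ v * ∏ i ∈ univ.erase j, hh γ (b i) := by
    intro v
    unfold HH
    rw [← Finset.mul_prod_erase univ _ (mem_univ j), Function.update_self]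
    congr 1
    refine Finset.prod_congr rfl fun i hi => ?_
    rw [Function.update_of_ne (Finset.ne_of_mem_erase hi)]
  rw [Finset.sum_congr rfl fun v _ => h1 v, ← Finset.sum_mul, Fintype.sum_option]
  have h2 : ∑ v : V, hh γ (some v) = (γ.card : ℤ) := by
    show ∑ v : V, (if v ∈ γ then (1 : ℤ) else 0) = _
    rw [← Finset.sum_filter, Finset.filter_mem_eq_inter, Finset.univ_inter, Finset.sum_const,
      nsmul_eq_mul, mul_one]
  rw [h2]
  show (-(γ.card : ℤ) + γ.card) * _ = 0
  rw [neg_add_cancel, zero_mul]

end Pool.Agent.Lib.MP_90b327_co.LS
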