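import Mathlib
import Pool.Agent.Lib.MP_90b327_co.LS.Def

/-!
Module Cha (30 min): the chain of classes.

PROOF. Induction on `s` (outer), and for fixed `s` on `D` (inner), for all `E`.
`(0, 0, E)`: `B = 0`, `t = fun _ => (0, 0, E)`. `(s+1, 0, E)`: `Cls (s+1) 0 E K → Cls s E E K` (a polynomial of natDegree 0 with `coeff 0 = 0` vanishes; `Polynomial.eq_C_of_natDegree_le_zero`),
so take the chain of `(s, E, E)`. `(s, D+1, E)`: prepend `(s, D+1, E)` to the chain of `(s, D, max E (D+1+s))`.
-/

set_option autoImplicit false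

namespace Pool.Agent.Lib.MP_90b327_co.LS

open Finset Polynomial
open scoped BigOperators

private lemma cha_drop (V : Type) (s E : ℕ) (K : Multiset V → ℝ[X]) (hK : Cls (s + 1) 0 E K) :
    Cls s E E K := by
  refine ⟨?_, hK.zero, ?_, ?_⟩
  · intro M hM
    rcases Nat.lt_or_ge (s + 1) (Multiset.card M) with h | h
    · exact hK.big M h
    · have h1 : Multiset.card M = s + 1 := by omega
      have h2 := eq_C_of_natDegree_le_zero (hK.top M h1)
      rw [hK.zero M, C_0] at h2
      exact h2
  · intro M hM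
    exact hK.low M (by omega)
  · intro M hM
    exact hK.low M (by omega)

theorem cls_chain (s D E : ℕ) : ∃ (B : ℕ) (t : ℕ → ℕ × ℕ × ℕ),
    (∀ (V : Type) (K : Multiset V → ℝ[X]), Cls s D E K → Cls (t 0).1 (t 0).2.1 (t 0).2.2 K) ∧
    (∀ k < B, 1 ≤ (t k).2.1 ∧ ∀ (V : Type) (K : Multiset V → ℝ[X]),
      Cls (t k).1 ((t k).2.1 - 1) (max (t k).2.2 ((t k).2.1 + (t k).1)) K →
        Cls (t (k + 1)).1 (t (k + 1)).2.1 (t (k + 1)).2.2 K) ∧
    (t B).1 = 0 ∧ (t B).2.1 = 0 := by
  induction s generalizing D E with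
  | zero =>
    induction D generalizing E with
    | zero =>
      exact ⟨0, fun _ => (0, 0, E), fun V K h => h, fun k hk => absurd hk (Nat.not_lt_zero k), rfl, rfl⟩
    | succ D ih =>
      obtain ⟨B, t, h1, h2, h3, h4⟩ := ih (max E (D + 1 + 0))
      refine ⟨B + 1, fun k => Nat.casesOn k (0, D + 1, E) t, fun V K h => h, ?_, h3, h4⟩
      intro k hk
      rcases k with _ | k
      · exact ⟨Nat.le_add_left _ _, fun V K h => h1 V K h⟩
      · exact h2 k (by omega)
  | succ s ihs =>
    induction D generalizing E with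
    | zero =>
      obtain ⟨B, t, h1, h2, h3, h4⟩ := ihs E E
      exact ⟨B, t, fun V K h => h1 V K (cha_drop V s E K h), h2, h3, h4⟩
    | succ D ih =>
      obtain ⟨B, t, h1, h2, h3, h4⟩ := ih (max E (D + 1 + (s + 1)))
      refine ⟨B + 1, fun k => Nat.casesOn k (s + 1, D + 1, E) t, fun V K h => h, ?_, h3, h4⟩
      intro k hk
      rcases k with _ | k
      · exact ⟨Nat.le_add_left _ _, fun V K h => h1 V K h⟩
      · exact h2 k (by omega)

end Pool.Agent.Lib.MP_90b327_co.LS
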