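import Mathlib
import Pool.Agent.Lib.MP_90b327_co.LS.Def

/-!
Module Chn (75 min): abstract induction over scales.

PROOF. Let `c` be a common multiple (product) of the `c_k`, `k < B`; `bad_k(F, Q, J) : (sc Q J q Bq F).re < -ε (2 - k/B)`.
If `B = 0`: `F ∈ 𝒞 0` has `0 ≤ (F n).re`, take `r = 1`, `w = 1`, `n = 1`. Let `B ≥ 1`.
CLAIM: for all `S` and `Q ≥ 1` there are `J : ℕ → ℕ`, all `≥ 1`, such that for all `k ≤ B`, `F ∈ 𝒞 k`: the number of `i < S` with `bad_k(F, Q c^i, J i)`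
is at most `B - k`.
Induction on `S`. `S = 0` clear. `S + 1`: apply the claim to `Q c` to get `J'`; let `Nmax` bound all `scn (Q c c^i) (J' i) q Bq x`, `i < S`, and let
`κ > 0` be so small that `κ Nmax^(A_k) ≤ ε/B` for all `k < B` (`A_k` the exponents of `hstep`); let `J_0 ≥ 1` exceed the `J0` of all `k < B` for this `κ`; `J i := J_0` for `i = 0`,
`J' (i-1)` otherwise. Let `F ∈ 𝒞 k`. The scales `1..S` contribute at most `B - k` (induction hypothesis for `F`). If scale `0` is not bad, done.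
If it is bad then `‖sc‖ ≥ |re| ≥ ε`, and `k < B` (for `k = B` all values have `re ≥ 0`), so there is `F' ∈ 𝒞 (k+1)` with `‖F n - F' n‖ ≤ κ n^A ≤ ε/B` for all `n`
of the later scales (they are divisible by `Q c`, hence by `Q c_k`); so `bad_k(F)` implies `bad_{k+1}(F')` at the later scales (`sc` is linear and monotone:
`|sc F - sc F'| ≤ ε/B`), at most `B - k - 1` of them, total `≤ B - k`.
FINAL: `S := ⌈B/ε⌉ + 1`, `Q = 1`; weights `1/(S * card)` on the disjoint union of the scales (`Σ i : Fin S, Fin (J i) × (Fin q → Fin Bq)`, transported to `Fin r` by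
`Fintype.equivFin`); all `n ≥ 1` as `Q c^i ≥ 1`, `J ≥ 1`. `Σ w Re F = (1/S) Σ_i (sc ..).re ≥ -2ε - (1/S) B ≥ -3ε` (`re ≥ -1` always by `hbd`).
-/

set_option autoImplicit false

namespace Pool.Agent.Lib.MP_90b327_co.LS

open Finset Polynomial
open scoped BigOperators

private def chnBad (B q Bq : ℕ) (ε : ℝ) (k : ℕ) (F : ℕ → ℂ) (Q J : ℕ) : Prop :=
  (sc Q J q Bq F).re < -(ε * (2 - (k : ℝ) / B))

open Classical in
private theorem chn_claim (B : ℕ) (hB : 1 ≤ B) (𝒞 : ℕ → Set (ℕ → ℂ)) (q Bq : ℕ) (hBq : 1 ≤ Bq)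
    (ε : ℝ) (hε : 0 < ε)
    (hlast : ∀ F ∈ 𝒞 B, ∀ n, 0 ≤ (F n).re)
    (c A : ℕ → ℕ) (hc : ∀ k, 1 ≤ c k) (J0 : ℕ → ℝ → ℕ)
    (hstep : ∀ k < B, ∀ κ : ℝ, 0 < κ → ∀ J : ℕ, J0 k κ ≤ J →
      ∀ Q : ℕ, 1 ≤ Q → ∀ F ∈ 𝒞 k, ε ≤ ‖sc Q J q Bq F‖ →
        ∃ F' ∈ 𝒞 (k + 1), ∀ n : ℕ, Q * c k ∣ n → ‖F n - F' n‖ ≤ κ * (n : ℝ) ^ A k) (S : ℕ) :
    ∀ Q : ℕ, 1 ≤ Q → ∃ J : ℕ → ℕ, (∀ i, 1 ≤ J i) ∧ ∀ k ≤ B, ∀ F ∈ 𝒞 k,
      ((range S).filter (fun i => chnBad B q Bq ε k F (Q * (∏ l ∈ range B, c l) ^ i) (J i))).card + k ≤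
        B := by
  have hB0 : (0 : ℝ) < B := by exact_mod_cast hB
  set C : ℕ := ∏ l ∈ range B, c l with hC
  have hC1 : 1 ≤ C := Nat.one_le_iff_ne_zero.mpr (prod_ne_zero_iff.mpr fun l _ => by
    have := hc l
    omega)
  induction S with
  | zero =>
    intro Q _
    refine ⟨fun _ => 1, fun _ => le_rfl, fun k hk F _ => ?_⟩
    simpa using hk
  | succ S ih =>
    intro Q hQ
    obtain ⟨J', hJ', hcnt⟩ := ih (Q * C) (Nat.mul_pos hQ hC1)
    -- bound for the later scales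
    obtain ⟨Nm, hNm⟩ : ∃ Nm : ℕ, ∀ i < S, ∀ x : Fin (J' i) × (Fin q → Fin Bq),
        scn (Q * C * C ^ i) (J' i) q Bq x ≤ Nm := by
      refine ⟨∑ i ∈ range S, ∑ x : Fin (J' i) × (Fin q → Fin Bq),
        scn (Q * C * C ^ i) (J' i) q Bq x, fun i hi x => ?_⟩
      refine le_trans ?_ (single_le_sum (f := fun i => ∑ x : Fin (J' i) × (Fin q → Fin Bq),
        scn (Q * C * C ^ i) (J' i) q Bq x) (fun _ _ => Nat.zero_le _) (mem_range.mpr hi))
      exact single_le_sum (f := fun x : Fin (J' i) × (Fin q → Fin Bq) =>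
        scn (Q * C * C ^ i) (J' i) q Bq x) (fun _ _ => Nat.zero_le _) (mem_univ x)
    set Am : ℕ := ∑ k ∈ range B, A k with hAm
    set κ : ℝ := ε / B / ((Nm : ℝ) + 1) ^ Am with hκ
    have hNm1 : (1 : ℝ) ≤ (Nm : ℝ) + 1 := by
      have : (0 : ℝ) ≤ Nm := by positivity
      linarith
    have hκ0 : 0 < κ := by positivity
    have hκle : ∀ k < B, ∀ n : ℕ, n ≤ Nm → κ * (n : ℝ) ^ A k ≤ ε / B := by
      intro k hk n hn
      have h1 : (n : ℝ) ≤ (Nm : ℝ) + 1 := by
        have : (n : ℝ) ≤ Nm := by exact_mod_cast hn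
        linarith
      have h2 : (n : ℝ) ^ A k ≤ ((Nm : ℝ) + 1) ^ Am := by
        refine (pow_le_pow_left₀ (by positivity) h1 _).trans ?_
        apply pow_le_pow_right₀ hNm1
        exact single_le_sum (f := A) (fun _ _ => Nat.zero_le _) (mem_range.mpr hk)
      calc κ * (n : ℝ) ^ A k ≤ κ * ((Nm : ℝ) + 1) ^ Am := mul_le_mul_of_nonneg_left h2 hκ0.le
        _ = ε / B := by
          rw [hκ]
          exact div_mul_cancel₀ _ (by positivity)
    set J1 : ℕ := 1 + ∑ k ∈ range B, J0 k κ with hJ1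
    have hJ1k : ∀ k < B, J0 k κ ≤ J1 := by
      intro k hk
      have := single_le_sum (f := fun k => J0 k κ) (fun _ _ => Nat.zero_le _) (mem_range.mpr hk)
      omega
    refine ⟨fun i => if i = 0 then J1 else J' (i - 1), ?_, ?_⟩
    · intro i
      simp only
      split_ifs
      · omega
      · exact hJ' _
    intro k hk F hF
    -- split off the scale 0
    have hsplit : ((range (S + 1)).filter (fun i => chnBad B q Bq ε k F (Q * C ^ i)
        (if i = 0 then J1 else J' (i - 1)))).card =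
        ((range S).filter (fun i => chnBad B q Bq ε k F (Q * C * C ^ i) (J' i))).card +
          (if chnBad B q Bq ε k F Q J1 then 1 else 0) := by
      have h1 : (range S).filter (fun i => chnBad B q Bq ε k F (Q * C * C ^ i) (J' i)) =
          (range S).filter (fun i => chnBad B q Bq ε k F (Q * C ^ (i + 1))
            (if i + 1 = 0 then J1 else J' (i + 1 - 1))) := by
        refine filter_congr fun i _ => ?_
        rw [if_neg (Nat.succ_ne_zero i), Nat.add_sub_cancel, pow_succ']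
        rw [mul_assoc]
      rw [h1, card_filter, card_filter, sum_range_succ']
      congr 1
      simp
    rw [hsplit]
    have hcnt0 := hcnt k hk F hF
    by_cases hbad : chnBad B q Bq ε k F Q J1
    · rw [if_pos hbad]
      have hkB : (k : ℝ) / B ≤ 1 := by
        rw [div_le_one hB0]
        exact_mod_cast hk
      have hre : (sc Q J1 q Bq F).re < -ε := by
        unfold chnBad at hbad
        nlinarith
      have hnorm : ε ≤ ‖sc Q J1 q Bq F‖ := by
        have h1 := Complex.abs_re_le_norm (sc Q J1 q Bq F)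
        have h2 := neg_abs_le (sc Q J1 q Bq F).re
        linarith
      have hk' : k < B := by
        rcases Nat.lt_or_ge k B with h | h
        · exact h
        · exfalso
          have hkB' : k = B := le_antisymm hk h
          subst hkB'
          have h1 : 0 ≤ (sc Q J1 q Bq F).re := by
            unfold sc
            rw [avc_re]
            exact avr_nonneg _ fun x => hlast F hF _
          linarith
      obtain ⟨F', hF', hFF⟩ := hstep k hk' κ hκ0 J1 (hJ1k k hk') Q hQ F hF hnorm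
      have hcnt1 := hcnt (k + 1) hk' F' hF'
      have hsub : (range S).filter (fun i => chnBad B q Bq ε k F (Q * C * C ^ i) (J' i)) ⊆
          (range S).filter (fun i => chnBad B q Bq ε (k + 1) F' (Q * C * C ^ i) (J' i)) := by
        intro i hi
        obtain ⟨hiS, hib⟩ := mem_filter.mp hi
        refine mem_filter.mpr ⟨hiS, ?_⟩
        have hiS' := mem_range.mp hiS
        unfold chnBad at hib ⊢
        have hdif : (sc (Q * C * C ^ i) (J' i) q Bq F').re - (sc (Q * C * C ^ i) (J' i) q Bq F).re ≤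
            ε / B := by
          unfold sc
          rw [avc_re, avc_re]
          have : Nonempty (Fin (J' i) × (Fin q → Fin Bq)) :=
            ⟨(⟨0, hJ' i⟩, fun _ => ⟨0, hBq⟩)⟩
          have h1 : avr (fun x : Fin (J' i) × (Fin q → Fin Bq) =>
              (F' (scn (Q * C * C ^ i) (J' i) q Bq x)).re) ≤
              avr (fun x : Fin (J' i) × (Fin q → Fin Bq) =>
                (F (scn (Q * C * C ^ i) (J' i) q Bq x)).re) + ε / B := by
            have h2 : avr (fun x : Fin (J' i) × (Fin q → Fin Bq) =>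
                (F (scn (Q * C * C ^ i) (J' i) q Bq x)).re) + ε / B =
                avr (fun x : Fin (J' i) × (Fin q → Fin Bq) =>
                (F (scn (Q * C * C ^ i) (J' i) q Bq x)).re + ε / B) := by
              conv_lhs => rw [← avr_const (α := Fin (J' i) × (Fin q → Fin Bq)) (ε / B)]
              unfold avr
              rw [← add_div, ← sum_add_distrib]
            rw [h2]
            apply avr_mono
            intro x
            have h3 : Q * c k ∣ scn (Q * C * C ^ i) (J' i) q Bq x := by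
              have h4 : c k ∣ C := dvd_prod_of_mem c (mem_range.mpr hk')
              have h5 : Q * c k ∣ Q * C := Nat.mul_dvd_mul_left Q h4
              unfold scn
              exact (h5.trans (Dvd.intro _ rfl)).trans (Dvd.intro _ rfl)
            have h6 := (hFF _ h3).trans (hκle k hk' _ (hNm i hiS' x))
            have h7 := Complex.abs_re_le_norm (F (scn (Q * C * C ^ i) (J' i) q Bq x) -
              F' (scn (Q * C * C ^ i) (J' i) q Bq x))
            rw [Complex.sub_re] at h7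
            have h8 := (abs_le.mp (h7.trans h6)).1
            linarith
          linarith
        have e1 : -(ε * (2 - ((k + 1 : ℕ) : ℝ) / B)) = -(ε * (2 - (k : ℝ) / B)) + ε / B := by
          push_cast
          field_simp
          ring
        rw [e1]
        linarith
      have := card_le_card hsub
      omega
    · rw [if_neg hbad, add_zero]
      exact hcnt0

open Classical in
theorem chain (B : ℕ) (𝒞 : ℕ → Set (ℕ → ℂ)) (q Bq : ℕ) (hBq : 1 ≤ Bq) (ε : ℝ) (hε : 0 < ε)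
    (hlast : ∀ F ∈ 𝒞 B, ∀ n, 0 ≤ (F n).re) (hbd : ∀ k, ∀ F ∈ 𝒞 k, ∀ n, ‖F n‖ ≤ 1)
    (hstep : ∀ k < B, ∃ c : ℕ, 1 ≤ c ∧ ∃ A : ℕ, ∀ κ : ℝ, 0 < κ → ∃ J0 : ℕ, ∀ J : ℕ, J0 ≤ J →
      ∀ Q : ℕ, 1 ≤ Q → ∀ F ∈ 𝒞 k, ε ≤ ‖sc Q J q Bq F‖ →
        ∃ F' ∈ 𝒞 (k + 1), ∀ n : ℕ, Q * c ∣ n → ‖F n - F' n‖ ≤ κ * (n : ℝ) ^ A) :
    ∃ (r : ℕ) (w : Fin r → ℝ) (n : Fin r → ℕ), (∀ j, 0 ≤ w j) ∧ ∑ j, w j = 1 ∧ (∀ j, 1 ≤ n j) ∧
      ∀ F ∈ 𝒞 0, -(3 * ε) ≤ ∑ j, w j * (F (n j)).re := by
  rcases Nat.eq_zero_or_pos B with hB0 | hB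
  · subst hB0
    refine ⟨1, fun _ => 1, fun _ => 1, fun _ => zero_le_one, by simp, fun _ => le_rfl, ?_⟩
    intro F hF
    have := hlast F hF 1
    simp only [univ_unique, sum_const, card_singleton, one_smul, one_mul]
    linarith
  -- total functions
  have h0 : ∀ k : ℕ, ∃ c : ℕ, 1 ≤ c ∧ ∃ A : ℕ, ∀ κ : ℝ, ∃ J0 : ℕ, k < B → 0 < κ → ∀ J : ℕ, J0 ≤ J →
      ∀ Q : ℕ, 1 ≤ Q → ∀ F ∈ 𝒞 k, ε ≤ ‖sc Q J q Bq F‖ →
        ∃ F' ∈ 𝒞 (k + 1), ∀ n : ℕ, Q * c ∣ n → ‖F n - F' n‖ ≤ κ * (n : ℝ) ^ A := by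
    intro k
    by_cases hk : k < B
    · obtain ⟨c, hc, A, h⟩ := hstep k hk
      refine ⟨c, hc, A, fun κ => ?_⟩
      by_cases hκ : 0 < κ
      · obtain ⟨J0, hJ0⟩ := h κ hκ
        exact ⟨J0, fun _ _ => hJ0⟩
      · exact ⟨0, fun _ h' => absurd h' hκ⟩
    · exact ⟨1, le_rfl, 0, fun κ => ⟨0, fun h' => absurd h' hk⟩⟩
  choose c hc A J0 hJ0 using h0
  have hεS : (0 : ℝ) < (⌈(B : ℝ) / ε⌉₊ + 1 : ℕ) := by positivity
  set S : ℕ := ⌈(B : ℝ) / ε⌉₊ + 1 with hS
  obtain ⟨J, hJ, hcnt⟩ := chn_claim B hB 𝒞 q Bq hBq ε hε hlast c A hc J0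
    (fun k hk κ hκ => hJ0 k κ hk hκ) S 1 le_rfl
  set C : ℕ := ∏ l ∈ range B, c l with hC
  have hC1 : 1 ≤ C := Nat.one_le_iff_ne_zero.mpr (prod_ne_zero_iff.mpr fun l _ => by
    have := hc l
    omega)
  let X : Fin S → Type := fun i => Fin (J i) × (Fin q → Fin Bq)
  have hne : ∀ i : Fin S, Nonempty (X i) := fun i => ⟨(⟨0, hJ i⟩, fun _ => ⟨0, hBq⟩)⟩
  let ι : Type := Σ i : Fin S, X i
  let W : ι → ℝ := fun x => 1 / ((S : ℝ) * (Fintype.card (X x.1) : ℝ))
  let N : ι → ℕ := fun x => scn (1 * C ^ (x.1 : ℕ)) (J x.1) q Bq x.2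
  let eq : ι ≃ Fin (Fintype.card ι) := Fintype.equivFin ι
  have hcard : ∀ i : Fin S, (0 : ℝ) < (Fintype.card (X i) : ℝ) := fun i => by
    exact_mod_cast Fintype.card_pos
  have hsum : ∀ g : ι → ℝ, ∑ j, W (eq.symm j) * g (eq.symm j) =
      1 / (S : ℝ) * ∑ i : Fin S, avr (fun x : X i => g ⟨i, x⟩) := by
    intro g
    rw [Equiv.sum_comp eq.symm (fun x => W x * g x), Fintype.sum_sigma, mul_sum]
    refine sum_congr rfl fun i _ => ?_
    unfold avr
    rw [sum_div, mul_sum]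
    refine sum_congr rfl fun x _ => ?_
    change 1 / ((S : ℝ) * (Fintype.card (X i) : ℝ)) * g ⟨i, x⟩ = _
    have := hcard i
    field_simp
  refine ⟨Fintype.card ι, fun j => W (eq.symm j), fun j => N (eq.symm j), ?_, ?_, ?_, ?_⟩
  · intro j
    change 0 ≤ 1 / ((S : ℝ) * (Fintype.card (X (eq.symm j).1) : ℝ))
    positivity
  · have h1 := hsum (fun _ => 1)
    simp only [mul_one] at h1
    rw [h1]
    have h2 : ∀ i : Fin S, avr (fun _ : X i => (1 : ℝ)) = 1 := fun i => avr_const 1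
    simp only [h2, sum_const, card_univ, Fintype.card_fin, nsmul_eq_mul, mul_one]
    field_simp
  · intro j
    change 1 ≤ scn (1 * C ^ ((eq.symm j).1 : ℕ)) (J (eq.symm j).1) q Bq (eq.symm j).2
    unfold scn
    have h1 : 1 ≤ C ^ ((eq.symm j).1 : ℕ) := Nat.one_le_pow _ _ hC1
    have h2 := hJ (eq.symm j).1
    exact Nat.mul_pos (by omega) (by omega)
  · intro F hF
    have h1 := hsum (fun x => (F (N x)).re)
    rw [h1]
    have h2 : ∀ i : Fin S, avr (fun x : X i => (F (N ⟨i, x⟩)).re) =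
        (sc (1 * C ^ (i : ℕ)) (J i) q Bq F).re := by
      intro i
      unfold sc
      rw [avc_re]
    simp only [h2]
    have h3 : ∀ i : Fin S, -(2 * ε) - (if chnBad B q Bq ε 0 F (1 * C ^ (i : ℕ)) (J i) then 1 else 0) ≤
        (sc (1 * C ^ (i : ℕ)) (J i) q Bq F).re := by
      intro i
      split_ifs with hb
      · have h4 : ‖sc (1 * C ^ (i : ℕ)) (J i) q Bq F‖ ≤ 1 := by
          unfold sc
          exact avc_norm_le _ fun x => hbd 0 F hF _
        have h5 := Complex.abs_re_le_norm (sc (1 * C ^ (i : ℕ)) (J i) q Bq F)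
        have h6 := (abs_le.mp (h5.trans h4)).1
        linarith
      · unfold chnBad at hb
        push Not at hb
        simp only [Nat.cast_zero, zero_div, sub_zero] at hb
        linarith
    have h4 := sum_le_sum (fun i (_ : i ∈ (univ : Finset (Fin S))) => h3 i)
    rw [sum_sub_distrib] at h4
    have h5 : ∑ i : Fin S, (if chnBad B q Bq ε 0 F (1 * C ^ (i : ℕ)) (J i) then (1 : ℝ) else 0) ≤ B := by
      rw [Fin.sum_univ_eq_sum_range (fun i : ℕ =>
        if chnBad B q Bq ε 0 F (1 * C ^ i) (J i) then (1 : ℝ) else 0) S]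
      rw [← sum_filter, sum_const, nsmul_eq_mul, mul_one]
      have := hcnt 0 (Nat.zero_le _) F hF
      rw [add_zero] at this
      exact_mod_cast this
    rw [sum_const, card_univ, Fintype.card_fin, nsmul_eq_mul] at h4
    have h6 : (B : ℝ) ≤ S * ε := by
      have h7 : (B : ℝ) / ε ≤ S := by
        rw [hS]
        push_cast
        have := Nat.le_ceil ((B : ℝ) / ε)
        linarith
      rwa [div_le_iff₀ hε] at h7
    have h8 : -(3 * ε) * S ≤ ∑ i : Fin S, (sc (1 * C ^ (i : ℕ)) (J i) q Bq F).re := by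
      nlinarith
    rw [one_div, inv_mul_eq_div, le_div_iff₀ hεS]
    exact h8

end Pool.Agent.Lib.MP_90b327_co.LS
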