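import Mathlib
import Pool.Agent.Lib.MP_90b327_co.LS.Def

/-!
Module Err (45 min): the error of the replacement.

PROOF. `n = Q c t` with `c = s! H`; `n^D / s! = l * (H Q^D)` with the natural number `l = c^(D-1) t^D` (`D ≥ 1`), and `l ≤ n^D` (as `Q, c ≥ 1`).
`‖ee((n^D/s!) Σ_i b(u ∘ i)) - 1‖ ≤ Σ_i l ‖ee(H Q^D b(u ∘ i)) - 1‖` (`norm_ee_sum_sub_one`, `norm_ee_nat_mul_sub_one`). For an injection `i`
the map `u ↦ u ∘ i` sends the uniform distribution of `Fin n → V` to that of `Fin s → V` (all fibers have `|V|^(n-s)` elements; e.g. extend `i` to an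
equivalence `Fin n ≃ Fin s ⊕ rest`, `Equiv.piCongrLeft`, `Equiv.sumArrowEquivProdArrow`), so
`avr_u ‖ee(H Q^D b(u ∘ i)) - 1‖ = avr_x ‖ee(H Q^D b x) - 1‖ ≤ κ + 2 κ`. The number of injections is at most `n^s`.
If `n = 0` and `s ≥ 1` there is no injection, the left side is `0`; `n = 0`, `s = 0`: `0^D = 0` as `D ≥ 1`, left side `0`.
-/

set_option autoImplicit false

namespace Pool.Agent.Lib.MP_90b327_co.LS

open Finset Polynomial
open scoped BigOperators

open Classical in
private noncomputable def errEquiv {V : Type} {s n : ℕ} (i : Fin s ↪ Fin n) :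
    (Fin n → V) ≃ (Fin s → V) × ({x : Fin n // ¬ ∃ l, i l = x} → V) where
  toFun u := (fun l => u (i l), fun x => u x.1)
  invFun p := fun x => if h : ∃ l, i l = x then p.1 h.choose else p.2 ⟨x, h⟩
  left_inv u := by
    funext x
    by_cases h : ∃ l, i l = x
    · simp only [dif_pos h]
      rw [h.choose_spec]
    · simp only [dif_neg h]
  right_inv p := by
    apply Prod.ext
    · funext l
      have h : ∃ l', i l' = i l := ⟨l, rfl⟩
      simp only [dif_pos h]
      rw [i.injective h.choose_spec]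
    · funext x
      simp only [dif_neg x.2]

private lemma err_marg {V : Type} [Fintype V] [Nonempty V] {s n : ℕ} (i : Fin s ↪ Fin n)
    (g : (Fin s → V) → ℝ) : avr (fun u : Fin n → V => g (fun l => u (i l))) = avr g := by
  classical
  have h1 : avr (fun u : Fin n → V => g (fun l => u (i l))) =
      avr (fun p : (Fin s → V) × ({x : Fin n // ¬ ∃ l, i l = x} → V) => g p.1) :=
    avr_equiv (errEquiv i) (fun p : (Fin s → V) × ({x : Fin n // ¬ ∃ l, i l = x} → V) => g p.1)
  rw [h1, avr_prod (fun (x : Fin s → V) (_ : {x : Fin n // ¬ ∃ l, i l = x} → V) => g x)]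
  congr 1
  funext x
  exact avr_const _

private lemma err_avr {α : Type} [Fintype α] [Nonempty α] (f : α → ℝ) (κ : ℝ)
    (h2 : ∀ x, f x ≤ 2) (hκ : 0 < κ) (hb : 1 - κ ≤ pr (fun x => f x ≤ κ)) : avr f ≤ 3 * κ := by
  classical
  have h1 : pr (fun x => ¬ f x ≤ κ) ≤ κ := by
    rw [pr_compl]
    linarith
  have h3 : avr f ≤ avr (fun x => κ + 2 * (if ¬ f x ≤ κ then (1 : ℝ) else 0)) := by
    apply avr_mono
    intro x
    by_cases h : f x ≤ κ
    · rw [if_neg (not_not.mpr h)]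
      linarith
    · rw [if_pos h]
      have := h2 x
      linarith
  have h4 : avr (fun x => κ + 2 * (if ¬ f x ≤ κ then (1 : ℝ) else 0)) =
      κ + 2 * pr (fun x => ¬ f x ≤ κ) := by
    have h5 := avr_const (α := α) κ
    have h6 : pr (fun x => ¬ f x ≤ κ) = avr (fun x => if ¬ f x ≤ κ then (1 : ℝ) else 0) := by
      unfold pr
      congr 1
      funext x
      by_cases h : f x ≤ κ
      · rw [if_neg (not_not.mpr h), if_neg (not_not.mpr h)]
      · rw [if_pos h, if_pos h]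
    have h7 : avr (fun x => κ + 2 * (if ¬ f x ≤ κ then (1 : ℝ) else 0)) =
        avr (fun _ : α => κ) + 2 * avr (fun x => if ¬ f x ≤ κ then (1 : ℝ) else 0) := by
      unfold avr
      rw [sum_add_distrib, ← mul_sum]
      ring
    rw [h6, h7, h5]
  rw [h4] at h3
  linarith

theorem err {V : Type} [Fintype V] [Nonempty V] (s D H Q n : ℕ) (hD : 1 ≤ D) (hH : 1 ≤ H) (hQ : 1 ≤ Q)
    (hn : Q * (s.factorial * H) ∣ n) (b : (Fin s → V) → ℝ) (κ : ℝ) (hκ : 0 < κ)
    (hb : 1 - κ ≤ pr (fun x : Fin s → V => ‖ee (((H * Q ^ D : ℕ) : ℝ) * b x) - 1‖ ≤ κ)) :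
    avr (fun u : Fin n → V => ‖ee (((n : ℝ) ^ D / (s.factorial : ℝ)) *
      ∑ i : Fin s ↪ Fin n, b (fun l => u (i l))) - 1‖) ≤ 3 * κ * (n : ℝ) ^ (D + s) := by
  obtain ⟨t, ht⟩ := hn
  have hsf : 0 < s.factorial := Nat.factorial_pos s
  have hsfr : (0 : ℝ) < (s.factorial : ℝ) := by exact_mod_cast hsf
  set l : ℕ := (s.factorial * H) ^ (D - 1) * t ^ D with hl
  have hc1 : 1 ≤ s.factorial * H := Nat.one_le_iff_ne_zero.mpr (by positivity)
  have hD1 : D - 1 + 1 = D := by omega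
  have hmul : (n : ℝ) ^ D / (s.factorial : ℝ) = (l : ℝ) * ((H * Q ^ D : ℕ) : ℝ) := by
    rw [div_eq_iff hsfr.ne']
    have h1 : n ^ D = l * (H * Q ^ D) * s.factorial := by
      rw [ht, hl]
      calc (Q * (s.factorial * H) * t) ^ D = Q ^ D * (s.factorial * H) ^ D * t ^ D := by
            rw [mul_pow, mul_pow]
        _ = Q ^ D * ((s.factorial * H) ^ (D - 1) * (s.factorial * H)) * t ^ D := by
            rw [← pow_succ, hD1]
        _ = (s.factorial * H) ^ (D - 1) * t ^ D * (H * Q ^ D) * s.factorial := by ring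
    exact_mod_cast h1
  have hln : l ≤ n ^ D := by
    rw [ht, hl]
    calc (s.factorial * H) ^ (D - 1) * t ^ D ≤ (s.factorial * H) ^ D * t ^ D := by
          apply Nat.mul_le_mul_right
          exact Nat.pow_le_pow_right hc1 (by omega)
      _ ≤ Q ^ D * ((s.factorial * H) ^ D * t ^ D) := Nat.le_mul_of_pos_left _ (by positivity)
      _ = (Q * (s.factorial * H) * t) ^ D := by rw [mul_pow, mul_pow]; ring
  set f : (Fin s → V) → ℝ := fun x => ‖ee (((H * Q ^ D : ℕ) : ℝ) * b x) - 1‖ with hf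
  have hpt : ∀ u : Fin n → V, ‖ee (((n : ℝ) ^ D / (s.factorial : ℝ)) *
      ∑ i : Fin s ↪ Fin n, b (fun l => u (i l))) - 1‖ ≤
      ∑ i : Fin s ↪ Fin n, (l : ℝ) * f (fun l => u (i l)) := by
    intro u
    rw [hmul, mul_sum]
    refine (norm_ee_sum_sub_one _ _).trans (sum_le_sum fun i _ => ?_)
    rw [mul_assoc]
    exact norm_ee_nat_mul_sub_one l _
  have h1 : avr (fun u : Fin n → V => ∑ i : Fin s ↪ Fin n, (l : ℝ) * f (fun l => u (i l))) =
      ∑ i : Fin s ↪ Fin n, (l : ℝ) * avr (fun u : Fin n → V => f (fun l => u (i l))) := by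
    unfold avr
    rw [sum_comm, sum_div]
    refine sum_congr rfl fun i _ => ?_
    rw [← mul_sum]
    ring
  have h2 : ∀ i : Fin s ↪ Fin n, avr (fun u : Fin n → V => f (fun l => u (i l))) ≤ 3 * κ := by
    intro i
    rw [err_marg i f]
    exact err_avr f κ (fun x => norm_ee_sub_one_le_two _) hκ hb
  have hcard : Fintype.card (Fin s ↪ Fin n) ≤ n ^ s := by
    rw [Fintype.card_embedding_eq, Fintype.card_fin, Fintype.card_fin]
    exact Nat.descFactorial_le_pow n s
  calc avr (fun u : Fin n → V => ‖ee (((n : ℝ) ^ D / (s.factorial : ℝ)) *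
      ∑ i : Fin s ↪ Fin n, b (fun l => u (i l))) - 1‖)
      ≤ avr (fun u : Fin n → V => ∑ i : Fin s ↪ Fin n, (l : ℝ) * f (fun l => u (i l))) :=
        avr_mono _ _ hpt
    _ = ∑ i : Fin s ↪ Fin n, (l : ℝ) * avr (fun u : Fin n → V => f (fun l => u (i l))) := h1
    _ ≤ ∑ _i : Fin s ↪ Fin n, (n : ℝ) ^ D * (3 * κ) := by
        refine sum_le_sum fun i _ => ?_
        have h3 : (l : ℝ) ≤ (n : ℝ) ^ D := by exact_mod_cast hln
        exact mul_le_mul h3 (h2 i) (avr_nonneg _ fun u => norm_nonneg _) (by positivity)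
    _ = (Fintype.card (Fin s ↪ Fin n) : ℝ) * ((n : ℝ) ^ D * (3 * κ)) := by
        rw [sum_const, card_univ, nsmul_eq_mul]
    _ ≤ (n : ℝ) ^ s * ((n : ℝ) ^ D * (3 * κ)) := by
        apply mul_le_mul_of_nonneg_right _ (by positivity)
        exact_mod_cast hcard
    _ = 3 * κ * (n : ℝ) ^ (D + s) := by rw [pow_add]; ring

end Pool.Agent.Lib.MP_90b327_co.LS
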