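import Mathlib
import Pool.Agent.Lib.MP_90b327_co.LS.Def

/-!
Module Gcs (60 min): Gowers-Cauchy-Schwarz for phases.

PROOF. Induction on `s`, for all `W` finite non-empty, all `F`, `R`.
`s = 0`: `Fin 0 → W` has one point, `box F x x' = F x`, `sgn = 1`; the left hand side is `‖ee(F)‖^1 = 1`
and the right hand side is ... careful: `(avc ee(F)).re` need not be `1`. So for `s = 0` the statement
would be FALSE (`‖ee F‖ = 1`, right side `cos(2 pi F)`); this is why the theorem is stated for `s + 1`.
For `s + 1` the proof is by induction on `s` with base case `s = 0` (one variable):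
`‖avc_x ee(F x + R x)‖^2`, `R` constant (it does not depend on the only coordinate):
`= ‖avc_x ee(F x)‖^2 = avc_{x,x'} ee(F x - F x')` (a real number).
Step: separate the last variable (`Fin.snocEquiv`, `Fin.consEquiv` or `Fin.insertNthEquiv`; it may be
easier to separate the variable `0` with `Fin.consEquiv` / `Fin.cons`):
`‖avc_x ee(F x + Σ R)‖^2 ≤ avr_y ‖avc_v ee(F (v,y) + Σ_{l ≠ 0} R_l (v,y))‖^2` (Cauchy-Schwarz, the factor `ee(R_0)` has
modulus 1 and does not depend on `v`) `= Re avc_{v,v'} avc_y ee(F (v,y) - F (v',y) + Σ_{l ≠ 0} (R_l (v,y) - R_l (v',y)))`.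
Hence with `a(v,v') = ‖avc_y (...)‖`, `‖..‖^(2^(s+2)) = (‖..‖^2)^(2^(s+1)) ≤ (avr a)^(2^(s+1)) ≤ avr a^(2^(s+1))` (`avr_pow_le`)
and the induction hypothesis for `y ↦ F (v,y) - F (v',y)` bounds `a(v,v')^(2^(s+1))` by
`(avc_{y,y'} ee(box (F(v,.) - F(v',.)) y y')).re`; finally `box F (v,y) (v',y') = box (F(v,.) - F(v',.)) y y'`
(split `ω : Fin (s+2) → Bool` by `ω 0`, `sgn` is multiplicative).
-/

set_option autoImplicit false

namespace Pool.Agent.Lib.MP_90b327_co.LS

open Finset Polynomial
open scoped BigOperators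

/-- the first variable is separated -/
private def gcsE (s : ℕ) (W : Type) : W × (Fin s → W) ≃ (Fin (s + 1) → W) where
  toFun p := Fin.cons p.1 p.2
  invFun x := (x 0, Fin.tail x)
  left_inv p := by simp
  right_inv x := by simp

private lemma gcs_sq {α : Type} [Fintype α] (f : α → ℝ) :
    ‖avc (fun x => ee (f x))‖ ^ 2 = (avc (fun p : α × α => ee (f p.1 - f p.2))).re := by
  have h1 : (((‖avc (fun x => ee (f x))‖ ^ 2 : ℝ)) : ℂ) = avc (fun p : α × α => ee (f p.1 - f p.2)) := by
    rw [← Complex.normSq_eq_norm_sq, ← Complex.mul_conj]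
    unfold avc
    rw [map_div₀, map_sum, map_natCast, Fintype.card_prod, Nat.cast_mul, div_mul_div_comm,
      Finset.sum_mul_sum, Fintype.sum_prod_type]
    congr 1
    refine Finset.sum_congr rfl fun x _ => Finset.sum_congr rfl fun y _ => (ee_sub _ _).symm
  rw [← h1, Complex.ofReal_re]

private lemma gcs_factor {α : Type} [Fintype α] (f : α → ℝ) (r : ℝ) :
    ‖avc (fun x => ee (f x + r))‖ = ‖avc (fun x => ee (f x))‖ := by
  have h : avc (fun x => ee (f x + r)) = avc (fun x => ee (f x)) * ee r := by
    unfold avc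
    simp_rw [ee_add]
    rw [← Finset.sum_mul]
    ring
  rw [h, norm_mul, norm_ee, mul_one]

private lemma gcs_cs {α : Type} [Fintype α] [Nonempty α] (f : α → ℂ) (k : ℕ) :
    ‖avc f‖ ^ k ≤ avr (fun x => ‖f x‖ ^ k) :=
  (pow_le_pow_left₀ (norm_nonneg _) (avc_norm_le_avr f) k).trans
    (avr_pow_le _ (fun _ => norm_nonneg _) k)

private lemma box_cons {s : ℕ} {W : Type} (F : (Fin (s + 1) → W) → ℝ) (v v' : W) (y y' : Fin s → W) :
    box F (gcsE s W (v, y)) (gcsE s W (v', y')) =
      box (fun z => F (gcsE s W (v, z)) - F (gcsE s W (v', z))) y y' := by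
  unfold box
  rw [← Equiv.sum_comp (gcsE s Bool), Fintype.sum_prod_type, Fintype.sum_bool,
    ← Finset.sum_add_distrib]
  refine Finset.sum_congr rfl fun ω _ => ?_
  have h1 : ∀ b : Bool, sgn (gcsE s Bool (b, ω)) = (if b then (-1 : ℝ) else 1) * sgn ω := by
    intro b
    unfold sgn
    rw [Fin.prod_univ_succ]
    rfl
  have h2 : ∀ b : Bool, pick (gcsE s Bool (b, ω)) (gcsE s W (v, y)) (gcsE s W (v', y')) =
      gcsE s W (if b then v' else v, pick ω y y') := by
    intro b
    funext i
    refine Fin.cases ?_ (fun j => ?_) i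
    · rfl
    · rfl
  rw [h1, h1, h2, h2]
  simp only [if_true, Bool.false_eq_true, if_false]
  ring

theorem gcs (s : ℕ) {W : Type} [Fintype W] [Nonempty W] (F : (Fin (s + 1) → W) → ℝ)
    (R : Fin (s + 1) → (Fin (s + 1) → W) → ℝ)
    (hR : ∀ l x v, R l (Function.update x l v) = R l x) :
    ‖avc (fun x : Fin (s + 1) → W => ee (F x + ∑ l, R l x))‖ ^ (2 ^ (s + 1)) ≤
      (avc (fun p : (Fin (s + 1) → W) × (Fin (s + 1) → W) => ee (box F p.1 p.2))).re := by
  induction s with
  | zero =>
    obtain ⟨w0⟩ : Nonempty W := inferInstance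
    set x0 : Fin (0 + 1) → W := fun _ => w0 with hx0
    have hconst : ∀ x, R 0 x = R 0 x0 := by
      intro x
      have h : x = Function.update x0 0 (x 0) := by
        funext i
        have hi : i = 0 := Subsingleton.elim (α := Fin 1) i 0
        rw [hi, Function.update_self]
      rw [h, hR]
    have h1 : (fun x : Fin (0 + 1) → W => ee (F x + ∑ l, R l x)) = fun x => ee (F x + R 0 x0) := by
      funext x
      rw [Fin.sum_univ_succ, Fin.sum_univ_zero, add_zero, hconst]
    rw [h1, gcs_factor]
    have h2 : (2 : ℕ) ^ (0 + 1) = 2 := by norm_num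
    rw [h2, gcs_sq]
    refine le_of_eq ?_
    congr 2
    funext p
    congr 1
    unfold box
    rw [← Equiv.sum_comp (gcsE 0 Bool), Fintype.sum_prod_type, Fintype.sum_bool]
    have h3 : ∀ b : Bool, ∑ ω : Fin 0 → Bool, sgn (gcsE 0 Bool (b, ω)) *
        F (pick (gcsE 0 Bool (b, ω)) p.1 p.2) = (if b then (-1 : ℝ) else 1) * F (if b then p.2 else p.1) := by
      intro b
      rw [Fintype.sum_unique]
      congr 1
      · unfold sgn
        rw [Fin.prod_univ_succ, Fin.prod_univ_zero, mul_one]
        rfl
      · congr 1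
        funext i
        have hi : i = 0 := Subsingleton.elim (α := Fin 1) i 0
        rw [hi]
        cases b <;> rfl
    rw [h3, h3]
    simp only [if_true, Bool.false_eq_true, if_false]
    ring
  | succ s ih =>
    -- separate the variable `0`
    set e := gcsE (s + 1) W with he
    set G : W → (Fin (s + 1) → W) → ℝ := fun v y => F (e (v, y)) + ∑ l : Fin (s + 1), R l.succ (e (v, y)) with hG
    obtain ⟨w0⟩ : Nonempty W := inferInstance
    have hR0 : ∀ v y, R 0 (e (v, y)) = R 0 (e (w0, y)) := by
      intro v y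
      have h : e (w0, y) = Function.update (e (v, y)) 0 w0 := by
        rw [he]
        change (Fin.cons (α := fun _ => W) w0 y) = Function.update (Fin.cons (α := fun _ => W) v y) 0 w0
        rw [Fin.update_cons_zero]
      rw [h, hR]
    have h1 : avc (fun x : Fin (s + 1 + 1) → W => ee (F x + ∑ l, R l x)) =
        avc (fun y => avc (fun v => ee (G v y + R 0 (e (w0, y))))) := by
      rw [← avc_equiv e, ← avc_comm, ← avc_prod]
      congr 1
      funext p
      obtain ⟨v, y⟩ := p
      rw [Fin.sum_univ_succ, hR0]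
      congr 1
      simp only [hG]
      ring
    have h2 : ‖avc (fun x : Fin (s + 1 + 1) → W => ee (F x + ∑ l, R l x))‖ ^ 2 ≤
        avr (fun q : W × W => ‖avc (fun y => ee ((F (e (q.1, y)) - F (e (q.2, y))) +
          ∑ l : Fin (s + 1), (R l.succ (e (q.1, y)) - R l.succ (e (q.2, y)))))‖) := by
      rw [h1]
      refine (gcs_cs _ 2).trans ?_
      have h3 : (fun y => ‖avc (fun v => ee (G v y + R 0 (e (w0, y))))‖ ^ 2) =
          fun y => (avc (fun q : W × W => ee (G q.1 y - G q.2 y))).re := by
        funext y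
        rw [gcs_factor, gcs_sq]
      rw [h3, ← avc_re (fun y => avc (fun q : W × W => ee (G q.1 y - G q.2 y))), avc_comm]
      refine (Complex.re_le_norm _).trans ?_
      refine (avc_norm_le_avr _).trans (le_of_eq ?_)
      congr 1
      funext q
      congr 2
      funext y
      congr 1
      simp only [hG]
      rw [Finset.sum_sub_distrib]
      ring
    have h4 : (2 : ℕ) ^ (s + 1 + 1) = 2 * 2 ^ (s + 1) := by ring
    rw [h4, pow_mul]
    refine (pow_le_pow_left₀ (by positivity) h2 _).trans ?_
    refine (avr_pow_le _ (fun _ => norm_nonneg _) _).trans ?_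
    have h5 : ∀ q : W × W, ‖avc (fun y => ee ((F (e (q.1, y)) - F (e (q.2, y))) +
          ∑ l : Fin (s + 1), (R l.succ (e (q.1, y)) - R l.succ (e (q.2, y)))))‖ ^ 2 ^ (s + 1) ≤
        (avc (fun p : (Fin (s + 1) → W) × (Fin (s + 1) → W) =>
          ee (box F (e (q.1, p.1)) (e (q.2, p.2))))).re := by
      intro q
      refine (ih (fun y => F (e (q.1, y)) - F (e (q.2, y)))
        (fun l y => R l.succ (e (q.1, y)) - R l.succ (e (q.2, y))) ?_).trans (le_of_eq ?_)
      · intro l y v
        have h6 : ∀ w : W, e (w, Function.update y l v) = Function.update (e (w, y)) l.succ v := by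
          intro w
          rw [he]
          change (Fin.cons (α := fun _ => W) w (Function.update y l v)) =
            Function.update (Fin.cons (α := fun _ => W) w y) l.succ v
          rw [Fin.cons_update]
        simp only [h6, hR]
      · congr 2
        funext p
        rw [he, box_cons]
    refine (avr_mono _ _ h5).trans (le_of_eq ?_)
    rw [← avc_re (fun q : W × W => avc (fun p : (Fin (s + 1) → W) × (Fin (s + 1) → W) =>
          ee (box F (e (q.1, p.1)) (e (q.2, p.2))))), ← avc_prod]
    congr 1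
    rw [← avc_equiv ((Equiv.prodProdProdComm W W (Fin (s + 1) → W) (Fin (s + 1) → W)).trans
      (Equiv.prodCongr e e))]
    rfl

end Pool.Agent.Lib.MP_90b327_co.LS
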