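import Mathlib
import Pool.Agent.Lib.MP_90b327_co.LS.Gcs

/-!
Module Grp (75 min): splitting the vertices into `s` groups of size `m` and the rest, then Gowers-Cauchy-Schwarz.

PROOF. `n = s' m + r` with `s' = s + 1`. Let `ι := (Fin s' × Fin m) ⊕ Fin r` (card `n`); by `Ph`-invariance under an equivalence
`Fin n ≃ ι` (`Finset.sum` over `Finset.map`, `Multiset.map_map`) `ph K n = avc_{u : ι → V} ee(Ph K u)`, and `u = (x, ρ)`,
`x : Fin s' → Fin m → V`, `ρ : Fin r → V`.
For `B : Finset ι` either (1) some group `l` is not hit by `B` (no `(l,i) ∈ B`), or (2) all groups are hit; if `B.card > s'` then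
`K (..) = 0` by `hK`; so in case (2) with `K ≠ 0` we have `B.card = s'` and `B = {(l, r_l)}` for a unique `r : Fin s' → Fin m`
(the multiset is then `ms (fun l => x l (r l))`).
So `Ph K (x,ρ) = Σ_{r : Fin s' → Fin m} (K (ms (fun l => x l (r l)))).eval n + Σ_l R_l(x,ρ)`, where `R_l` is the sum over the `B` of
case (1) whose least missed group is `l` (it does not depend on `x l`).
For fixed `ρ` apply `gcs s` with `W := Fin m → V`, `F x := Σ_r (K ..).eval n`. Then average over `ρ`: Jensen (`avr_pow_le`). Finally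
`box F x x' = Σ_r box (fun y => (K (ms y)).eval n) (fun l => x l (r l)) (fun l => x' l (r l))` (exchange the sums;
`pick ω x x' l (r l) = pick ω (x · (r ·)) (x' · (r ·)) l`). If `m = 0` or `V` ... : `V` is non-empty, `Fin m → V` is non-empty. For `m = 0` there is no
`r` and the right side is `1`.
-/

set_option autoImplicit false

namespace Pool.Agent.Lib.MP_90b327_co.LS

open Finset Polynomial
open scoped BigOperators

private lemma grp_Ph_equiv {V α β : Type} [Fintype α] [Fintype β] (e : α ≃ β)
    (K : Multiset V → ℝ[X]) (u : β → V) : Ph K (fun x => u (e x)) = Ph K u := by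
  unfold Ph
  rw [← Equiv.sum_comp (Equiv.finsetCongr e) (fun B : Finset β => (K (B.val.map u)).eval (Fintype.card β : ℝ))]
  apply Finset.sum_congr rfl
  intro B _
  rw [Fintype.card_congr e]
  congr 2
  rw [Equiv.finsetCongr_apply, Finset.map_val, Multiset.map_map]
  rfl

private def grp_join {V : Type} {s m r : ℕ} (x : Fin s → Fin m → V) (ρ : Fin r → V) :
    (Fin s × Fin m) ⊕ Fin r → V := Sum.elim (fun p => x p.1 p.2) ρ

private def grp_hit {s m r : ℕ} (B : Finset ((Fin s × Fin m) ⊕ Fin r)) (l : Fin s) : Prop :=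
  ∃ i, Sum.inl (l, i) ∈ B

private def grp_B {s m : ℕ} (k : ℕ) (r : Fin s → Fin m) : Finset ((Fin s × Fin m) ⊕ Fin k) :=
  (univ : Finset (Fin s)).map ⟨fun l => Sum.inl (l, r l), fun a b h => by
    have h1 := Sum.inl_injective h
    exact (Prod.ext_iff.mp h1).1⟩

private lemma grp_mem_B {s m k : ℕ} (r : Fin s → Fin m) (l : Fin s) (i : Fin m) :
    Sum.inl (l, i) ∈ grp_B k r ↔ i = r l := by
  unfold grp_B
  rw [Finset.mem_map]
  constructor
  · rintro ⟨l', _, h⟩
    have h1 := Sum.inl_injective h
    rw [Prod.ext_iff] at h1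
    obtain ⟨h2, h3⟩ := h1
    simp only at h2 h3
    subst h2
    exact h3.symm
  · intro h
    exact ⟨l, Finset.mem_univ _, by rw [h]; rfl⟩

private lemma grp_decomp {V : Type} (s m k n : ℕ)
    (K : Multiset V → ℝ[X]) (hK : ∀ M, s + 1 < Multiset.card M → K M = 0) (ρ : Fin k → V) :
    ∃ R : Fin (s + 1) → (Fin (s + 1) → Fin m → V) → ℝ,
      (∀ l x v, R l (Function.update x l v) = R l x) ∧
      ∀ x, ∑ B : Finset ((Fin (s + 1) × Fin m) ⊕ Fin k),
        (K (B.val.map (grp_join x ρ))).eval (n : ℝ) =
        (∑ r : Fin (s + 1) → Fin m, (K (ms (fun l => x l (r l)))).eval (n : ℝ)) + ∑ l, R l x := by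
  classical
  let ml : Finset ((Fin (s + 1) × Fin m) ⊕ Fin k) → Fin (s + 1) := fun B =>
    if h : ∃ l, ¬ grp_hit B l then Classical.choose h else 0
  have hml : ∀ B, (¬ ∀ l, grp_hit B l) → ¬ grp_hit B (ml B) := by
    intro B h
    have h1 : ∃ l, ¬ grp_hit B l := not_forall.mp h
    have h2 : ml B = Classical.choose h1 := dif_pos h1
    rw [h2]
    exact Classical.choose_spec h1
  refine ⟨fun l x => ∑ B ∈ ((univ : Finset (Finset ((Fin (s + 1) × Fin m) ⊕ Fin k))).filter
    (fun B => ¬ ∀ l, grp_hit B l)).filter (fun B => ml B = l),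
      (K (B.val.map (grp_join x ρ))).eval (n : ℝ), ?_, ?_⟩
  · intro l x v
    apply Finset.sum_congr rfl
    intro B hB
    rw [Finset.mem_filter, Finset.mem_filter] at hB
    have h1 := hml B hB.1.2
    rw [hB.2] at h1
    congr 2
    apply Multiset.map_congr rfl
    intro p hp
    rcases p with ⟨l', i⟩ | j
    · have hne : l' ≠ l := by
        rintro rfl
        exact h1 ⟨i, hp⟩
      unfold grp_join
      simp only [Sum.elim_inl]
      rw [Function.update_of_ne hne]
    · rfl
  · intro x
    rw [← Finset.sum_filter_add_sum_filter_not (univ : Finset (Finset ((Fin (s + 1) × Fin m) ⊕ Fin k)))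
      (fun B => ∀ l, grp_hit B l)]
    congr 1
    · -- the full part
      have himg : ∑ r : Fin (s + 1) → Fin m, (K (ms (fun l => x l (r l)))).eval (n : ℝ) =
          ∑ B ∈ (univ : Finset (Fin (s + 1) → Fin m)).image (grp_B k),
            (K (B.val.map (grp_join x ρ))).eval (n : ℝ) := by
        rw [Finset.sum_image]
        · apply Finset.sum_congr rfl
          intro r _
          congr 2
          unfold grp_B ms
          rw [Finset.map_val, Multiset.map_map]
          rfl
        · intro r _ r' _ h
          funext l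
          have h1 : Sum.inl (l, r l) ∈ grp_B k r := (grp_mem_B r l (r l)).mpr rfl
          rw [h] at h1
          exact (grp_mem_B r' l (r l)).mp h1
      rw [himg]
      symm
      apply Finset.sum_subset
      · intro B hB
        rw [Finset.mem_image] at hB
        obtain ⟨r, _, rfl⟩ := hB
        rw [Finset.mem_filter]
        refine ⟨Finset.mem_univ _, ?_⟩
        intro l
        exact ⟨r l, (grp_mem_B r l (r l)).mpr rfl⟩
      · intro B hB hB'
        rw [Finset.mem_filter] at hB
        have hfull := hB.2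
        choose r hr using hfull
        have hsub : grp_B k r ⊆ B := by
          intro p hp
          unfold grp_B at hp
          rw [Finset.mem_map] at hp
          obtain ⟨l, _, rfl⟩ := hp
          exact hr l
        have hcard : (grp_B k r).card = s + 1 := by
          unfold grp_B
          rw [Finset.card_map, Finset.card_univ, Fintype.card_fin]
        by_cases hc : B.card ≤ s + 1
        · exfalso
          apply hB'
          rw [Finset.mem_image]
          refine ⟨r, Finset.mem_univ _, ?_⟩
          exact Finset.eq_of_subset_of_card_le hsub (by rw [hcard]; exact hc)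
        · rw [hK _ (by rw [Multiset.card_map]; exact not_le.mp hc)]
          simp
    · exact (Finset.sum_fiberwise _ ml _).symm

private lemma grp_box {V : Type} (s m n : ℕ) (K : Multiset V → ℝ[X])
    (x x' : Fin (s + 1) → Fin m → V) :
    box (fun y : Fin (s + 1) → Fin m → V =>
      ∑ r : Fin (s + 1) → Fin m, (K (ms (fun l => y l (r l)))).eval (n : ℝ)) x x' =
    ∑ r : Fin (s + 1) → Fin m,
      box (fun y : Fin (s + 1) → V => (K (ms y)).eval (n : ℝ))
        (fun l => x l (r l)) (fun l => x' l (r l)) := by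
  unfold box
  rw [Finset.sum_comm]
  apply Finset.sum_congr rfl
  intro ω _
  rw [Finset.mul_sum]
  apply Finset.sum_congr rfl
  intro r _
  congr 4
  funext l
  unfold pick
  split_ifs <;> rfl

theorem grp {V : Type} [Fintype V] [Nonempty V] (s m n : ℕ) (hn : (s + 1) * m ≤ n)
    (K : Multiset V → ℝ[X]) (hK : ∀ M, s + 1 < Multiset.card M → K M = 0) :
    ‖ph K n‖ ^ (2 ^ (s + 1)) ≤
      (avc (fun p : (Fin (s + 1) → Fin m → V) × (Fin (s + 1) → Fin m → V) =>
        ee (∑ r : Fin (s + 1) → Fin m,
          box (fun y : Fin (s + 1) → V => (K (ms y)).eval (n : ℝ))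
            (fun l => p.1 l (r l)) (fun l => p.2 l (r l))))).re := by
  classical
  obtain ⟨k, hk⟩ := Nat.exists_eq_add_of_le hn
  have hcard : Fintype.card ((Fin (s + 1) × Fin m) ⊕ Fin k) = n := by
    rw [Fintype.card_sum, Fintype.card_prod, Fintype.card_fin, Fintype.card_fin, Fintype.card_fin, hk]
  let e : Fin n ≃ (Fin (s + 1) × Fin m) ⊕ Fin k :=
    (Fintype.equivFinOfCardEq hcard).symm
  -- the space of maps
  let E : ((Fin k → V) × (Fin (s + 1) → Fin m → V)) ≃ (Fin n → V) :=
    { toFun := fun p => fun i => grp_join p.2 p.1 (e i)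
      invFun := fun u => (fun j => u (e.symm (Sum.inr j)), fun l i => u (e.symm (Sum.inl (l, i))))
      left_inv := by
        intro p
        ext
        · simp [grp_join]
        · simp [grp_join]
      right_inv := by
        intro u
        funext i
        have h : ∀ q, grp_join (fun l i => u (e.symm (Sum.inl (l, i))))
            (fun j => u (e.symm (Sum.inr j))) q = u (e.symm q) := by
          intro q
          rcases q with ⟨l, i⟩ | j <;> rfl
        show grp_join (fun l i => u (e.symm (Sum.inl (l, i))))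
            (fun j => u (e.symm (Sum.inr j))) (e i) = u i
        rw [h, Equiv.symm_apply_apply] }
  have hE : ∀ p, E p = fun i => grp_join p.2 p.1 (e i) := fun p => rfl
  have h1 : ph K n = avc (fun ρ : Fin k → V => avc (fun x : Fin (s + 1) → Fin m → V =>
      ee (Ph K (grp_join x ρ)))) := by
    unfold ph
    rw [← avc_prod (fun (ρ : Fin k → V) (x : Fin (s + 1) → Fin m → V) => ee (Ph K (grp_join x ρ))),
      ← avc_equiv E (fun u : Fin n → V => ee (Ph K u))]
    congr 1
    funext p
    rw [hE p]
    congr 1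
    exact grp_Ph_equiv e K (grp_join p.2 p.1)
  have h2 : ∀ ρ : Fin k → V, ‖avc (fun x : Fin (s + 1) → Fin m → V =>
      ee (Ph K (grp_join x ρ)))‖ ^ (2 ^ (s + 1)) ≤
      (avc (fun p : (Fin (s + 1) → Fin m → V) × (Fin (s + 1) → Fin m → V) =>
        ee (∑ r : Fin (s + 1) → Fin m,
          box (fun y : Fin (s + 1) → V => (K (ms y)).eval (n : ℝ))
            (fun l => p.1 l (r l)) (fun l => p.2 l (r l))))).re := by
    intro ρ
    obtain ⟨R, hR, hdec⟩ := grp_decomp s m k n K hK ρ
    have h3 := gcs s (W := Fin m → V) (fun y : Fin (s + 1) → Fin m → V =>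
      ∑ r : Fin (s + 1) → Fin m, (K (ms (fun l => y l (r l)))).eval (n : ℝ)) R hR
    have h4 : (fun x : Fin (s + 1) → Fin m → V => ee (Ph K (grp_join x ρ))) =
        fun x => ee ((∑ r : Fin (s + 1) → Fin m, (K (ms (fun l => x l (r l)))).eval (n : ℝ)) +
          ∑ l, R l x) := by
      funext x
      rw [← hdec x]
      unfold Ph
      rw [hcard]
    rw [h4]
    refine h3.trans (le_of_eq ?_)
    congr 2
    funext p
    rw [grp_box]
  rw [h1]
  calc ‖avc (fun ρ : Fin k → V => avc (fun x : Fin (s + 1) → Fin m → V =>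
      ee (Ph K (grp_join x ρ))))‖ ^ (2 ^ (s + 1))
      ≤ (avr (fun ρ : Fin k → V => ‖avc (fun x : Fin (s + 1) → Fin m → V =>
          ee (Ph K (grp_join x ρ)))‖)) ^ (2 ^ (s + 1)) :=
        pow_le_pow_left₀ (norm_nonneg _) (avc_norm_le_avr _) _
    _ ≤ avr (fun ρ : Fin k → V => ‖avc (fun x : Fin (s + 1) → Fin m → V =>
          ee (Ph K (grp_join x ρ)))‖ ^ (2 ^ (s + 1))) := avr_pow_le _ (fun _ => norm_nonneg _) _
    _ ≤ avr (fun _ : Fin k → V => (avc (fun p : (Fin (s + 1) → Fin m → V) × (Fin (s + 1) → Fin m → V) =>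
        ee (∑ r : Fin (s + 1) → Fin m,
          box (fun y : Fin (s + 1) → V => (K (ms y)).eval (n : ℝ))
            (fun l => p.1 l (r l)) (fun l => p.2 l (r l))))).re) := avr_mono _ _ h2
    _ = _ := avr_const _

end Pool.Agent.Lib.MP_90b327_co.LS
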