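import Mathlib
import Pool.Agent.Lib.MP_90b327_co.LS.Def

/-!
Module MOne (45 min): anti-concentration, one variable.

PROOF. WLOG `η ≤ 1` (probabilities are at most 1; if `η > 1` the hypothesis is never true). `Kc := ⌈16/η⌉₊`, `τ := 1/(2 Kc)`,
`H := 2 * Kc!`. For `κ` put `κ' := κ^3 / (8 H^2)`-like small and `m0` so large that `(η/8) > (1 - κ')^m` for `m ≥ m0`.
Let `Z(w) = ee(Σ g(w_i))`. On the event `‖Z - 1‖ ≤ τ`: `‖Z^k - 1‖ ≤ k τ ≤ 1/2` for `k < Kc`, so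
`‖(1/Kc) Σ_{k<Kc} Z^k‖ ≥ 1/2`. Hence `avr ‖(1/Kc) Σ_k Z^k‖^2 ≥ η/4`, and
`avr ‖(1/Kc) Σ_k Z^k‖^2 = (1/Kc^2) Σ_{k,k'} Re avc Z^(k-k')`, `avc_w ee(h Σ g(w_i)) = (avc_w ee(h g w))^m` (product structure:
`ee_sum`, `Finset.prod_univ_sum` / `Fintype.piFinset`, or induction on `m`), and `avc ee(h g)` is the real number
`ρ_h = avr cos(2π h g)` (use `σ`: `avc_equiv`). The terms `k = k'` contribute `1/Kc ≤ η/16`, so for some `0 < h < Kc`
(`h = |k - k'|`) `|ρ_h|^m ≥ η/8`, so `|ρ_h| ≥ 1 - κ'`. Then `avr cos(2π 2h g) = avr (2 cos^2 - 1) ≥ 2 ρ_h^2 - 1 ≥ 1 - 4 κ'`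
(Jensen). `‖ee x - 1‖^2 = 2 - 2 cos(2πx)`, so `avr ‖ee(2h g) - 1‖^2 ≤ 8 κ'`; `H = (2h) l`, `l ≤ Kc!`, so
`avr ‖ee(H g) - 1‖^2 ≤ 8 κ' l^2`; Markov (`pr_markov`, `pr_compl`).
-/

set_option autoImplicit false

namespace Pool.Agent.Lib.MP_90b327_co.LS

open Finset Polynomial
open scoped BigOperators

private lemma mone_avc_sum {α ι : Type} [Fintype α] (s : Finset ι) (f : ι → α → ℂ) :
    avc (fun x => ∑ i ∈ s, f i x) = ∑ i ∈ s, avc (f i) := by
  unfold avc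
  rw [Finset.sum_comm, Finset.sum_div]

private lemma mone_avc_conj {α : Type} [Fintype α] (f : α → ℂ) :
    (starRingEnd ℂ) (avc f) = avc (fun x => (starRingEnd ℂ) (f x)) := by
  unfold avc
  rw [map_div₀, map_sum, Complex.conj_natCast]

private lemma mone_avc_pow {W : Type} [Fintype W] (m : ℕ) (f : W → ℂ) :
    avc (fun w : Fin m → W => ∏ i, f (w i)) = (avc f) ^ m := by
  unfold avc
  rw [div_pow, Fintype.sum_pow]
  congr 1
  rw [Fintype.card_fun, Fintype.card_fin]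
  push_cast
  rfl

private noncomputable def mone_rho {W : Type} [Fintype W] (g : W → ℝ) (t : ℝ) : ℝ :=
  avr (fun w => Real.cos (2 * Real.pi * (t * g w)))

private lemma mone_rho_zero {W : Type} [Fintype W] [Nonempty W] (g : W → ℝ) : mone_rho g 0 = 1 := by
  unfold mone_rho
  simp [avr_const]

private lemma mone_rho_neg {W : Type} [Fintype W] (g : W → ℝ) (t : ℝ) : mone_rho g (-t) = mone_rho g t := by
  unfold mone_rho
  congr 1
  funext w
  rw [← Real.cos_neg]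
  congr 1
  ring

private lemma mone_real {W : Type} [Fintype W] (σ : W ≃ W) (g : W → ℝ) (hg : ∀ w, g (σ w) = -g w)
    (t : ℝ) : avc (fun w => ee (t * g w)) = ((mone_rho g t : ℝ) : ℂ) := by
  have h1 : (starRingEnd ℂ) (avc (fun w => ee (t * g w))) = avc (fun w => ee (t * g w)) := by
    rw [mone_avc_conj, ← avc_equiv σ (fun w => ee (t * g w))]
    congr 1
    funext w
    rw [← ee_neg, hg]
    congr 1
    ring
  rw [Complex.conj_eq_iff_re] at h1
  rw [← h1]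
  congr 1
  rw [avc_re]
  unfold mone_rho
  congr 1
  funext w
  rw [ee_re]

private lemma mone_m {W : Type} [Fintype W] (σ : W ≃ W) (g : W → ℝ) (hg : ∀ w, g (σ w) = -g w)
    (t : ℝ) (m : ℕ) : (avc (fun w : Fin m → W => ee (t * ∑ i, g (w i)))).re = mone_rho g t ^ m := by
  have h1 : (fun w : Fin m → W => ee (t * ∑ i, g (w i))) = fun w => ∏ i, (fun x => ee (t * g x)) (w i) := by
    funext w
    rw [Finset.mul_sum, ee_sum]
  rw [h1, mone_avc_pow m (fun x => ee (t * g x)), mone_real σ g hg, ← Complex.ofReal_pow, Complex.ofReal_re]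

private lemma mone_main {W : Type} [Fintype W] [Nonempty W] (σ : W ≃ W) (g : W → ℝ)
    (hg : ∀ w, g (σ w) = -g w) (m Kc : ℕ) (hKc : 1 ≤ Kc) (η : ℝ)
    (h : η ≤ pr (fun w : Fin m → W => ‖ee (∑ i, g (w i)) - 1‖ ≤ 1 / (2 * Kc))) :
    (Kc : ℝ) ^ 2 / 4 * η ≤
      ∑ k ∈ Finset.range Kc, ∑ k' ∈ Finset.range Kc, mone_rho g ((k : ℝ) - k') ^ m := by
  classical
  have hK0 : (0 : ℝ) < Kc := by exact_mod_cast hKc
  let S : (Fin m → W) → ℂ := fun w => ∑ k ∈ Finset.range Kc, ee ((k : ℝ) * ∑ i, g (w i))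
  have hS1 : ∀ w, ‖ee (∑ i, g (w i)) - 1‖ ≤ 1 / (2 * Kc) → (Kc : ℝ) ^ 2 / 4 ≤ ‖S w‖ ^ 2 := by
    intro w hw
    have h1 : ‖S w - Kc‖ ≤ Kc / 2 := by
      have h2 : S w - Kc = ∑ k ∈ Finset.range Kc, (ee ((k : ℝ) * ∑ i, g (w i)) - 1) := by
        rw [Finset.sum_sub_distrib]
        simp [S]
      rw [h2]
      refine (norm_sum_le _ _).trans ?_
      calc ∑ k ∈ Finset.range Kc, ‖ee ((k : ℝ) * ∑ i, g (w i)) - 1‖
          ≤ ∑ k ∈ Finset.range Kc, (1 / 2 : ℝ) := by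
            apply Finset.sum_le_sum
            intro k hk
            rw [Finset.mem_range] at hk
            have hk' : (k : ℝ) ≤ Kc := by exact_mod_cast hk.le
            calc ‖ee ((k : ℝ) * ∑ i, g (w i)) - 1‖ ≤ k * ‖ee (∑ i, g (w i)) - 1‖ :=
                  norm_ee_nat_mul_sub_one _ _
              _ ≤ Kc * (1 / (2 * Kc)) := mul_le_mul hk' hw (norm_nonneg _) hK0.le
              _ = 1 / 2 := by field_simp
        _ = Kc / 2 := by
            rw [Finset.sum_const, Finset.card_range, nsmul_eq_mul]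
            ring
    have h3 : (Kc : ℝ) / 2 ≤ ‖S w‖ := by
      have h4 : ‖(Kc : ℂ)‖ ≤ ‖S w‖ + ‖S w - Kc‖ := by
        have h5 : (Kc : ℂ) = S w - (S w - Kc) := by ring
        calc ‖(Kc : ℂ)‖ = ‖S w - (S w - Kc)‖ := by rw [← h5]
          _ ≤ _ := norm_sub_le _ _
      rw [Complex.norm_natCast] at h4
      linarith
    calc (Kc : ℝ) ^ 2 / 4 = ((Kc : ℝ) / 2) ^ 2 := by ring
      _ ≤ _ := pow_le_pow_left₀ (by positivity) h3 2
  have hS2 : avr (fun w => ‖S w‖ ^ 2) =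
      ∑ k ∈ Finset.range Kc, ∑ k' ∈ Finset.range Kc, mone_rho g ((k : ℝ) - k') ^ m := by
    have h1 : ∀ w, ‖S w‖ ^ 2 = (∑ k ∈ Finset.range Kc, ∑ k' ∈ Finset.range Kc,
        ee (((k : ℝ) - k') * ∑ i, g (w i))).re := by
      intro w
      have h2 : ((‖S w‖ ^ 2 : ℝ) : ℂ) = ∑ k ∈ Finset.range Kc, ∑ k' ∈ Finset.range Kc,
        ee (((k : ℝ) - k') * ∑ i, g (w i)) := by
        rw [Complex.ofReal_pow, ← Complex.mul_conj']
        show (∑ k ∈ Finset.range Kc, ee ((k : ℝ) * ∑ i, g (w i))) *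
          (starRingEnd ℂ) (∑ k ∈ Finset.range Kc, ee ((k : ℝ) * ∑ i, g (w i))) = _
        rw [map_sum, Finset.sum_mul_sum]
        apply Finset.sum_congr rfl
        intro k _
        apply Finset.sum_congr rfl
        intro k' _
        rw [sub_mul, ee_sub]
      rw [← h2, Complex.ofReal_re]
    simp_rw [h1]
    rw [← avc_re, mone_avc_sum, Complex.re_sum]
    apply Finset.sum_congr rfl
    intro k _
    rw [mone_avc_sum, Complex.re_sum]
    apply Finset.sum_congr rfl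
    intro k' _
    exact mone_m σ g hg _ m
  rw [← hS2]
  have h6 : η ≤ avr (fun w => ‖S w‖ ^ 2) / ((Kc : ℝ) ^ 2 / 4) :=
    (h.trans (pr_mono _ _ hS1)).trans
      (pr_markov (fun w => ‖S w‖ ^ 2) (fun w => by positivity) ((Kc : ℝ) ^ 2 / 4) (by positivity))
  rw [le_div_iff₀ (by positivity)] at h6
  linarith

private lemma mone_exists {W : Type} [Fintype W] [Nonempty W] (σ : W ≃ W) (g : W → ℝ)
    (hg : ∀ w, g (σ w) = -g w) (m Kc : ℕ) (η : ℝ) (hη : 0 < η) (hKc : 16 / η ≤ Kc)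
    (h : η ≤ pr (fun w : Fin m → W => ‖ee (∑ i, g (w i)) - 1‖ ≤ 1 / (2 * Kc))) :
    ∃ h : ℕ, 0 < h ∧ h < Kc ∧ η / 8 ≤ |mone_rho g h| ^ m := by
  classical
  have hK0 : (0 : ℝ) < Kc := lt_of_lt_of_le (by positivity) hKc
  have hK1 : 1 ≤ Kc := by
    have : 0 < Kc := by exact_mod_cast hK0
    exact this
  by_contra hcon
  push Not at hcon
  have h1 := mone_main σ g hg m Kc hK1 η h
  have h2 : ∀ k ∈ Finset.range Kc, ∀ k' ∈ Finset.range Kc,
      mone_rho g ((k : ℝ) - k') ^ m ≤ (if k = k' then (1 : ℝ) else 0) + η / 8 := by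
    intro k hk k' hk'
    rw [Finset.mem_range] at hk hk'
    rcases lt_trichotomy k k' with hlt | heq | hgt
    · rw [if_neg hlt.ne, zero_add]
      have h3 : ((k : ℝ) - k') = -((k' - k : ℕ) : ℝ) := by
        rw [Nat.cast_sub hlt.le]
        ring
      rw [h3, mone_rho_neg]
      refine (le_abs_self _).trans ?_
      rw [abs_pow]
      exact (hcon (k' - k) (by omega) (by omega)).le
    · subst heq
      rw [if_pos rfl, sub_self, mone_rho_zero, one_pow]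
      linarith
    · rw [if_neg hgt.ne', zero_add]
      have h3 : ((k : ℝ) - k') = ((k - k' : ℕ) : ℝ) := by
        rw [Nat.cast_sub hgt.le]
      rw [h3]
      refine (le_abs_self _).trans ?_
      rw [abs_pow]
      exact (hcon (k - k') (by omega) (by omega)).le
  have h4 : ∑ k ∈ Finset.range Kc, ∑ k' ∈ Finset.range Kc, mone_rho g ((k : ℝ) - k') ^ m ≤
      Kc + Kc ^ 2 * (η / 8) := by
    calc ∑ k ∈ Finset.range Kc, ∑ k' ∈ Finset.range Kc, mone_rho g ((k : ℝ) - k') ^ m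
        ≤ ∑ k ∈ Finset.range Kc, ∑ k' ∈ Finset.range Kc, ((if k = k' then (1 : ℝ) else 0) + η / 8) :=
          Finset.sum_le_sum (fun k hk => Finset.sum_le_sum (fun k' hk' => h2 k hk k' hk'))
      _ = ∑ k ∈ Finset.range Kc, (1 + Kc * (η / 8)) := by
          apply Finset.sum_congr rfl
          intro k hk
          rw [Finset.sum_add_distrib, Finset.sum_ite_eq, if_pos hk, Finset.sum_const, Finset.card_range,
            nsmul_eq_mul]
      _ = _ := by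
          rw [Finset.sum_const, Finset.card_range, nsmul_eq_mul]
          ring
  rw [div_le_iff₀ hη] at hKc
  have h5 : (Kc : ℝ) ≤ Kc ^ 2 * (η / 16) := by
    nlinarith
  have h6 : 0 < (Kc : ℝ) ^ 2 * η := by positivity
  nlinarith

theorem mone (η : ℝ) (hη : 0 < η) : ∃ (H : ℕ) (τ : ℝ), 1 ≤ H ∧ 0 < τ ∧ ∀ κ : ℝ, 0 < κ →
    ∃ m0 : ℕ, ∀ m : ℕ, m0 ≤ m → ∀ (W : Type) [Fintype W] [Nonempty W] (σ : W ≃ W) (g : W → ℝ),
      (∀ w, g (σ w) = -g w) →
      η ≤ pr (fun w : Fin m → W => ‖ee (∑ i, g (w i)) - 1‖ ≤ τ) →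
      1 - κ ≤ pr (fun w : W => ‖ee (H * g w) - 1‖ ≤ κ) := by
  classical
  set Kc : ℕ := ⌈16 / η⌉₊ with hKc
  have hKc1 : 16 / η ≤ Kc := Nat.le_ceil _
  have hK0 : (0 : ℝ) < Kc := lt_of_lt_of_le (by positivity) hKc1
  refine ⟨2 * Kc.factorial, 1 / (2 * Kc), by have := Nat.factorial_pos Kc; omega, by positivity, ?_⟩
  intro κ hκ
  have hF : (0 : ℝ) < Kc.factorial := by exact_mod_cast Nat.factorial_pos Kc
  set κ' : ℝ := min 1 (κ ^ 3 / (8 * (Kc.factorial : ℝ) ^ 2)) with hκ'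
  have hκ'0 : 0 < κ' := lt_min one_pos (by positivity)
  have hκ'1 : κ' ≤ 1 := min_le_left _ _
  have hκ'2 : κ' ≤ κ ^ 3 / (8 * (Kc.factorial : ℝ) ^ 2) := min_le_right _ _
  obtain ⟨m0, hm0⟩ := exists_pow_lt_of_lt_one (show (0 : ℝ) < η / 8 by positivity)
    (show 1 - κ' < 1 by linarith)
  refine ⟨m0, ?_⟩
  intro m hm W _ _ σ g hg h
  obtain ⟨h, hh0, hhK, hrho⟩ := mone_exists σ g hg m Kc η hη hKc1 h
  have hr : 1 - κ' ≤ |mone_rho g h| := by
    by_contra hcon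
    push Not at hcon
    have h1 : |mone_rho g h| ^ m ≤ (1 - κ') ^ m := pow_le_pow_left₀ (abs_nonneg _) hcon.le m
    have h2 : (1 - κ') ^ m ≤ (1 - κ') ^ m0 :=
      pow_le_pow_of_le_one (by linarith) (by linarith) hm
    linarith
  -- second moment
  have hsq : ∀ x : ℝ, ‖ee x - 1‖ ^ 2 = 2 - 2 * Real.cos (2 * Real.pi * x) := by
    intro x
    have h1 : ‖ee x - 1‖ ^ 2 = ‖ee x‖ ^ 2 + 1 - 2 * (ee x).re := by
      rw [← Complex.normSq_eq_norm_sq, ← Complex.normSq_eq_norm_sq, Complex.normSq_apply,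
        Complex.normSq_apply]
      simp
      ring
    rw [h1, norm_ee, ee_re]
    ring
  have havg : avr (fun w => ‖ee (((2 * h : ℕ) : ℝ) * g w) - 1‖ ^ 2) ≤ 8 * κ' := by
    have h1 : (|mone_rho g h|) ^ 2 ≤ avr (fun w => Real.cos (2 * Real.pi * ((h : ℝ) * g w)) ^ 2) := by
      have h2 : |mone_rho g h| ≤ avr (fun w => |Real.cos (2 * Real.pi * ((h : ℝ) * g w))|) := by
        unfold mone_rho avr
        rw [abs_div, Nat.abs_cast]
        exact div_le_div_of_nonneg_right (Finset.abs_sum_le_sum_abs _ _) (Nat.cast_nonneg _)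
      calc (|mone_rho g h|) ^ 2 ≤ (avr (fun w => |Real.cos (2 * Real.pi * ((h : ℝ) * g w))|)) ^ 2 :=
            pow_le_pow_left₀ (abs_nonneg _) h2 2
        _ ≤ avr (fun w => |Real.cos (2 * Real.pi * ((h : ℝ) * g w))| ^ 2) :=
            avr_pow_le _ (fun _ => abs_nonneg _) 2
        _ = _ := by
            congr 1
            funext w
            rw [sq_abs]
    have h3 : avr (fun w => ‖ee (((2 * h : ℕ) : ℝ) * g w) - 1‖ ^ 2) =
        4 - 4 * avr (fun w => Real.cos (2 * Real.pi * ((h : ℝ) * g w)) ^ 2) := by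
      have h4 : (fun w => ‖ee (((2 * h : ℕ) : ℝ) * g w) - 1‖ ^ 2) =
          fun w => 4 - 4 * Real.cos (2 * Real.pi * ((h : ℝ) * g w)) ^ 2 := by
        funext w
        rw [hsq]
        have h5 : 2 * Real.pi * (((2 * h : ℕ) : ℝ) * g w) = 2 * (2 * Real.pi * ((h : ℝ) * g w)) := by
          push_cast
          ring
        rw [h5, Real.cos_two_mul]
        ring
      rw [h4]
      have h6 : avr (fun _ : W => (4 : ℝ)) = 4 := avr_const 4
      have h7 : avr (fun w => 4 - 4 * Real.cos (2 * Real.pi * ((h : ℝ) * g w)) ^ 2) =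
          avr (fun _ : W => (4 : ℝ)) - 4 * avr (fun w => Real.cos (2 * Real.pi * ((h : ℝ) * g w)) ^ 2) := by
        unfold avr
        rw [Finset.sum_sub_distrib, sub_div, ← Finset.mul_sum, mul_div_assoc]
      rw [h7, h6]
    rw [h3]
    have h8 : (1 - κ') ^ 2 ≤ |mone_rho g h| ^ 2 := pow_le_pow_left₀ (by linarith) hr 2
    nlinarith
  obtain ⟨l, hl⟩ : h ∣ Kc.factorial := Nat.dvd_factorial hh0 hhK.le
  have hlF : l ≤ Kc.factorial := by
    rw [hl]
    exact Nat.le_mul_of_pos_left l hh0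
  have hbound : ∀ w, ‖ee (((2 * Kc.factorial : ℕ) : ℝ) * g w) - 1‖ ^ 2 ≤
      (Kc.factorial : ℝ) ^ 2 * ‖ee (((2 * h : ℕ) : ℝ) * g w) - 1‖ ^ 2 := by
    intro w
    have h1 : ((2 * Kc.factorial : ℕ) : ℝ) * g w = l * (((2 * h : ℕ) : ℝ) * g w) := by
      rw [hl]
      push_cast
      ring
    rw [h1, ← mul_pow]
    apply pow_le_pow_left₀ (norm_nonneg _)
    refine (norm_ee_nat_mul_sub_one _ _).trans ?_
    apply mul_le_mul_of_nonneg_right _ (norm_nonneg _)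
    exact_mod_cast hlF
  have hmk : pr (fun w => κ ^ 2 ≤ ‖ee (((2 * Kc.factorial : ℕ) : ℝ) * g w) - 1‖ ^ 2) ≤ κ := by
    refine (pr_markov _ (fun w => by positivity) (κ ^ 2) (by positivity)).trans ?_
    rw [div_le_iff₀ (by positivity)]
    calc avr (fun w => ‖ee (((2 * Kc.factorial : ℕ) : ℝ) * g w) - 1‖ ^ 2)
        ≤ avr (fun w => (Kc.factorial : ℝ) ^ 2 * ‖ee (((2 * h : ℕ) : ℝ) * g w) - 1‖ ^ 2) :=
          avr_mono _ _ hbound
      _ = (Kc.factorial : ℝ) ^ 2 * avr (fun w => ‖ee (((2 * h : ℕ) : ℝ) * g w) - 1‖ ^ 2) := by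
          unfold avr
          rw [← Finset.mul_sum, mul_div_assoc]
      _ ≤ (Kc.factorial : ℝ) ^ 2 * (8 * (κ ^ 3 / (8 * (Kc.factorial : ℝ) ^ 2))) := by
          apply mul_le_mul_of_nonneg_left _ (by positivity)
          linarith
      _ = κ * κ ^ 2 := by
          field_simp
  have hfin : 1 - κ ≤ pr (fun w => ¬ κ ^ 2 ≤ ‖ee (((2 * Kc.factorial : ℕ) : ℝ) * g w) - 1‖ ^ 2) := by
    rw [pr_compl]
    linarith
  refine hfin.trans (pr_mono _ _ ?_)
  intro w hw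
  rw [not_le] at hw
  exact (lt_of_pow_lt_pow_left₀ 2 hκ.le hw).le

end Pool.Agent.Lib.MP_90b327_co.LS
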