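import Mathlib
import Pool.Agent.Lib.MP_90b327_co.LS.MOne

/-!
Module MMul (60 min): anti-concentration, `s` variables.

PROOF. Induction on `s` (for all `η`). `s = 0`: `H = 1`, for `κ` take `τ = κ`, `m0 = 0`: all the function spaces have one point
and the sum over `r : Fin 0 → Fin m` has one term. WLOG `κ ≤ 1`, `η ≤ 1`.
`s → s+1`: let `H_s` be the integer of the induction hypothesis for `η/2`, `(H_1, τ_1)` those of `mone` for `η/4`; `H := H_1 * H_s`.
Given `κ`, put `κ1 := min τ_1 (min (η/4)^2 (κ/2)^2)` (all ≤ 1); let `(m_s, τ)` be those of the induction hypothesis for `κ1`, `m_1` that of `mone`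
for `κ/2`; `m0 := max`. Let `m ≥ m0`. Separate the last group (`Fin.snoc`, or the group `0` with `Fin.cons`): `w = (x, w')`,
`Σ_r g(...) = Σ_{r : Fin s → Fin m} G_{w'}(x_{1,r_1},..,x_{s,r_s})`, `G_{w'}(y) = Σ_{l < m} g(y, w'_l)` (antisymmetric in each variable).
By Fubini the set `𝒢` of `w'` with `P_x(‖ee(..)-1‖ ≤ τ) ≥ η/2` has probability `≥ η/2`.
For `w' ∈ 𝒢` the induction hypothesis gives `P_y(‖ee(H_s G_{w'}(y)) - 1‖ ≤ κ1) ≥ 1 - κ1`. So
`P_{y,w'}(w' ∈ 𝒢 and ‖ee(H_s G_{w'}(y)) - 1‖ > κ1) ≤ κ1`, and by Markov for all `y` outside a set of probability `≤ √κ1 ≤ κ/2`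
`P_{w'}(w' ∈ 𝒢 and > κ1) ≤ √κ1 ≤ η/4`, so `P_{w'}(‖ee(Σ_l H_s g(y, w'_l)) - 1‖ ≤ κ1 ≤ τ_1) ≥ η/4`. `mone` for `w ↦ H_s * g(y, w)` gives
`P_w(‖ee(H_1 H_s g(y,w)) - 1‖ ≤ κ/2) ≥ 1 - κ/2` for these `y`. Total `≥ (1 - κ/2)(1 - κ/2) ≥ 1 - κ`.
-/

set_option autoImplicit false

namespace Pool.Agent.Lib.MP_90b327_co.LS

open Finset Polynomial
open scoped BigOperators

private lemma mm_pr_prod {α β : Type} [Fintype α] [Fintype β] (Q : α → β → Prop) :
    pr (fun p : α × β => Q p.1 p.2) = avr (fun x => pr (Q x)) := by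
  classical
  unfold pr
  exact avr_prod (fun x y => if Q x y then (1 : ℝ) else 0)

private lemma mm_pr_swap {α β : Type} [Fintype α] [Fintype β] (Q : α → β → Prop) :
    avr (fun x => pr (Q x)) = avr (fun y => pr (fun x => Q x y)) := by
  classical
  unfold pr
  exact avr_comm (fun x y => if Q x y then (1 : ℝ) else 0)

private lemma mm_cons_pr {s : ℕ} {A : Type} [Fintype A] (P : (Fin (s + 1) → A) → Prop) :
    pr P = avr (fun a : A => pr (fun x : Fin s → A => P (Fin.cons a x))) := by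
  rw [← pr_equiv (Fin.consEquiv (fun _ : Fin (s + 1) => A)) P]
  exact mm_pr_prod (fun (a : A) (x : Fin s → A) => P (Fin.cons a x))

private lemma mm_sum {s m : ℕ} {W : Type} (g : (Fin (s + 1) → W) → ℝ) (w' : Fin m → W)
    (x : Fin s → Fin m → W) :
    ∑ r : Fin (s + 1) → Fin m, g (fun l => (Fin.cons w' x : Fin (s + 1) → Fin m → W) l (r l)) =
      ∑ r : Fin s → Fin m, ∑ l : Fin m, g (Fin.cons (w' l) (fun i => x i (r i))) := by
  rw [← (Fin.consEquiv (fun _ : Fin (s + 1) => Fin m)).sum_comp, Fintype.sum_prod_type,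
    Finset.sum_comm]
  refine Finset.sum_congr rfl fun r _ => Finset.sum_congr rfl fun l _ => ?_
  congr 1
  funext i
  refine Fin.cases ?_ (fun j => ?_) i
  · rfl
  · rfl

private lemma mm_pr_false {α : Type} [Fintype α] (P : α → Prop) (h : ∀ x, ¬ P x) : pr P = 0 := by
  classical
  unfold pr avr
  rw [Finset.sum_eq_zero fun x _ => if_neg (h x), zero_div]

private lemma mm_pr_true {α : Type} [Fintype α] [Nonempty α] (P : α → Prop) (h : ∀ x, P x) :
    pr P = 1 := by
  classical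
  unfold pr
  have h1 : (fun x => if P x then (1 : ℝ) else 0) = fun _ => 1 := by
    funext x
    rw [if_pos (h x)]
  rw [h1, avr_const]

private lemma mm_pr_or {α : Type} [Fintype α] (P Q R : α → Prop) (h : ∀ x, P x → Q x ∨ R x) :
    pr P ≤ pr Q + pr R := by
  classical
  unfold pr avr
  rw [← add_div, ← Finset.sum_add_distrib]
  refine div_le_div_of_nonneg_right (Finset.sum_le_sum fun x _ => ?_) (Nat.cast_nonneg _)
  by_cases hP : P x
  · rw [if_pos hP]
    rcases h x hP with h1 | h1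
    · rw [if_pos h1]
      split_ifs <;> norm_num
    · rw [if_pos h1]
      split_ifs <;> norm_num
  · rw [if_neg hP]
    split_ifs <;> norm_num

/-- Fubini, first form: many good sections. -/
private lemma mm_sections {α : Type} [Fintype α] [Nonempty α] (f : α → ℝ) (h1 : ∀ x, f x ≤ 1)
    (h0 : ∀ x, 0 ≤ f x) (η : ℝ) (hη : 0 < η) (h : η ≤ avr f) : η / 2 ≤ pr (fun x => η / 2 ≤ f x) := by
  classical
  have h2 : avr f ≤ avr (fun x => (if η / 2 ≤ f x then (1 : ℝ) else 0) + η / 2) := by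
    apply avr_mono
    intro x
    split_ifs with hx
    · have := h1 x
      linarith
    · push Not at hx
      linarith
  have h3 : avr (fun x => (if η / 2 ≤ f x then (1 : ℝ) else 0) + η / 2) =
      pr (fun x => η / 2 ≤ f x) + avr (fun _ : α => η / 2) := by
    unfold pr avr
    rw [Finset.sum_add_distrib, add_div]
  rw [avr_const] at h3
  linarith

theorem mmul (s : ℕ) (η : ℝ) (hη : 0 < η) : ∃ H : ℕ, 1 ≤ H ∧ ∀ κ : ℝ, 0 < κ →
    ∃ (m0 : ℕ) (τ : ℝ), 0 < τ ∧ ∀ m : ℕ, m0 ≤ m →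
      ∀ (W : Type) [Fintype W] [Nonempty W] (σ : W ≃ W) (g : (Fin s → W) → ℝ),
      (∀ l w, g (Function.update w l (σ (w l))) = -g w) →
      η ≤ pr (fun w : Fin s → Fin m → W =>
        ‖ee (∑ r : Fin s → Fin m, g (fun l => w l (r l))) - 1‖ ≤ τ) →
      1 - κ ≤ pr (fun w : Fin s → W => ‖ee (H * g w) - 1‖ ≤ κ) := by
  classical
  induction s generalizing η with
  | zero =>
    refine ⟨1, le_rfl, fun κ hκ => ⟨0, κ, hκ, ?_⟩⟩
    intro m _ W _ _ σ g _ hP
    have h1 : ∃ w : Fin 0 → Fin m → W, ‖ee (∑ r : Fin 0 → Fin m, g (fun l => w l (r l))) - 1‖ ≤ κ := by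
      by_contra hcon
      push Not at hcon
      rw [mm_pr_false _ (fun x => not_le.mpr (hcon x))] at hP
      linarith
    obtain ⟨w, hw⟩ := h1
    have h2 : ∑ r : Fin 0 → Fin m, g (fun l => w l (r l)) = g (fun l => l.elim0) := by
      rw [Fintype.sum_unique]
      congr 1
      funext l
      exact l.elim0
    rw [h2] at hw
    rw [mm_pr_true]
    · linarith
    · intro x
      have h3 : x = fun l => l.elim0 := by
        funext l
        exact l.elim0
      rw [h3, Nat.cast_one, one_mul]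
      exact hw
  | succ s ih =>
    obtain ⟨Hs, hHs, ihs⟩ := ih (η / 2) (by positivity)
    obtain ⟨H1, τ1, hH1, hτ1, hmone⟩ := mone (η / 4) (by positivity)
    refine ⟨H1 * Hs, Nat.one_le_iff_ne_zero.mpr (Nat.mul_ne_zero (by omega) (by omega)), ?_⟩
    intro κ hκ
    set κ1 : ℝ := min τ1 (min ((η / 4) ^ 2) ((κ / 2) ^ 2)) with hκ1
    have hκ1pos : 0 < κ1 := by
      rw [hκ1]
      exact lt_min hτ1 (lt_min (by positivity) (by positivity))
    have hκ1τ : κ1 ≤ τ1 := min_le_left _ _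
    have hκ1η : Real.sqrt κ1 ≤ η / 4 := by
      rw [Real.sqrt_le_left (by positivity)]
      exact (min_le_right _ _).trans (min_le_left _ _)
    have hκ1κ : Real.sqrt κ1 ≤ κ / 2 := by
      rw [Real.sqrt_le_left (by positivity)]
      exact (min_le_right _ _).trans (min_le_right _ _)
    have hsq : 0 < Real.sqrt κ1 := Real.sqrt_pos.mpr hκ1pos
    obtain ⟨ms, τ, hτ, hs⟩ := ihs κ1 hκ1pos
    obtain ⟨m1, hm1⟩ := hmone (κ / 2) (by positivity)
    refine ⟨max ms m1, τ, hτ, ?_⟩
    intro m hm W _ _ σ g hg hP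
    have hms : ms ≤ m := le_trans (le_max_left _ _) hm
    have hm1' : m1 ≤ m := le_trans (le_max_right _ _) hm
    -- the sections
    set G : (Fin m → W) → (Fin s → W) → ℝ := fun w' y => ∑ l : Fin m, g (Fin.cons (w' l) y) with hG
    set f : (Fin m → W) → ℝ := fun w' => pr (fun x : Fin s → Fin m → W =>
        ‖ee (∑ r : Fin s → Fin m, G w' (fun l => x l (r l))) - 1‖ ≤ τ) with hf
    have hPf : η ≤ avr f := by
      rw [mm_cons_pr] at hP
      refine hP.trans (le_of_eq ?_)
      congr 1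
      funext w'
      rw [hf]
      simp only [mm_sum]
      rfl
    have hgood : η / 2 ≤ pr (fun w' => η / 2 ≤ f w') :=
      mm_sections f (fun x => pr_le_one _) (fun x => pr_nonneg _) η hη hPf
    -- induction hypothesis on good sections
    have hsec : ∀ w' : Fin m → W, η / 2 ≤ f w' →
        1 - κ1 ≤ pr (fun y : Fin s → W => ‖ee (Hs * G w' y) - 1‖ ≤ κ1) := by
      intro w' hw'
      refine hs m hms W σ (G w') ?_ hw'
      intro l y
      rw [hG]
      simp only
      rw [← Finset.sum_neg_distrib]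
      refine Finset.sum_congr rfl fun i _ => ?_
      have h1 := hg l.succ (Fin.cons (w' i) y)
      rw [Fin.cons_succ] at h1
      rw [← h1, Fin.cons_update]
    -- the bad event
    set bad : (Fin s → W) → (Fin m → W) → Prop := fun y w' =>
      η / 2 ≤ f w' ∧ ¬ ‖ee (Hs * G w' y) - 1‖ ≤ κ1 with hbad
    have hbad1 : avr (fun y => pr (bad y)) ≤ κ1 := by
      have h1 : avr (fun y => pr (bad y)) = avr (fun w' => pr (fun y => bad y w')) :=
        mm_pr_swap bad
      rw [h1]
      refine (avr_mono _ (fun _ => κ1) ?_).trans_eq (avr_const _)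
      intro w'
      by_cases hw' : η / 2 ≤ f w'
      · have h2 := hsec w' hw'
        have h3 := pr_compl (fun y : Fin s → W => ‖ee (Hs * G w' y) - 1‖ ≤ κ1)
        have h4 : pr (fun y => bad y w') ≤ pr (fun y : Fin s → W => ¬ ‖ee (Hs * G w' y) - 1‖ ≤ κ1) :=
          pr_mono _ _ fun y hy => hy.2
        linarith
      · rw [mm_pr_false _ fun y hy => hw' hy.1]
        exact hκ1pos.le
    have hmark : pr (fun y => Real.sqrt κ1 ≤ pr (bad y)) ≤ κ / 2 := by
      have h1 := pr_markov (fun y => pr (bad y)) (fun y => pr_nonneg _) (Real.sqrt κ1) hsq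
      refine h1.trans (le_trans ?_ hκ1κ)
      rw [div_le_iff₀ hsq, Real.mul_self_sqrt hκ1pos.le]
      exact hbad1
    -- good `y`
    have hy : ∀ y : Fin s → W, ¬ Real.sqrt κ1 ≤ pr (bad y) →
        1 - κ / 2 ≤ pr (fun w : W => ‖ee (((H1 * Hs : ℕ) : ℝ) * g (Fin.cons w y)) - 1‖ ≤ κ) := by
      intro y hy
      push Not at hy
      have h1 : η / 4 ≤ pr (fun w' : Fin m → W => ‖ee (∑ i, (Hs : ℝ) * g (Fin.cons (w' i) y)) - 1‖ ≤ τ1) := by
        have h2 := mm_pr_or (fun w' : Fin m → W => η / 2 ≤ f w')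
          (fun w' => ‖ee (∑ i, (Hs : ℝ) * g (Fin.cons (w' i) y)) - 1‖ ≤ τ1) (bad y) (by
            intro w' hw'
            by_cases h3 : ‖ee (Hs * G w' y) - 1‖ ≤ κ1
            · left
              rw [← Finset.mul_sum]
              exact h3.trans hκ1τ
            · right
              exact ⟨hw', h3⟩)
        linarith
      have h2 := hm1 m hm1' W σ (fun w => (Hs : ℝ) * g (Fin.cons w y)) (by
        intro w
        have h3 := hg 0 (Fin.cons w y)
        rw [Fin.cons_zero, Fin.update_cons_zero] at h3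
        rw [h3]
        ring) h1
      refine h2.trans (pr_mono _ _ ?_)
      intro w hw
      have h4 : ((H1 * Hs : ℕ) : ℝ) * g (Fin.cons w y) = (H1 : ℝ) * ((Hs : ℝ) * g (Fin.cons w y)) := by
        push_cast
        ring
      rw [h4]
      linarith
    -- conclusion
    have hfin : pr (fun w : Fin (s + 1) → W => ‖ee (((H1 * Hs : ℕ) : ℝ) * g w) - 1‖ ≤ κ) =
        avr (fun y : Fin s → W => pr (fun w : W =>
          ‖ee (((H1 * Hs : ℕ) : ℝ) * g (Fin.cons w y)) - 1‖ ≤ κ)) := by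
      rw [mm_cons_pr]
      exact mm_pr_swap (fun (w : W) (y : Fin s → W) =>
        ‖ee (((H1 * Hs : ℕ) : ℝ) * g (Fin.cons w y)) - 1‖ ≤ κ)
    rw [hfin]
    have h5 : avr (fun y : Fin s → W => (1 - κ / 2) - (if Real.sqrt κ1 ≤ pr (bad y) then (1 : ℝ) else 0)) ≤
        avr (fun y : Fin s → W => pr (fun w : W =>
          ‖ee (((H1 * Hs : ℕ) : ℝ) * g (Fin.cons w y)) - 1‖ ≤ κ)) := by
      apply avr_mono
      intro y
      split_ifs with hyb
      · have := pr_nonneg (fun w : W => ‖ee (((H1 * Hs : ℕ) : ℝ) * g (Fin.cons w y)) - 1‖ ≤ κ)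
        linarith
      · have := hy y hyb
        linarith
    have h6 : avr (fun y : Fin s → W => (1 - κ / 2) - (if Real.sqrt κ1 ≤ pr (bad y) then (1 : ℝ) else 0)) =
        (1 - κ / 2) - pr (fun y => Real.sqrt κ1 ≤ pr (bad y)) := by
      have h7 : (1 - κ / 2) = avr (fun _ : Fin s → W => 1 - κ / 2) := (avr_const _).symm
      conv_rhs => rw [h7]
      unfold pr avr
      rw [Finset.sum_sub_distrib, sub_div]
    linarith

end Pool.Agent.Lib.MP_90b327_co.LS
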