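import Mathlib
import Pool.Agent.Lib.MP_90b327_co.LS.Def

/-!
Module Dif (45 min): iterated differences of a polynomial of degree `≤ k + 1` over a `k`-dimensional
box are affine in the base point, with explicit slope.

PROOF. Induction on `k`, for all `p`. `k = 0`: `p.natDegree ≤ 1`, `p.eval c = p.coeff 1 * c + p.coeff 0`,
`box` over `Fin 0` is the value itself, factorial 1, empty product 1.
Step: split off the variable `0`: with `q := p.comp (X + C (x 0)) - p.comp (X + C (x' 0))` (natDegree ≤ k+1,
`q.coeff (k+1) = (k+2) * (x 0 - x' 0) * p.coeff (k+2)`), the box sum of `p` for `k+1` variables is the box sum of `q`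
for the remaining `k` variables. (For the coefficient of `q`: it is enough to know it for `p = X^j`, or use
`Polynomial.taylor`: `(taylor r p).coeff n = (hasseDeriv n p).eval r` and for natDegree `≤ k+2` the Hasse derivative of
order `k+1` is `p.coeff (k+1) + (k+2) * p.coeff (k+2) * X`; `Polynomial.taylor_coeff`, `Polynomial.hasseDeriv_coeff`.)
-/

set_option autoImplicit false

namespace Pool.Agent.Lib.MP_90b327_co.LS

open Finset Polynomial
open scoped BigOperators

private lemma dif_taylor (n : ℕ) (p : ℝ[X]) (hp : p.natDegree ≤ n + 1) (r : ℝ) :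
    (taylor r p).coeff n = p.coeff n + ((n : ℝ) + 1) * p.coeff (n + 1) * r := by
  rw [taylor_coeff]
  have h1 : (hasseDeriv n p).natDegree < 2 := by
    have h2 := natDegree_hasseDeriv_le p n
    omega
  rw [eval_eq_sum_range' h1, Finset.sum_range_succ, Finset.sum_range_one, hasseDeriv_coeff, hasseDeriv_coeff]
  have h3 : ((1 + n).choose n : ℝ) = (n : ℝ) + 1 := by
    rw [add_comm 1 n, Nat.choose_succ_self_right]
    push_cast
    ring
  rw [h3, zero_add, Nat.choose_self, add_comm 1 n]
  push_cast
  ring

private lemma dif_q (n : ℕ) (p : ℝ[X]) (hp : p.natDegree ≤ n + 2) (a b : ℝ) :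
    (taylor a p - taylor b p).natDegree ≤ n + 1 ∧
      (taylor a p - taylor b p).coeff (n + 1) = ((n : ℝ) + 2) * p.coeff (n + 2) * (a - b) := by
  constructor
  · rw [natDegree_le_iff_coeff_eq_zero]
    intro N hN
    have h0 : p.coeff (N + 1) = 0 := coeff_eq_zero_of_natDegree_lt (by omega)
    rw [coeff_sub, dif_taylor N p (by omega), dif_taylor N p (by omega), h0]
    ring
  · rw [coeff_sub, dif_taylor (n + 1) p (by omega), dif_taylor (n + 1) p (by omega)]
    push_cast
    ring

theorem box_poly (k : ℕ) (p : ℝ[X]) (hp : p.natDegree ≤ k + 1) (x x' : Fin k → ℝ) :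
    ∃ γ : ℝ, ∀ c : ℝ, (∑ ω : Fin k → Bool, sgn ω * p.eval (c + ∑ l, pick ω x x' l)) =
      (((k + 1).factorial : ℝ) * (∏ l, (x l - x' l)) * p.coeff (k + 1)) * c + γ := by
  induction k generalizing p with
  | zero =>
    refine ⟨p.coeff 0, ?_⟩
    intro c
    have h1 := eq_X_add_C_of_natDegree_le_one hp
    rw [Fintype.sum_unique]
    unfold sgn
    simp only [Finset.univ_eq_empty, Finset.prod_empty, Finset.sum_empty, add_zero, zero_add,
      Nat.factorial_one, Nat.cast_one, one_mul, mul_one]
    conv_lhs => rw [h1]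
    simp
  | succ k ih =>
    obtain ⟨hq1, hq2⟩ := dif_q k p hp (x 0) (x' 0)
    obtain ⟨γ, hγ⟩ := ih (taylor (x 0) p - taylor (x' 0) p) hq1 (fun l => x l.succ) (fun l => x' l.succ)
    refine ⟨γ, ?_⟩
    intro c
    have h2 : ∀ f : (Fin (k + 1) → Bool) → ℝ, ∑ ω, f ω =
        ∑ ω' : Fin k → Bool, (f (Fin.cons false ω') + f (Fin.cons true ω')) := by
      intro f
      rw [← Equiv.sum_comp (Fin.consEquiv (fun _ => Bool)) f, Fintype.sum_prod_type, Fintype.sum_bool,
        add_comm, ← Finset.sum_add_distrib]
      rfl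
    rw [h2]
    have h3 : ∀ (b : Bool) (ω' : Fin k → Bool), sgn (Fin.cons b ω' : Fin (k + 1) → Bool) =
        (if b then (-1 : ℝ) else 1) * sgn ω' := by
      intro b ω'
      unfold sgn
      rw [Fin.prod_univ_succ]
      simp
    have h4 : ∀ (b : Bool) (ω' : Fin k → Bool),
        ∑ l, pick (Fin.cons b ω' : Fin (k + 1) → Bool) x x' l =
        (if b then x' 0 else x 0) + ∑ l, pick ω' (fun l => x l.succ) (fun l => x' l.succ) l := by
      intro b ω'
      rw [Fin.sum_univ_succ]
      unfold pick
      simp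
    have h5 : ∀ ω' : Fin k → Bool,
        (sgn (Fin.cons false ω' : Fin (k + 1) → Bool) *
          p.eval (c + ∑ l, pick (Fin.cons false ω' : Fin (k + 1) → Bool) x x' l) +
        sgn (Fin.cons true ω' : Fin (k + 1) → Bool) *
          p.eval (c + ∑ l, pick (Fin.cons true ω' : Fin (k + 1) → Bool) x x' l)) =
        sgn ω' * (taylor (x 0) p - taylor (x' 0) p).eval
          (c + ∑ l, pick ω' (fun l => x l.succ) (fun l => x' l.succ) l) := by
      intro ω'
      rw [h3, h3, h4, h4, eval_sub, taylor_eval, taylor_eval]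
      simp only [Bool.false_eq_true, if_false, if_true]
      have h6 : ∀ z S : ℝ, c + (z + S) = c + S + z := by
        intro z S
        ring
      rw [h6, h6]
      ring
    rw [Finset.sum_congr rfl (fun ω' _ => h5 ω'), hγ c, hq2, Fin.prod_univ_succ, Nat.factorial_succ (k + 1)]
    push_cast
    ring

end Pool.Agent.Lib.MP_90b327_co.LS
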