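import Mathlib
import Pool.Agent.Lib.MP_90b327_co.LS.Def

/-!
Module Geo (20 min): the geometric sum.
PROOF. `(ee β - 1) * Σ_{a<J} ee(β a) = ee(β J) - 1` (`Finset.sum_range`, `geom_sum_eq` / `mul_geom_sum`), norm at most 2.
-/

set_option autoImplicit false

namespace Pool.Agent.Lib.MP_90b327_co.LS

open Finset Polynomial
open scoped BigOperators

private lemma geo_pow (β : ℝ) (n : ℕ) : ee (β * (n : ℝ)) = ee β ^ n := by
  induction n with
  | zero => simp [ee_zero]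
  | succ n ih =>
    rw [pow_succ, ← ih, ← ee_add]
    congr 1
    push_cast
    ring

theorem geo (J : ℕ) (hJ : 1 ≤ J) (β : ℝ) :
    ‖avc (fun a : Fin J => ee (β * ((a : ℕ) : ℝ)))‖ * J * ‖ee β - 1‖ ≤ 2 := by
  have hJ0 : (J : ℂ) ≠ 0 := by
    have : J ≠ 0 := by omega
    exact_mod_cast this
  have h1 : avc (fun a : Fin J => ee (β * ((a : ℕ) : ℝ))) * J * (ee β - 1) = ee β ^ J - 1 := by
    unfold avc
    rw [Fintype.card_fin, div_mul_cancel₀ _ hJ0, ← geom_sum_mul]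
    congr 1
    rw [← Fin.sum_univ_eq_sum_range]
    exact Finset.sum_congr rfl (fun a _ => geo_pow β a)
  calc ‖avc (fun a : Fin J => ee (β * ((a : ℕ) : ℝ)))‖ * J * ‖ee β - 1‖
      = ‖avc (fun a : Fin J => ee (β * ((a : ℕ) : ℝ))) * J * (ee β - 1)‖ := by
        rw [norm_mul, norm_mul, Complex.norm_natCast]
    _ = ‖ee β ^ J - 1‖ := by rw [h1]
    _ ≤ ‖ee β ^ J‖ + ‖(1 : ℂ)‖ := norm_sub_le _ _
    _ = 2 := by
        rw [norm_pow, norm_ee, one_pow, norm_one]
        norm_num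

end Pool.Agent.Lib.MP_90b327_co.LS
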