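import Mathlib
import Pool.Agent.Lib.MP_90b327_co.LS.Gcs
import Pool.Agent.Lib.MP_90b327_co.LS.Dif
import Pool.Agent.Lib.MP_90b327_co.LS.Geo

/-!
Module Wey (75 min): Weyl inequality for the top coefficient over a structured range.

PROOF. Let `k = D - 1`, `η' = η^(2^k)`; take `B0` with `B0 ≥ 1` and `2 k / B0 ≤ η'`.
For given `q`, `Bq` let `H := (D! * Bq^k)!` and `C := 4 H / η'`.
Split `Fin q → Fin Bq` as (first `k` coordinates) × (rest) (`k ≤ q`; `Fin.appendEquiv` / `Fin.castAdd` after `obtain ⟨r, rfl⟩`,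
`Fin.sum_univ_add`). For fixed rest `ρ` (value `ρ` of the sum) and `a`, put `c = J + a + ρ`, `F(b) = p.eval (c + Σ b_l)`, `b : Fin k → Fin Bq`.
If `k = 0` nothing is to be done in this step. If `k ≥ 1`: by `gcs` with `R = 0`,
`‖avc_b ee(F b)‖^(2^k) ≤ Re avc_{b,b'} ee(box F b b')` and by `box_poly` `box F b b' = β c + γ`, `β = D! Π (b_l - b'_l) p.coeff D`.
In both cases, averaging over `a` and `ρ` (Jensen `avr_pow_le`, triangle inequality):
`η' ≤ ‖avc‖^(2^k) ≤ avr_{b,b'} ‖avc_a ee(β_{b,b'} a)‖` (the constants `β (J+ρ) + γ` have modulus one).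
The pairs with some `b_l = b'_l` have proportion at most `k / Bq ≤ η'/2`, so there is a pair with all `b_l ≠ b'_l` and
`‖avc_a ee(β a)‖ ≥ η'/2`; by `geo` `‖ee β - 1‖ ≤ 4/(η' J)`. `β = h * p.coeff D` with an integer `h ≠ 0`, `|h| ≤ D! Bq^k`, so
`|h|` divides `H` (`Nat.dvd_factorial`), `H = h * l`, and `‖ee(H p.coeff D) - 1‖ ≤ |l| ‖ee β - 1‖ ≤ C / J`
(`norm_ee_nat_mul_sub_one`, `norm_ee_neg_sub_one`).
-/

set_option autoImplicit false

namespace Pool.Agent.Lib.MP_90b327_co.LS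

open Finset Polynomial
open scoped BigOperators

private lemma wey_factor {α : Type} [Fintype α] (f : α → ℝ) (r : ℝ) :
    ‖avc (fun x => ee (f x + r))‖ = ‖avc (fun x => ee (f x))‖ := by
  have h : avc (fun x => ee (f x + r)) = avc (fun x => ee (f x)) * ee r := by
    unfold avc
    simp_rw [ee_add]
    rw [← Finset.sum_mul]
    ring
  rw [h, norm_mul, norm_ee, mul_one]

private lemma wey_add {α : Type} [Fintype α] [Nonempty α] (f : α → ℝ) (c : ℝ) :
    avr (fun x => f x + c) = avr f + c := by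
  have h : avr f + c = avr f + avr (fun _ : α => c) := by rw [avr_const]
  rw [h]
  unfold avr
  rw [← add_div, ← Finset.sum_add_distrib]

private lemma wey_coord {k : ℕ} {W : Type} [Fintype W] [Nonempty W] (l : Fin k) (f : W → ℝ) :
    avr (fun b : Fin k → W => f (b l)) = avr f := by
  rw [← avr_equiv (Equiv.funSplitAt l W).symm]
  have h : (fun p : W × ({ j // j ≠ l } → W) => f ((Equiv.funSplitAt l W).symm p l)) = fun p => f p.1 := by
    funext p
    congr 1
    simp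
  rw [h, avr_prod (fun x (_ : { j // j ≠ l } → W) => f x)]
  congr 1
  funext x
  exact avr_const (f x)

private lemma wey_bad (k B : ℕ) (hB : 1 ≤ B) :
    pr (fun p : (Fin k → Fin B) × (Fin k → Fin B) => ∃ l, p.1 l = p.2 l) ≤ k / B := by
  have : NeZero B := ⟨by omega⟩
  have h1 : pr (fun p : (Fin k → Fin B) × (Fin k → Fin B) => ∃ l, p.1 l = p.2 l) ≤
      ∑ l : Fin k, avr (fun p : (Fin k → Fin B) × (Fin k → Fin B) =>
        if p.1 l = p.2 l then (1 : ℝ) else 0) := by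
    have h2 : ∑ l : Fin k, avr (fun p : (Fin k → Fin B) × (Fin k → Fin B) =>
        if p.1 l = p.2 l then (1 : ℝ) else 0) =
        avr (fun p : (Fin k → Fin B) × (Fin k → Fin B) =>
          ∑ l : Fin k, if p.1 l = p.2 l then (1 : ℝ) else 0) := by
      unfold avr
      rw [← Finset.sum_div, Finset.sum_comm]
    rw [h2]
    unfold pr
    apply avr_mono
    intro p
    split_ifs with h
    · obtain ⟨l, hl⟩ := h
      have h3 := Finset.single_le_sum (f := fun l => if p.1 l = p.2 l then (1 : ℝ) else 0)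
        (fun i _ => by split_ifs <;> norm_num) (Finset.mem_univ l)
      refine le_trans (le_of_eq ?_) h3
      exact (if_pos hl).symm
    · exact Finset.sum_nonneg fun i _ => by split_ifs <;> norm_num
  refine h1.trans ?_
  have h3 : ∀ l : Fin k, avr (fun p : (Fin k → Fin B) × (Fin k → Fin B) =>
      if p.1 l = p.2 l then (1 : ℝ) else 0) = 1 / B := by
    intro l
    rw [avr_prod (fun (x y : Fin k → Fin B) => if x l = y l then (1 : ℝ) else 0)]
    have h4 : ∀ x : Fin k → Fin B, avr (fun y : Fin k → Fin B => if x l = y l then (1 : ℝ) else 0) =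
        1 / B := by
      intro x
      rw [wey_coord l (fun v => if x l = v then (1 : ℝ) else 0)]
      unfold avr
      rw [Finset.sum_ite_eq, if_pos (mem_univ _), Fintype.card_fin]
    simp_rw [h4]
    exact avr_const _
  simp_rw [h3]
  rw [Finset.sum_const, Finset.card_univ, Fintype.card_fin, nsmul_eq_mul]
  exact le_of_eq (by ring)

/-- the slope -/
private noncomputable def wey_sl (k B : ℕ) (p : ℝ[X]) (q : (Fin k → Fin B) × (Fin k → Fin B)) : ℝ :=
  ((k + 1).factorial : ℝ) * (∏ l, (((q.1 l : ℕ) : ℝ) - ((q.2 l : ℕ) : ℝ))) * p.coeff (k + 1)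

private lemma wey_box (k B : ℕ) (p : ℝ[X]) (hp : p.natDegree ≤ k + 1) :
    ∃ γ : (Fin k → Fin B) × (Fin k → Fin B) → ℝ, ∀ q (c : ℝ),
      (∑ ω : Fin k → Bool, sgn ω * p.eval (c + ∑ l, (((pick ω q.1 q.2 l : Fin B) : ℕ) : ℝ))) =
        wey_sl k B p q * c + γ q := by
  have h : ∀ q : (Fin k → Fin B) × (Fin k → Fin B), ∃ γ : ℝ, ∀ c : ℝ,
      (∑ ω : Fin k → Bool, sgn ω * p.eval (c + ∑ l, (((pick ω q.1 q.2 l : Fin B) : ℕ) : ℝ))) =
        wey_sl k B p q * c + γ := by
    intro q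
    obtain ⟨γ, hγ⟩ := box_poly k p hp (fun l => ((q.1 l : ℕ) : ℝ)) (fun l => ((q.2 l : ℕ) : ℝ))
    refine ⟨γ, fun c => ?_⟩
    unfold wey_sl
    rw [← hγ c]
    refine Finset.sum_congr rfl fun ω _ => ?_
    have h1 : (∑ l, (((pick ω q.1 q.2 l : Fin B) : ℕ) : ℝ)) =
        ∑ l, pick ω (fun l => ((q.1 l : ℕ) : ℝ)) (fun l => ((q.2 l : ℕ) : ℝ)) l := by
      refine Finset.sum_congr rfl fun l _ => ?_
      unfold pick
      split_ifs <;> rfl
    rw [h1]
  choose γ hγ using h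
  exact ⟨γ, hγ⟩

private lemma wey_core (k r B J : ℕ) (hB : 1 ≤ B) (hJ : 1 ≤ J) (p : ℝ[X]) (hp : p.natDegree ≤ k + 1) :
    ‖avc (fun x : Fin J × (Fin (k + r) → Fin B) =>
      ee (p.eval (((J + (x.1 : ℕ) + ∑ i, (x.2 i : ℕ) : ℕ)) : ℝ)))‖ ^ (2 ^ k) ≤
    avr (fun q : (Fin k → Fin B) × (Fin k → Fin B) =>
      ‖avc (fun a : Fin J => ee (wey_sl k B p q * ((a : ℕ) : ℝ)))‖) := by
  have : NeZero B := ⟨by omega⟩
  have : NeZero J := ⟨by omega⟩
  obtain ⟨γ, hγ⟩ := wey_box k B p hp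
  -- the base point
  set c : Fin J × (Fin r → Fin B) → ℝ := fun u => (J : ℝ) + ((u.1 : ℕ) : ℝ) + ∑ i, ((u.2 i : ℕ) : ℝ) with hc
  -- split the variables
  set e : (Fin J × (Fin r → Fin B)) × (Fin k → Fin B) ≃ Fin J × (Fin (k + r) → Fin B) :=
    (Equiv.prodAssoc _ _ _).trans (Equiv.prodCongr (Equiv.refl _)
      ((Equiv.prodComm _ _).trans (Fin.appendEquiv k r))) with he
  have hsplit : avc (fun x : Fin J × (Fin (k + r) → Fin B) =>
      ee (p.eval (((J + (x.1 : ℕ) + ∑ i, (x.2 i : ℕ) : ℕ)) : ℝ))) =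
      avc (fun u => avc (fun b : Fin k → Fin B => ee (p.eval (c u + ∑ l, ((b l : ℕ) : ℝ))))) := by
    rw [← avc_equiv e, ← avc_prod]
    congr 1
    funext v
    obtain ⟨⟨a, ρ⟩, b⟩ := v
    have h1 : e ((a, ρ), b) = (a, Fin.append b ρ) := rfl
    rw [h1]
    congr 2
    simp only [hc]
    rw [Fin.sum_univ_add]
    simp only [Fin.append_left, Fin.append_right]
    push_cast
    ring
  -- the intermediate inequality
  have hI : ‖avc (fun u => avc (fun b : Fin k → Fin B => ee (p.eval (c u + ∑ l, ((b l : ℕ) : ℝ)))))‖ ^ (2 ^ k) ≤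
      avr (fun q : (Fin k → Fin B) × (Fin k → Fin B) =>
        ‖avc (fun u => ee (wey_sl k B p q * c u + γ q))‖) := by
    rcases Nat.eq_zero_or_pos k with hk | hk
    · subst hk
      rw [pow_zero, pow_one]
      set q0 : (Fin 0 → Fin B) × (Fin 0 → Fin B) := (fun _ => 0, fun _ => 0) with hq0
      have hq : ∀ q : (Fin 0 → Fin B) × (Fin 0 → Fin B), q = q0 := by
        intro q
        exact Prod.ext (funext fun i => i.elim0) (funext fun i => i.elim0)
      have h1 : (fun q : (Fin 0 → Fin B) × (Fin 0 → Fin B) =>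
          ‖avc (fun u => ee (wey_sl 0 B p q * c u + γ q))‖) =
          fun _ => ‖avc (fun u => ee (wey_sl 0 B p q0 * c u + γ q0))‖ := by
        funext q
        rw [hq q]
      rw [h1, avr_const]
      refine le_of_eq ?_
      congr 2
      funext u
      have h2 : (fun b : Fin 0 → Fin B => ee (p.eval (c u + ∑ l, ((b l : ℕ) : ℝ)))) =
          fun _ => ee (wey_sl 0 B p q0 * c u + γ q0) := by
        funext b
        rw [← hγ q0 (c u)]
        congr 1
        rw [Fintype.sum_unique (ι := Fin 0 → Bool)]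
        simp [sgn]
      rw [h2, avc_const]
    · obtain ⟨m, rfl⟩ : ∃ m, k = m + 1 := ⟨k - 1, by omega⟩
      have h1 : ∀ u, ‖avc (fun b : Fin (m + 1) → Fin B => ee (p.eval (c u + ∑ l, ((b l : ℕ) : ℝ))))‖ ^
          (2 ^ (m + 1)) ≤ (avc (fun q : (Fin (m + 1) → Fin B) × (Fin (m + 1) → Fin B) =>
            ee (wey_sl (m + 1) B p q * c u + γ q))).re := by
        intro u
        have h2 := gcs m (fun b : Fin (m + 1) → Fin B => p.eval (c u + ∑ l, ((b l : ℕ) : ℝ)))
          (fun _ _ => 0) (fun _ _ _ => rfl)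
        simp only [Finset.sum_const_zero, add_zero] at h2
        refine h2.trans (le_of_eq ?_)
        congr 2
        funext q
        congr 1
        exact hγ q (c u)
      refine (pow_le_pow_left₀ (norm_nonneg _) (avc_norm_le_avr _) _).trans ?_
      refine (avr_pow_le _ (fun _ => norm_nonneg _) _).trans ?_
      refine (avr_mono _ _ h1).trans ?_
      rw [← avc_re (fun u => avc (fun q : (Fin (m + 1) → Fin B) × (Fin (m + 1) → Fin B) =>
            ee (wey_sl (m + 1) B p q * c u + γ q))), avc_comm]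
      refine (Complex.re_le_norm _).trans ?_
      exact avc_norm_le_avr _
  rw [hsplit]
  refine hI.trans (avr_mono _ _ fun q => ?_)
  -- the constants have modulus one
  have h1 : avc (fun u => ee (wey_sl k B p q * c u + γ q)) =
      avc (fun ρ : Fin r → Fin B => avc (fun a : Fin J =>
        ee (wey_sl k B p q * ((a : ℕ) : ℝ) +
          (wey_sl k B p q * ((J : ℝ) + ∑ i, ((ρ i : ℕ) : ℝ)) + γ q)))) := by
    rw [avc_comm, ← avc_prod]
    congr 1
    funext u
    congr 1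
    simp only [hc]
    ring
  rw [h1]
  refine (avc_norm_le_avr _).trans (le_of_eq ?_)
  simp_rw [wey_factor]
  exact avr_const _

theorem weyl (D : ℕ) (hD : 1 ≤ D) (η : ℝ) (hη : 0 < η) :
    ∃ B0 : ℕ, 1 ≤ B0 ∧ ∀ q Bq : ℕ, D ≤ q + 1 → B0 ≤ Bq → ∃ (H : ℕ) (C : ℝ), 1 ≤ H ∧ 0 ≤ C ∧
      ∀ J : ℕ, 1 ≤ J → ∀ p : ℝ[X], p.natDegree ≤ D →
        η ≤ ‖avc (fun x : Fin J × (Fin q → Fin Bq) =>
          ee (p.eval (((J + (x.1 : ℕ) + ∑ i, (x.2 i : ℕ) : ℕ)) : ℝ)))‖ →
        ‖ee (H * p.coeff D) - 1‖ ≤ C / J := by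
  obtain ⟨k, rfl⟩ : ∃ k, D = k + 1 := ⟨D - 1, by omega⟩
  set η' : ℝ := η ^ (2 ^ k) with hη'
  have hη'0 : 0 < η' := by positivity
  obtain ⟨B0, hB0⟩ := exists_nat_gt (2 * (k : ℝ) / η')
  refine ⟨B0 + 1, by omega, ?_⟩
  intro q Bq hq hBq
  obtain ⟨r, rfl⟩ := Nat.exists_eq_add_of_le (show k ≤ q by omega)
  have hBq1 : 1 ≤ Bq := by omega
  have : NeZero Bq := ⟨by omega⟩
  set T : ℕ := (k + 1).factorial * Bq ^ k with hT
  set H : ℕ := T.factorial with hH
  have hH1 : 1 ≤ H := Nat.factorial_pos T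
  refine ⟨H, 4 * H / η', hH1, by positivity, ?_⟩
  intro J hJ p hp hyp
  have : NeZero J := ⟨by omega⟩
  have hcore := wey_core k r Bq J hBq1 hJ p hp
  have h1 : η' ≤ avr (fun q : (Fin k → Fin Bq) × (Fin k → Fin Bq) =>
      ‖avc (fun a : Fin J => ee (wey_sl k Bq p q * ((a : ℕ) : ℝ)))‖) :=
    (pow_le_pow_left₀ hη.le hyp _).trans hcore
  have hBqr : (0 : ℝ) < Bq := by exact_mod_cast hBq1
  have hbad : (k : ℝ) / Bq < η' / 2 := by
    have h2 : 2 * (k : ℝ) / η' < Bq := hB0.trans_le (by exact_mod_cast (by omega : B0 ≤ Bq))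
    rw [div_lt_iff₀ hη'0] at h2
    rw [div_lt_iff₀ hBqr]
    linarith
  -- a good pair
  have hex : ∃ q : (Fin k → Fin Bq) × (Fin k → Fin Bq), (∀ l, q.1 l ≠ q.2 l) ∧
      η' / 2 ≤ ‖avc (fun a : Fin J => ee (wey_sl k Bq p q * ((a : ℕ) : ℝ)))‖ := by
    by_contra hcon
    push Not at hcon
    have h2 : avr (fun q : (Fin k → Fin Bq) × (Fin k → Fin Bq) =>
        ‖avc (fun a : Fin J => ee (wey_sl k Bq p q * ((a : ℕ) : ℝ)))‖) ≤
        pr (fun p : (Fin k → Fin Bq) × (Fin k → Fin Bq) => ∃ l, p.1 l = p.2 l) + η' / 2 := by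
      unfold pr
      rw [← wey_add]
      apply avr_mono
      intro q
      split_ifs with h
      · have := avc_norm_le (fun a : Fin J => ee (wey_sl k Bq p q * ((a : ℕ) : ℝ)))
          (fun a => (norm_ee _).le)
        linarith
      · push Not at h
        have := hcon q h
        linarith
    have h4 := wey_bad k Bq hBq1
    linarith
  obtain ⟨q, hq1, hq2⟩ := hex
  have hJr : (0 : ℝ) < J := by exact_mod_cast hJ
  set β : ℝ := wey_sl k Bq p q with hβ
  -- the geometric sum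
  have hgeo := geo J hJ β
  have hβ1 : ‖ee β - 1‖ ≤ 4 / η' / J := by
    rw [div_div, le_div_iff₀ (by positivity)]
    have h3 : η' / 2 * J * ‖ee β - 1‖ ≤ 2 :=
      le_trans (mul_le_mul_of_nonneg_right (mul_le_mul_of_nonneg_right hq2 hJr.le) (norm_nonneg _)) hgeo
    linarith
  -- the integer
  set h : ℤ := ((k + 1).factorial : ℤ) * ∏ l, (((q.1 l : ℕ) : ℤ) - ((q.2 l : ℕ) : ℤ)) with hh
  have hβh : β = (h : ℝ) * p.coeff (k + 1) := by
    rw [hβ, hh]
    unfold wey_sl
    push_cast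
    rfl
  have hh0 : h ≠ 0 := by
    rw [hh]
    refine mul_ne_zero (by exact_mod_cast (Nat.factorial_pos _).ne') ?_
    refine Finset.prod_ne_zero_iff.mpr fun l _ => ?_
    intro h0
    apply hq1 l
    apply Fin.ext
    have : ((q.1 l : ℕ) : ℤ) = ((q.2 l : ℕ) : ℤ) := by linarith
    exact_mod_cast this
  have hhT : h.natAbs ≤ T := by
    rw [hh, Int.natAbs_mul, hT]
    refine Nat.mul_le_mul (by simp) ?_
    have h5 : ∀ s : Finset (Fin k), (∏ l ∈ s, (((q.1 l : ℕ) : ℤ) - ((q.2 l : ℕ) : ℤ))).natAbs ≤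
        Bq ^ s.card := by
      intro s
      induction s using Finset.induction_on with
      | empty => simp
      | insert a s ha ih =>
        rw [Finset.prod_insert ha, Int.natAbs_mul, Finset.card_insert_of_notMem ha, pow_succ, mul_comm]
        refine Nat.mul_le_mul ih ?_
        have h6 := (q.1 a).isLt
        have h7 := (q.2 a).isLt
        omega
    have h8 := h5 Finset.univ
    rwa [Finset.card_univ, Fintype.card_fin] at h8
  have hdvd : h.natAbs ∣ H := Nat.dvd_factorial (Int.natAbs_pos.mpr hh0) hhT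
  obtain ⟨l, hl⟩ := hdvd
  have hlH : l ≤ H := by
    rw [hl]
    exact Nat.le_mul_of_pos_left l (Int.natAbs_pos.mpr hh0)
  have hcoef : ‖ee (H * p.coeff (k + 1)) - 1‖ ≤ l * ‖ee β - 1‖ := by
    have hHl : (H : ℝ) = |(h : ℝ)| * l := by
      rw [hl, Nat.cast_mul, Nat.cast_natAbs, Int.cast_abs]
    rcases abs_choice (h : ℝ) with h9 | h9
    · have h10 : (H : ℝ) * p.coeff (k + 1) = l * β := by
        rw [hHl, h9, hβh]; ring
      rw [h10]
      exact norm_ee_nat_mul_sub_one l β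
    · have h10 : (H : ℝ) * p.coeff (k + 1) = l * (-β) := by
        rw [hHl, h9, hβh]; ring
      rw [h10]
      refine (norm_ee_nat_mul_sub_one l (-β)).trans (le_of_eq ?_)
      rw [norm_ee_neg_sub_one]
  refine hcoef.trans ?_
  have hlr : (l : ℝ) ≤ H := by exact_mod_cast hlH
  calc (l : ℝ) * ‖ee β - 1‖ ≤ H * (4 / η' / J) := by
        refine mul_le_mul hlr hβ1 (norm_nonneg _) (Nat.cast_nonneg _)
    _ = 4 * H / η' / J := by ring

end Pool.Agent.Lib.MP_90b327_co.LS
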