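import Mathlib
import Pool.Agent.Lib.MP_90b327_co.LS.Wey
import Pool.Agent.Lib.MP_90b327_co.LS.MMul
import Pool.Agent.Lib.MP_90b327_co.LS.Grp

/-!
Module Pos (75 min): a scale on which `ph K` is large gives the structure of the top coefficient.

PROOF. Case `s = s' + 1`. `η := ε^(2^s) / 2`. `B0` from `weyl D η`. Given `q`, `Bq`: `(H1, C)` from `weyl`, `H2` from `mmul s η`; `H := H1 * H2`.
Given `κ`: let `κ2 > 0` be `κ` and `(m0, τ)` from `mmul` for `κ2`; `m := m0`; `J0 := max (s * m) ⌈C/τ⌉ + 1`. Let `J ≥ J0`, `Q ≥ 1`.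
Every `n` of the scale satisfies `n ≥ J ≥ s m`, so by `grp` `‖ph K n‖^(2^s) ≤ Re avc_{p} ee(T_p(n))`, where
`T_p(n) = (P_p).eval n` with the polynomial `P_p := Σ_r Σ_ω sgn ω • K (ms (pick ω ..))` of natDegree `≤ D` (`ms` has card `s`, `Cls.top`), whose
coefficient of degree `D` is `Σ_r box (fun y => (K (ms y)).coeff D) (p.1 · (r ·)) (p.2 · (r ·))`.
`2 η = ε^(2^s) ≤ ‖sc‖^(2^s) ≤ avr ‖ph K n‖^(2^s)` (triangle inequality and `avr_pow_le`; if the scale type is empty `sc = 0`), so (Fubini)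
`2 η ≤ avr_p ‖avc_{x in scale} ee(T_p(n(x)))‖`, hence `P_p(‖..‖ ≥ η) ≥ η` (all values are `≤ 1`).
For such `p` use `weyl` with the polynomial `t ↦ P_p(Q t)` (`P_p.comp (C Q * X)`, coefficient of degree `D` is `Q^D * coeff`):
`‖ee(H1 Q^D Σ_r box ..) - 1‖ ≤ C/J ≤ τ`. With `W := V × V`, `σ = swap`, `g(w) := H1 * Q^D * box (fun y => (K (ms y)).coeff D) (fst ∘ w) (snd ∘ w)`
(antisymmetric in each variable: exchanging `x l` and `y l` changes the sign of `box`: reindex `ω` by flipping `ω l`), and the equivalence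
`(Fin s → Fin m → V × V) ≃ (Fin s → Fin m → V) × (Fin s → Fin m → V)`, `mmul` gives `P_{w}(‖ee(H2 g(w)) - 1‖ ≤ κ) ≥ 1 - κ`, `w : Fin s → V × V`, i.e.
`(x, y)`; by Fubini some `y` has `P_x ≥ 1 - κ` (`exists_le_of_avr`).
Case `s = 0`: only `B = ∅` contributes to `Ph` (`Cls.big`), `ph K n = ee((K 0).eval n)`, `box F x y = F x`, the space `Fin 0 → V` has one point; `weyl` with `η = ε`
applied to `(K 0).comp (C Q * X)`, `H := H1`, `J0` with `C / J0 ≤ κ`.
-/

set_option autoImplicit false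

namespace Pool.Agent.Lib.MP_90b327_co.LS

open Finset Polynomial
open scoped BigOperators

private lemma pos_weyl (D q Bq H1 Q J : ℕ) (η Cc : ℝ)
    (hw : ∀ J : ℕ, 1 ≤ J → ∀ p : ℝ[X], p.natDegree ≤ D →
        η ≤ ‖avc (fun x : Fin J × (Fin q → Fin Bq) =>
          ee (p.eval (((J + (x.1 : ℕ) + ∑ i, (x.2 i : ℕ) : ℕ)) : ℝ)))‖ →
        ‖ee (H1 * p.coeff D) - 1‖ ≤ Cc / J) (hJ : 1 ≤ J) (P : ℝ[X]) (hP : P.natDegree ≤ D)
    (h : η ≤ ‖avc (fun x : Fin J × (Fin q → Fin Bq) => ee (P.eval ((scn Q J q Bq x : ℕ) : ℝ)))‖) :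
    ‖ee (((H1 * Q ^ D : ℕ) : ℝ) * P.coeff D) - 1‖ ≤ Cc / J := by
  have h1 := hw J hJ (P.comp (C (Q : ℝ) * X)) (by
    refine natDegree_comp_le.trans ?_
    calc P.natDegree * (C (Q : ℝ) * X).natDegree ≤ D * 1 :=
          Nat.mul_le_mul hP ((natDegree_C_mul_le _ _).trans natDegree_X_le)
      _ = D := mul_one _) (by
    refine h.trans (le_of_eq ?_)
    congr 2
    funext x
    congr 1
    rw [eval_comp]
    congr 1
    simp [scn])
  rw [comp_C_mul_X_coeff] at h1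
  have h2 : ((H1 * Q ^ D : ℕ) : ℝ) * P.coeff D = H1 * (P.coeff D * (Q : ℝ) ^ D) := by
    push_cast
    ring
  rw [h2]
  exact h1

private lemma pos_sgn_flip {s : ℕ} (ω : Fin s → Bool) (l : Fin s) :
    sgn (Function.update ω l (!ω l)) = - sgn ω := by
  classical
  unfold sgn
  rw [← Finset.mul_prod_erase univ (fun i => if ω i then (-1 : ℝ) else 1) (Finset.mem_univ l),
    ← Finset.mul_prod_erase univ (fun i => if Function.update ω l (!ω l) i then (-1 : ℝ) else 1)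
      (Finset.mem_univ l)]
  have h1 : ∏ i ∈ univ.erase l, (if Function.update ω l (!ω l) i then (-1 : ℝ) else 1) =
      ∏ i ∈ univ.erase l, (if ω i then (-1 : ℝ) else 1) := by
    apply Finset.prod_congr rfl
    intro i hi
    rw [Function.update_of_ne (Finset.ne_of_mem_erase hi)]
  rw [h1]
  simp only [Function.update_self]
  cases ω l <;> simp

private lemma pos_box_flip {s : ℕ} {V : Type} (F : (Fin s → V) → ℝ) (w : Fin s → V × V) (l : Fin s) :
    box F (fun i => (Function.update w l ((w l).2, (w l).1) i).1)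
      (fun i => (Function.update w l ((w l).2, (w l).1) i).2) =
    - box F (fun i => (w i).1) (fun i => (w i).2) := by
  classical
  unfold box
  have hinv : Function.Involutive (fun ω : Fin s → Bool => Function.update ω l (!ω l)) := by
    intro ω
    funext i
    by_cases hi : i = l
    · subst hi
      simp
    · simp [Function.update_of_ne hi]
  rw [← Equiv.sum_comp (Function.Involutive.toPerm _ hinv), ← Finset.sum_neg_distrib]
  apply Finset.sum_congr rfl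
  intro ω _
  rw [Function.Involutive.coe_toPerm, pos_sgn_flip, neg_mul]
  congr 3
  funext i
  unfold pick
  by_cases hi : i = l
  · subst hi
    simp only [Function.update_self]
    cases ω i <;> simp
  · simp only [Function.update_of_ne hi]

private lemma pos_zero (D : ℕ) (hD : 1 ≤ D) (ε : ℝ) (hε : 0 < ε) :
    ∃ B0 : ℕ, 1 ≤ B0 ∧ ∀ q Bq : ℕ, D ≤ q + 1 → B0 ≤ Bq → ∃ H : ℕ, 1 ≤ H ∧ ∀ κ : ℝ, 0 < κ →
      ∃ J0 : ℕ, ∀ J : ℕ, J0 ≤ J → ∀ Q : ℕ, 1 ≤ Q → ∀ (V : Type) [Fintype V] [Nonempty V]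
        (K : Multiset V → ℝ[X]) (E : ℕ), Cls 0 D E K → ε ≤ ‖sc Q J q Bq (ph K)‖ →
        ∃ y : Fin 0 → V, 1 - κ ≤ pr (fun x : Fin 0 → V =>
          ‖ee (((H * Q ^ D : ℕ) : ℝ) * box (fun z => (K (ms z)).coeff D) x y) - 1‖ ≤ κ) := by
  classical
  obtain ⟨B0, hB0, hW⟩ := weyl D hD ε hε
  refine ⟨B0, hB0, ?_⟩
  intro q Bq hq hBq
  obtain ⟨H, Cc, hH, hC, hw⟩ := hW q Bq hq hBq
  refine ⟨H, hH, ?_⟩
  intro κ hκ
  refine ⟨⌈Cc / κ⌉₊ + 1, ?_⟩
  intro J hJ Q _ V _ _ K E hK hsc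
  have hJ1 : 1 ≤ J := le_trans (Nat.le_add_left _ _) hJ
  have hJpos : (0 : ℝ) < J := by exact_mod_cast hJ1
  have hph : ∀ n, ph K n = ee ((K 0).eval (n : ℝ)) := by
    intro n
    unfold ph
    have h1 : (fun u : Fin n → V => ee (Ph K u)) = fun _ => ee ((K 0).eval (n : ℝ)) := by
      funext u
      congr 1
      unfold Ph
      rw [Finset.sum_eq_single ∅]
      · simp
      · intro B _ hB
        rw [hK.big _ (by
          rw [Multiset.card_map]
          exact Finset.card_pos.mpr (Finset.nonempty_iff_ne_empty.mpr hB))]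
        simp
      · intro h
        exact absurd (Finset.mem_univ _) h
    rw [h1, avc_const]
  have h2 := pos_weyl D q Bq H Q J ε Cc hw hJ1 (K 0) (hK.top 0 (by simp)) (by
    refine hsc.trans (le_of_eq ?_)
    unfold sc
    congr 2
    funext x
    exact hph _)
  have h3 : Cc / J ≤ κ := by
    rw [div_le_iff₀ hJpos, mul_comm]
    have h4 : Cc / κ ≤ J := by
      refine (Nat.le_ceil _).trans ?_
      exact_mod_cast (Nat.le_succ _).trans hJ
    rw [div_le_iff₀ hκ] at h4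
    exact h4
  refine ⟨fun i => i.elim0, ?_⟩
  have h5 : ∀ x : Fin 0 → V,
      ‖ee (((H * Q ^ D : ℕ) : ℝ) * box (fun z => (K (ms z)).coeff D) x (fun i => i.elim0)) - 1‖ ≤ κ := by
    intro x
    have h6 : box (fun z : Fin 0 → V => (K (ms z)).coeff D) x (fun i => i.elim0) = (K 0).coeff D := by
      unfold box
      rw [Fintype.sum_unique]
      unfold sgn ms
      simp
    rw [h6]
    exact h2.trans h3
  have h7 : pr (fun x : Fin 0 → V =>
      ‖ee (((H * Q ^ D : ℕ) : ℝ) * box (fun z => (K (ms z)).coeff D) x (fun i => i.elim0)) - 1‖ ≤ κ) = 1 := by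
    unfold pr
    rw [← avr_const (α := Fin 0 → V) 1]
    congr 1
    funext x
    rw [if_pos (h5 x), avr_const]
  rw [h7]
  linarith

private lemma pos_half {α : Type} [Fintype α] [Nonempty α] (A : α → ℝ) (η : ℝ)
    (h1 : ∀ x, A x ≤ 1) (h0 : 0 ≤ η) (h : 2 * η ≤ avr A) : η ≤ pr (fun x => η ≤ A x) := by
  classical
  have h2 : avr A ≤ avr (fun x => (if η ≤ A x then (1 : ℝ) else 0) + η) := by
    apply avr_mono
    intro x
    split_ifs with hx
    · linarith [h1 x]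
    · linarith [not_le.mp hx]
  have h3 : avr (fun x => (if η ≤ A x then (1 : ℝ) else 0) + η) = pr (fun x => η ≤ A x) + η := by
    have h4 : avr (fun _ : α => η) = η := avr_const η
    have h5 : avr (fun x => (if η ≤ A x then (1 : ℝ) else 0) + η) =
        pr (fun x => η ≤ A x) + avr (fun _ : α => η) := by
      unfold pr avr
      rw [Finset.sum_add_distrib, add_div]
    rw [h5, h4]
  rw [h3] at h2
  linarith

private def pos_e2 (s m : ℕ) (V : Type) : (Fin s → Fin m → V × V) ≃ (Fin s → Fin m → V) × (Fin s → Fin m → V) where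
  toFun w := (fun l i => (w l i).1, fun l i => (w l i).2)
  invFun p := fun l i => (p.1 l i, p.2 l i)
  left_inv _ := rfl
  right_inv _ := rfl

private def pos_e1 (s : ℕ) (V : Type) : (Fin s → V × V) ≃ (Fin s → V) × (Fin s → V) where
  toFun w := (fun l => (w l).1, fun l => (w l).2)
  invFun p := fun l => (p.1 l, p.2 l)
  left_inv _ := rfl
  right_inv _ := rfl

private lemma pos_succ (s D : ℕ) (hD : 1 ≤ D) (ε : ℝ) (hε : 0 < ε) :
    ∃ B0 : ℕ, 1 ≤ B0 ∧ ∀ q Bq : ℕ, D ≤ q + 1 → B0 ≤ Bq → ∃ H : ℕ, 1 ≤ H ∧ ∀ κ : ℝ, 0 < κ →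
      ∃ J0 : ℕ, ∀ J : ℕ, J0 ≤ J → ∀ Q : ℕ, 1 ≤ Q → ∀ (V : Type) [Fintype V] [Nonempty V]
        (K : Multiset V → ℝ[X]) (E : ℕ), Cls (s + 1) D E K → ε ≤ ‖sc Q J q Bq (ph K)‖ →
        ∃ y : Fin (s + 1) → V, 1 - κ ≤ pr (fun x : Fin (s + 1) → V =>
          ‖ee (((H * Q ^ D : ℕ) : ℝ) * box (fun z => (K (ms z)).coeff D) x y) - 1‖ ≤ κ) := by
  classical
  set η : ℝ := ε ^ (2 ^ (s + 1)) / 2 with hη
  have hηpos : 0 < η := by positivity
  obtain ⟨B0, hB0, hW⟩ := weyl D hD η hηpos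
  refine ⟨B0, hB0, ?_⟩
  intro q Bq hq hBq
  obtain ⟨H1, Cc, hH1, hC, hw⟩ := hW q Bq hq hBq
  obtain ⟨H2, hH2, hM⟩ := mmul (s + 1) η hηpos
  refine ⟨H1 * H2, Nat.mul_pos hH1 hH2, ?_⟩
  intro κ hκ
  obtain ⟨m, τ, hτ, hm⟩ := hM κ hκ
  refine ⟨max ((s + 1) * m) (⌈Cc / τ⌉₊ + 1), ?_⟩
  intro J hJ Q hQ V _ _ K E hK hsc
  have hJa : (s + 1) * m ≤ J := (le_max_left _ _).trans hJ
  have hJb : ⌈Cc / τ⌉₊ + 1 ≤ J := (le_max_right _ _).trans hJ
  have hJ1 : 1 ≤ J := le_trans (Nat.le_add_left _ _) hJb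
  have hJpos : (0 : ℝ) < J := by exact_mod_cast hJ1
  have hCJ : Cc / J ≤ τ := by
    rw [div_le_iff₀ hJpos, mul_comm]
    have h4 : Cc / τ ≤ J := by
      refine (Nat.le_ceil _).trans ?_
      exact_mod_cast (Nat.le_succ _).trans hJb
    rw [div_le_iff₀ hτ] at h4
    exact h4
  have hBq1 : 1 ≤ Bq := hB0.trans hBq
  have hneJ : Nonempty (Fin J) := ⟨⟨0, hJ1⟩⟩
  have hneB : Nonempty (Fin Bq) := ⟨⟨0, hBq1⟩⟩
  have hn : ∀ x : Fin J × (Fin q → Fin Bq), (s + 1) * m ≤ scn Q J q Bq x := by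
    intro x
    unfold scn
    calc (s + 1) * m ≤ J := hJa
      _ ≤ 1 * (J + (x.1 : ℕ) + ∑ i, (x.2 i : ℕ)) := by omega
      _ ≤ _ := Nat.mul_le_mul_right _ hQ
  -- the polynomials
  let Y := (Fin (s + 1) → Fin m → V) × (Fin (s + 1) → Fin m → V)
  let PP : Y → ℝ[X] := fun p => ∑ r : Fin (s + 1) → Fin m, ∑ ω : Fin (s + 1) → Bool,
    C (sgn ω) * K (ms (pick ω (fun l => p.1 l (r l)) (fun l => p.2 l (r l))))
  have hPPeval : ∀ (p : Y) (t : ℝ), (PP p).eval t = ∑ r : Fin (s + 1) → Fin m,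
      box (fun y : Fin (s + 1) → V => (K (ms y)).eval t)
            (fun l => p.1 l (r l)) (fun l => p.2 l (r l)) := by
    intro p t
    unfold box
    show (∑ r : Fin (s + 1) → Fin m, ∑ ω : Fin (s + 1) → Bool,
      C (sgn ω) * K (ms (pick ω (fun l => p.1 l (r l)) (fun l => p.2 l (r l))))).eval t = _
    rw [eval_finsetSum]
    apply Finset.sum_congr rfl
    intro r _
    rw [eval_finsetSum]
    apply Finset.sum_congr rfl
    intro ω _
    rw [eval_mul, eval_C]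
  have hPPcoeff : ∀ (p : Y), (PP p).coeff D = ∑ r : Fin (s + 1) → Fin m,
      box (fun y : Fin (s + 1) → V => (K (ms y)).coeff D)
            (fun l => p.1 l (r l)) (fun l => p.2 l (r l)) := by
    intro p
    unfold box
    show (∑ r : Fin (s + 1) → Fin m, ∑ ω : Fin (s + 1) → Bool,
      C (sgn ω) * K (ms (pick ω (fun l => p.1 l (r l)) (fun l => p.2 l (r l))))).coeff D = _
    rw [finsetSum_coeff]
    apply Finset.sum_congr rfl
    intro r _
    rw [finsetSum_coeff]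
    apply Finset.sum_congr rfl
    intro ω _
    rw [coeff_C_mul]
  have hPPdeg : ∀ p : Y, (PP p).natDegree ≤ D := by
    intro p
    apply natDegree_sum_le_of_forall_le
    intro r _
    apply natDegree_sum_le_of_forall_le
    intro ω _
    exact (natDegree_C_mul_le _ _).trans (hK.top _ (card_ms _))
  let A : Y → ℝ := fun p => ‖avc (fun x : Fin J × (Fin q → Fin Bq) =>
    ee ((PP p).eval ((scn Q J q Bq x : ℕ) : ℝ)))‖
  have hA1 : ∀ p, A p ≤ 1 := fun p => avc_norm_le _ (fun x => (norm_ee _).le)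
  have hAavg : 2 * η ≤ avr A := by
    calc 2 * η = ε ^ (2 ^ (s + 1)) := by rw [hη]; ring
      _ ≤ ‖sc Q J q Bq (ph K)‖ ^ (2 ^ (s + 1)) := pow_le_pow_left₀ hε.le hsc _
      _ ≤ (avr (fun x : Fin J × (Fin q → Fin Bq) => ‖ph K (scn Q J q Bq x)‖)) ^ (2 ^ (s + 1)) :=
          pow_le_pow_left₀ (norm_nonneg _) (avc_norm_le_avr _) _
      _ ≤ avr (fun x : Fin J × (Fin q → Fin Bq) => ‖ph K (scn Q J q Bq x)‖ ^ (2 ^ (s + 1))) :=
          avr_pow_le _ (fun _ => norm_nonneg _) _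
      _ ≤ avr (fun x : Fin J × (Fin q → Fin Bq) => (avc (fun p : Y =>
            ee ((PP p).eval ((scn Q J q Bq x : ℕ) : ℝ)))).re) := by
          apply avr_mono
          intro x
          refine (grp s m (scn Q J q Bq x) (hn x) K hK.big).trans (le_of_eq ?_)
          congr 2
          funext p
          rw [hPPeval]
      _ = (avc (fun x : Fin J × (Fin q → Fin Bq) => avc (fun p : Y =>
            ee ((PP p).eval ((scn Q J q Bq x : ℕ) : ℝ))))).re := (avc_re _).symm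
      _ = (avc (fun p : Y => avc (fun x : Fin J × (Fin q → Fin Bq) =>
            ee ((PP p).eval ((scn Q J q Bq x : ℕ) : ℝ))))).re := by rw [avc_comm]
      _ ≤ ‖avc (fun p : Y => avc (fun x : Fin J × (Fin q → Fin Bq) =>
            ee ((PP p).eval ((scn Q J q Bq x : ℕ) : ℝ))))‖ := Complex.re_le_norm _
      _ ≤ avr A := avc_norm_le_avr _
  have hpr1 : η ≤ pr (fun p : Y => η ≤ A p) := pos_half A η hA1 hηpos.le hAavg
  let g : (Fin (s + 1) → V × V) → ℝ := fun w =>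
    ((H1 * Q ^ D : ℕ) : ℝ) * box (fun z => (K (ms z)).coeff D) (fun l => (w l).1) (fun l => (w l).2)
  have hg : ∀ l w, g (Function.update w l ((Equiv.prodComm V V) (w l))) = - g w := by
    intro l w
    show ((H1 * Q ^ D : ℕ) : ℝ) * box (fun z => (K (ms z)).coeff D)
      (fun i => (Function.update w l ((w l).2, (w l).1) i).1)
      (fun i => (Function.update w l ((w l).2, (w l).1) i).2) = _
    rw [pos_box_flip, mul_neg]
  have hpr2 : η ≤ pr (fun w : Fin (s + 1) → Fin m → V × V =>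
      ‖ee (∑ r : Fin (s + 1) → Fin m, g (fun l => w l (r l))) - 1‖ ≤ τ) := by
    refine hpr1.trans ?_
    rw [← pr_equiv (pos_e2 (s + 1) m V) (fun p : Y => η ≤ A p)]
    apply pr_mono
    intro w hw'
    have h5 := pos_weyl D q Bq H1 Q J η Cc hw hJ1 (PP (pos_e2 (s + 1) m V w)) (hPPdeg _) hw'
    rw [hPPcoeff, Finset.mul_sum] at h5
    exact h5.trans hCJ
  have hpr3 := hm m le_rfl (V × V) (Equiv.prodComm V V) g hg hpr2
  -- choose y
  have hpr4 : 1 - κ ≤ avr (fun y : Fin (s + 1) → V => avr (fun x : Fin (s + 1) → V =>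
      if ‖ee (((H1 * H2 * Q ^ D : ℕ) : ℝ) * box (fun z => (K (ms z)).coeff D) x y) - 1‖ ≤ κ
        then (1 : ℝ) else 0)) := by
    refine hpr3.trans (le_of_eq ?_)
    rw [avr_comm, ← avr_prod, ← avr_equiv (pos_e1 (s + 1) V)]
    unfold pr
    congr 1
    funext w
    have h6 : (H2 : ℝ) * g w = ((H1 * H2 * Q ^ D : ℕ) : ℝ) *
        box (fun z => (K (ms z)).coeff D) (pos_e1 (s + 1) V w).1 (pos_e1 (s + 1) V w).2 := by
      show (H2 : ℝ) * (((H1 * Q ^ D : ℕ) : ℝ) * box (fun z => (K (ms z)).coeff D)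
        (fun l => (w l).1) (fun l => (w l).2)) = ((H1 * H2 * Q ^ D : ℕ) : ℝ) *
        box (fun z => (K (ms z)).coeff D) (fun l => (w l).1) (fun l => (w l).2)
      push_cast
      ring
    show (if ‖ee ((H2 : ℝ) * g w) - 1‖ ≤ κ then (1 : ℝ) else 0) = _
    rw [h6]
  obtain ⟨y, hy⟩ := exists_le_of_avr _ _ hpr4
  exact ⟨y, hy⟩

theorem pos (s D : ℕ) (hD : 1 ≤ D) (ε : ℝ) (hε : 0 < ε) :
    ∃ B0 : ℕ, 1 ≤ B0 ∧ ∀ q Bq : ℕ, D ≤ q + 1 → B0 ≤ Bq → ∃ H : ℕ, 1 ≤ H ∧ ∀ κ : ℝ, 0 < κ →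
      ∃ J0 : ℕ, ∀ J : ℕ, J0 ≤ J → ∀ Q : ℕ, 1 ≤ Q → ∀ (V : Type) [Fintype V] [Nonempty V]
        (K : Multiset V → ℝ[X]) (E : ℕ), Cls s D E K → ε ≤ ‖sc Q J q Bq (ph K)‖ →
        ∃ y : Fin s → V, 1 - κ ≤ pr (fun x : Fin s → V =>
          ‖ee (((H * Q ^ D : ℕ) : ℝ) * box (fun z => (K (ms z)).coeff D) x y) - 1‖ ≤ κ) := by
  rcases s with _ | s
  · exact pos_zero D hD ε hε
  · exact pos_succ s D hD ε hε

end Pool.Agent.Lib.MP_90b327_co.LS
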