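import Mathlib
import Pool.Agent.Lib.MP_90b327_co.LS.Def

/-!
Module InjA (30 min): sums over injections and sums over subsets.

PROOF. An injection `Fin j ↪ ι` is a subset `B` of `ι` with `j` elements (its range) together with a bijection `Fin j ≃ B` (`j!` of them), and
`ms (u ∘ i)` depends on `B` only: it is `B.val.map u`. (Sum over fibers of `i ↦ univ.map i : Finset ι`, `Finset.sum_fiberwise`; the fiber over
`B` with `B.card = j` has `j!` elements: it is equivalent to `Fin j ≃ B`, `Fintype.card_equiv`, or `Fintype.card_embedding_eq`.)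
-/

set_option autoImplicit false

namespace Pool.Agent.Lib.MP_90b327_co.LS

open Finset Polynomial
open scoped BigOperators

private theorem card_fiber_inja {ι : Type} [Fintype ι] [DecidableEq ι] (j : ℕ) (B : Finset ι) (hB : B.card = j) :
    ((univ : Finset (Fin j ↪ ι)).filter (fun i => (univ : Finset (Fin j)).map i = B)).card = j.factorial := by
  have h1 : Fintype.card (Fin j ↪ ↥B) = j.factorial := by
    rw [Fintype.card_embedding_eq, Fintype.card_coe, hB, Fintype.card_fin, Nat.descFactorial_self]
  rw [← h1, ← Finset.card_univ]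
  symm
  refine Finset.card_bij (fun i' _ => i'.trans (Function.Embedding.subtype _)) ?_ ?_ ?_
  · intro i' _
    rw [Finset.mem_filter]
    refine ⟨Finset.mem_univ _, Finset.eq_of_subset_of_card_le ?_ ?_⟩
    · intro x hx
      rw [Finset.mem_map] at hx
      obtain ⟨l, -, rfl⟩ := hx
      exact (i' l).2
    · rw [Finset.card_map, Finset.card_univ, Fintype.card_fin, hB]
  · intro a _ b _ hab
    ext l
    exact congrArg (fun g : Fin j ↪ ι => g l) hab
  · intro i hi
    rw [Finset.mem_filter] at hi
    have hmem : ∀ l, i l ∈ B := fun l => by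
      rw [← hi.2]
      exact Finset.mem_map_of_mem i (Finset.mem_univ l)
    refine ⟨⟨fun l => ⟨i l, hmem l⟩, fun a b hab => i.injective (congrArg Subtype.val hab)⟩,
      Finset.mem_univ _, ?_⟩
    ext l
    rfl

theorem sum_emb {V ι : Type} [Fintype ι] [DecidableEq ι] (j : ℕ) (f : Multiset V → ℝ) (u : ι → V) :
    ∑ i : Fin j ↪ ι, f (ms (fun l => u (i l))) =
      (j.factorial : ℝ) * ∑ B ∈ (univ : Finset ι).powersetCard j, f (B.val.map u) := by
  have hm : ∀ i ∈ (univ : Finset (Fin j ↪ ι)), (univ : Finset (Fin j)).map i ∈ (univ : Finset ι).powersetCard j := by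
    intro i _
    rw [Finset.mem_powersetCard]
    exact ⟨Finset.subset_univ _, by rw [Finset.card_map, Finset.card_univ, Fintype.card_fin]⟩
  rw [← Finset.sum_fiberwise_of_maps_to hm, Finset.mul_sum]
  refine Finset.sum_congr rfl fun B hB => ?_
  have h2 : ∀ i ∈ (univ : Finset (Fin j ↪ ι)).filter (fun i => (univ : Finset (Fin j)).map i = B),
      f (ms (fun l => u (i l))) = f (B.val.map u) := by
    intro i hi
    rw [Finset.mem_filter] at hi
    congr 1
    rw [← hi.2, Finset.map_val, Multiset.map_map]
    rfl
  rw [Finset.sum_congr rfl h2, Finset.sum_const, card_fiber_inja j B (Finset.mem_powersetCard.1 hB).2, nsmul_eq_mul]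

end Pool.Agent.Lib.MP_90b327_co.LS
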