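import Mathlib
import Pool.Agent.Lib.MP_90b327_co.LS.Def

/-!
Module InjB (60 min): marginalisation of sums over injections.

Let `ω : Fin s → Bool`, `j` the number of `l` with `ω l = false`. For an injection `i : Fin s ↪ Fin n` the multiset
`ms (pick ω (u ∘ i) y)` is `(values of u ∘ i on {ω = false}) + (values of y on {ω = true})`.
PROOF. (1) Choose an equivalence `{l // ω l = false} ≃ Fin j`. The map `i ↦ i|_{ω = false}` from `Fin s ↪ Fin n` to `Fin j ↪ Fin n` has
all fibers of cardinality `(n - j) (n - j - 1) .. (n - s + 1)` = `∏ r ∈ Ico j s, (n - r)` (as real numbers, also when `n < s`: then for `n ≥ j` both sides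
vanish, and for `n < j` there are no injections at all). E.g. by induction on the number of `l` with `ω l = true`, one at a time, each injection of
`k` points extends in `n - k` ways (`Equiv.embeddingFinSucc`, `Equiv.sumEmbeddingEquivSigmaEmbeddingRestricted`, `Fintype.card_embedding_eq`,
`Nat.descFactorial`; the last equivalence `(α ⊕ β ↪ γ) ≃ Σ f : α ↪ γ, β ↪ ↥(Set.range f)ᶜ` with `α = {ω = false}`, `β = {ω = true}` gives the fibers at once:
`Fintype.card (β ↪ (range f)ᶜ) = (n - j).descFactorial (s - j)`).
(2) The summand is `f (ms (u ∘ i') + y_ω)`.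
-/

set_option autoImplicit false

namespace Pool.Agent.Lib.MP_90b327_co.LS

open Finset Polynomial
open scoped BigOperators

/-- the multiset of the `y l` with `ω l = true` -/
def yw {s : ℕ} {V : Type} (ω : Fin s → Bool) (y : Fin s → V) : Multiset V :=
  ((univ : Finset (Fin s)).filter (fun l => ω l = true)).val.map y

private theorem injB_map_subtype {s : ℕ} {V : Type} (ω : Fin s → Bool) (h : Fin s → V) :
    ((univ : Finset (Fin s)).filter (fun l => ω l = false)).val.map h =
      (univ : Finset {l : Fin s // ω l = false}).val.map (fun a => h a.1) := by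
  have h1 : (univ : Finset (Fin s)).filter (fun l => ω l = false) =
      (univ : Finset {l : Fin s // ω l = false}).map (Function.Embedding.subtype _) := by
    ext l
    simp
  rw [h1, map_val, Multiset.map_map]
  rfl

private theorem injB_ms_pick {s : ℕ} {V : Type} (ω : Fin s → Bool) (x y : Fin s → V) :
    ms (pick ω x y) = (univ : Finset {l : Fin s // ω l = false}).val.map (fun a => x a.1) + yw ω y := by
  unfold ms yw
  have h1 : (univ : Finset (Fin s)).val = ((univ : Finset (Fin s)).filter (fun l => ω l = false)).val +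
      ((univ : Finset (Fin s)).filter (fun l => ω l = true)).val := by
    have h2 : (univ : Finset (Fin s)).filter (fun l => ω l = true) =
        (univ : Finset (Fin s)).filter (fun l => ¬ ω l = false) := by
      refine filter_congr fun l _ => ?_
      simp
    rw [h2, filter_val, filter_val, Multiset.filter_add_not]
  rw [h1, Multiset.map_add, ← injB_map_subtype]
  congr 1
  · apply Multiset.map_congr rfl
    intro l hl
    have : ω l = false := by
      rw [filter_val, Multiset.mem_filter] at hl
      exact hl.2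
    simp [pick, this]
  · apply Multiset.map_congr rfl
    intro l hl
    have : ω l = true := by
      rw [filter_val, Multiset.mem_filter] at hl
      exact hl.2
    simp [pick, this]

private theorem injB_desc (n j s : ℕ) (hjn : j ≤ n) :
    (((n - j).descFactorial (s - j) : ℕ) : ℝ) = ∏ r ∈ Finset.Ico j s, ((n : ℝ) - (r : ℝ)) := by
  rw [← descPochhammer_eval_eq_descFactorial, descPochhammer_eval_eq_prod_range,
    prod_Ico_eq_prod_range]
  refine prod_congr rfl fun i _ => ?_
  rw [Nat.cast_sub hjn]
  push_cast
  ring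

theorem sum_emb_pick {V : Type} (s n j : ℕ) (ω : Fin s → Bool)
    (hj : ((univ : Finset (Fin s)).filter (fun l => ω l = false)).card = j)
    (f : Multiset V → ℝ) (u : Fin n → V) (y : Fin s → V) :
    ∑ i : Fin s ↪ Fin n, f (ms (pick ω (fun l => u (i l)) y)) =
      (∏ r ∈ Finset.Ico j s, ((n : ℝ) - (r : ℝ))) *
        ∑ i : Fin j ↪ Fin n, f (ms (fun l => u (i l)) + yw ω y) := by
  classical
  let α : Type := {l : Fin s // ω l = false}
  let β : Type := {l : Fin s // ¬ ω l = false}
  have hα : Fintype.card α = j := by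
    rw [← hj]
    exact Fintype.card_subtype _
  have hβ : Fintype.card β = s - j := by
    have h1 := Fintype.card_subtype_compl (fun l : Fin s => ω l = false)
    rw [Fintype.card_fin] at h1
    rw [← hα]
    exact h1
  let e₀ : α ⊕ β ≃ Fin s := Equiv.sumCompl (fun l : Fin s => ω l = false)
  let E : (Fin s ↪ Fin n) ≃ Σ g : α ↪ Fin n, β ↪ ↥(Set.range g)ᶜ :=
    (Equiv.embeddingCongr e₀.symm (Equiv.refl (Fin n))).trans
      Equiv.sumEmbeddingEquivSigmaEmbeddingRestricted
  have hE : ∀ (i : Fin s ↪ Fin n) (a : α), (E i).1 a = i a.1 := fun i a => rfl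
  let G : (α ↪ Fin n) → ℝ := fun g => f ((univ : Finset α).val.map (fun a => u (g a)) + yw ω y)
  have h1 : ∑ i : Fin s ↪ Fin n, f (ms (pick ω (fun l => u (i l)) y)) =
      ∑ i : Fin s ↪ Fin n, G (E i).1 := by
    refine sum_congr rfl fun i _ => ?_
    rw [injB_ms_pick]
    rfl
  have h2 : ∑ i : Fin s ↪ Fin n, G (E i).1 =
      ∑ x : Σ g : α ↪ Fin n, β ↪ ↥(Set.range g)ᶜ, G x.1 :=
    Equiv.sum_comp E (fun x => G x.1)
  have hcard : ∀ g : α ↪ Fin n, Fintype.card (β ↪ ↥(Set.range g)ᶜ) = (n - j).descFactorial (s - j) := by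
    intro g
    rw [Fintype.card_embedding_eq, hβ]
    congr 1
    rw [Fintype.card_compl_set, Fintype.card_fin, Set.card_range_of_injective g.injective, hα]
  have h3 : ∑ x : Σ g : α ↪ Fin n, β ↪ ↥(Set.range g)ᶜ, G x.1 =
      ∑ g : α ↪ Fin n, (∏ r ∈ Finset.Ico j s, ((n : ℝ) - (r : ℝ))) * G g := by
    rw [Fintype.sum_sigma]
    refine sum_congr rfl fun g _ => ?_
    change ∑ _y : (β ↪ ↥(Set.range g)ᶜ), G g = _
    rw [sum_const, card_univ, hcard g, nsmul_eq_mul, injB_desc]
    have := Fintype.card_le_of_embedding g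
    rwa [hα, Fintype.card_fin] at this
  let eα : α ≃ Fin j := Fintype.equivFinOfCardEq hα
  let E' : (α ↪ Fin n) ≃ (Fin j ↪ Fin n) := Equiv.embeddingCongr eα (Equiv.refl (Fin n))
  have h4 : ∀ g : α ↪ Fin n, G g = f (ms (fun l => u (E' g l)) + yw ω y) := by
    intro g
    change f ((univ : Finset α).val.map (fun a => u (g a)) + yw ω y) = _
    congr 2
    unfold ms
    have h5 : (univ : Finset (Fin j)).val = (univ : Finset α).val.map eα :=
      (Multiset.map_univ_val_equiv eα).symm
    rw [h5, Multiset.map_map]
    refine Multiset.map_congr rfl fun a _ => ?_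
    change u (g a) = u (g (eα.symm (eα a)))
    rw [Equiv.symm_apply_apply]
  rw [h1, h2, h3, ← mul_sum]
  congr 1
  rw [← Equiv.sum_comp E' (fun i => f (ms (fun l => u (i l)) + yw ω y))]
  exact sum_congr rfl fun g _ => h4 g

end Pool.Agent.Lib.MP_90b327_co.LS
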