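import Mathlib
import Pool.Agent.Lib.MP_90b327_co.LS.InjA
import Pool.Agent.Lib.MP_90b327_co.LS.InjB

/-!
Module Rep (60 min): the replacement kernel `rep K s D y`; its class and the exact identity for the phases.

`nf ω` is the number of `l` with `ω l = false`.
`rep`: at multisets `M` of card `s` remove the top coefficient `coeff D`, at `M` of card `j < s` subtract
`Σ_{ω : nf ω = j} sgn ω * (j!/s!) * (K (M + yw ω y)).coeff D * X^D * Π_{r ∈ Ico j s} (X - r)`.
PROOF of `rep_cls`: `zero`: all added terms are multiples of `X^D`, `D ≥ 1`. `top`: a polynomial of natDegree `≤ D` minus `C (coeff D) * X^D` has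
natDegree `≤ D - 1`. `low`: natDegree of the added terms `≤ D + (s - j) ≤ D + s`. `big`: clear.
PROOF of `rep_eq`: put `k(M) := (K M).coeff D`. `Ph K u - Ph (rep K) u = Σ_{B : card = s} k(u|B) n^D + Σ_{j < s} Σ_{B : card = j} Σ_{ω : nf ω = j} sgn ω (j!/s!) k(u|B + yw ω y) n^D Π (n - r)`.
By `sum_emb` (twice) and `sum_emb_pick`: the first sum is `(n^D/s!) Σ_{i : Fin s ↪ Fin n} k(ms (u ∘ i))`, the second is
`(n^D/s!) Σ_{ω, nf ω < s} sgn ω Σ_{i : Fin s ↪ Fin n} k(ms (pick ω (u ∘ i) y))`; together they give `(n^D/s!) Σ_i box (fun z => k(ms z)) (u ∘ i) y`, because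
`nf ω = s` only for `ω = false` (constant), `sgn = 1`, `pick = u ∘ i`. (`Finset.sum` over all `B : Finset (Fin n)` splits by card: `Finset.sum_powerset_apply_card`-like,
`Finset.powersetCard`, or `Finset.sum_fiberwise`.)
-/

set_option autoImplicit false

namespace Pool.Agent.Lib.MP_90b327_co.LS

open Finset Polynomial
open scoped BigOperators

/-- the number of coordinates with `ω l = false` -/
def nf {s : ℕ} (ω : Fin s → Bool) : ℕ := ((univ : Finset (Fin s)).filter (fun l => ω l = false)).card

/-- the replacement kernel -/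
noncomputable def rep {V : Type} (K : Multiset V → ℝ[X]) (s D : ℕ) (y : Fin s → V) :
    Multiset V → ℝ[X] := fun M =>
  if Multiset.card M = s then K M - C ((K M).coeff D) * X ^ D
  else if Multiset.card M < s then
    K M + ∑ ω ∈ (univ : Finset (Fin s → Bool)).filter (fun ω => nf ω = Multiset.card M),
      C (-(sgn ω * (((Multiset.card M).factorial : ℝ) / (s.factorial : ℝ)) * (K (M + yw ω y)).coeff D)) *
        X ^ D * ∏ r ∈ Finset.Ico (Multiset.card M) s, (X - C (r : ℝ))
  else K M

private lemma rep_nf_le {s : ℕ} (ω : Fin s → Bool) : nf ω ≤ s := by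
  unfold nf
  exact (Finset.card_filter_le _ _).trans (by simp)

private lemma rep_nf_eq_iff {s : ℕ} (ω : Fin s → Bool) : nf ω = s ↔ ω = fun _ => false := by
  constructor
  · intro h
    unfold nf at h
    have h1 : (univ : Finset (Fin s)).filter (fun l => ω l = false) = univ := by
      apply Finset.eq_of_subset_of_card_le (Finset.filter_subset _ _)
      rw [h]
      simp
    funext l
    have h2 : l ∈ (univ : Finset (Fin s)).filter (fun l => ω l = false) := by
      rw [h1]
      exact mem_univ _
    exact (mem_filter.mp h2).2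
  · rintro rfl
    simp [nf]

private lemma rep_key {V : Type} (K : Multiset V → ℝ[X]) (s D : ℕ) (y : Fin s → V)
    (M : Multiset V) (n : ℕ) :
    (K M).eval (n : ℝ) - (rep K s D y M).eval (n : ℝ) =
      ∑ ω ∈ (univ : Finset (Fin s → Bool)).filter (fun ω => nf ω = Multiset.card M),
        (sgn ω * (((Multiset.card M).factorial : ℝ) / (s.factorial : ℝ)) *
          (K (M + yw ω y)).coeff D) *
          (n : ℝ) ^ D * ∏ r ∈ Finset.Ico (Multiset.card M) s, ((n : ℝ) - (r : ℝ)) := by
  unfold rep
  split_ifs with h1 h2
  · have hf : (univ : Finset (Fin s → Bool)).filter (fun ω => nf ω = Multiset.card M) =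
        {fun _ => false} := by
      ext ω
      simp only [mem_filter, mem_univ, true_and, mem_singleton]
      rw [h1]
      exact rep_nf_eq_iff ω
    rw [hf, sum_singleton, h1]
    have hs : sgn (fun _ : Fin s => false) = 1 := by simp [sgn]
    have hy : yw (fun _ : Fin s => false) y = 0 := by simp [yw]
    have hfac : (s.factorial : ℝ) ≠ 0 := by exact_mod_cast s.factorial_ne_zero
    rw [hs, hy, div_self hfac]
    simp
  · rw [eval_add, eval_finsetSum, sub_add_cancel_left, ← sum_neg_distrib]
    apply sum_congr rfl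
    intro ω _
    rw [eval_mul, eval_mul, eval_C, eval_pow, eval_X, eval_prod]
    simp only [eval_sub, eval_X, eval_C]
    ring
  · have hf : (univ : Finset (Fin s → Bool)).filter (fun ω => nf ω = Multiset.card M) = ∅ := by
      apply Finset.filter_false_of_mem
      intro ω _ h
      have h3 := rep_nf_le ω
      omega
    rw [hf, sum_empty, sub_self]

theorem rep_cls {V : Type} (K : Multiset V → ℝ[X]) (s D E : ℕ) (hD : 1 ≤ D) (hK : Cls s D E K)
    (y : Fin s → V) : Cls s (D - 1) (max E (D + s)) (rep K s D y) := by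
  have hD0 : D ≠ 0 := by omega
  refine ⟨?_, ?_, ?_, ?_⟩
  · intro M hM
    unfold rep
    rw [if_neg (by omega), if_neg (by omega)]
    exact hK.big M hM
  · intro M
    unfold rep
    split_ifs with h1 h2
    · rw [coeff_sub, hK.zero M, mul_coeff_zero, coeff_X_pow, if_neg (Ne.symm hD0)]
      simp
    · rw [coeff_add, hK.zero M, finsetSum_coeff, zero_add]
      apply Finset.sum_eq_zero
      intro ω _
      rw [mul_coeff_zero, mul_coeff_zero, coeff_X_pow, if_neg (Ne.symm hD0)]
      simp
    · exact hK.zero M
  · intro M hM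
    unfold rep
    rw [if_pos hM, natDegree_le_iff_coeff_eq_zero]
    intro N hN
    rw [coeff_sub, coeff_C_mul, coeff_X_pow]
    by_cases hND : N = D
    · rw [if_pos hND, hND]
      ring
    · rw [if_neg hND, mul_zero, sub_zero]
      apply coeff_eq_zero_of_natDegree_lt
      have := hK.top M hM
      omega
  · intro M hM
    unfold rep
    rw [if_neg (by omega), if_pos hM]
    apply natDegree_add_le_of_degree_le
    · exact (hK.low M hM).trans (le_max_left _ _)
    · refine le_trans ?_ (le_max_right E (D + s))
      apply natDegree_sum_le_of_forall_le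
      intro ω _
      have h1 : (∏ r ∈ Finset.Ico (Multiset.card M) s, ((X : ℝ[X]) - C (r : ℝ))).natDegree ≤ s := by
        refine (natDegree_prod_le _ _).trans ?_
        refine (Finset.sum_le_sum (g := fun _ => 1)
          (fun r _ => natDegree_X_sub_C_le ((r : ℕ) : ℝ))).trans ?_
        simp
      refine natDegree_mul_le.trans ?_
      have h2 := natDegree_C_mul_X_pow_le
        (-(sgn ω * (((Multiset.card M).factorial : ℝ) / (s.factorial : ℝ)) *
          (K (M + yw ω y)).coeff D)) D
      omega

theorem rep_eq {V : Type} (K : Multiset V → ℝ[X]) (s D E : ℕ) (hD : 1 ≤ D) (hK : Cls s D E K)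
    (y : Fin s → V) (n : ℕ) (u : Fin n → V) :
    Ph K u - Ph (rep K s D y) u = ((n : ℝ) ^ D / (s.factorial : ℝ)) *
      ∑ i : Fin s ↪ Fin n, box (fun z => (K (ms z)).coeff D) (fun l => u (i l)) y := by
  have hL : Ph K u - Ph (rep K s D y) u = ∑ B : Finset (Fin n),
      ((K (B.val.map u)).eval (n : ℝ) - (rep K s D y (B.val.map u)).eval (n : ℝ)) := by
    unfold Ph
    rw [← sum_sub_distrib, Fintype.card_fin]
  have hcard : ∀ B : Finset (Fin n), Multiset.card (B.val.map u) = B.card := by
    intro B
    simp
  have hR : ∑ i : Fin s ↪ Fin n, box (fun z => (K (ms z)).coeff D) (fun l => u (i l)) y =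
      ∑ ω : Fin s → Bool, sgn ω * ((∏ r ∈ Finset.Ico (nf ω) s, ((n : ℝ) - (r : ℝ))) *
        (((nf ω).factorial : ℝ) * ∑ B ∈ (univ : Finset (Fin n)).powersetCard (nf ω),
          (K (B.val.map u + yw ω y)).coeff D)) := by
    unfold box
    rw [sum_comm]
    apply sum_congr rfl
    intro ω _
    rw [← mul_sum]
    congr 1
    rw [sum_emb_pick s n (nf ω) ω rfl (fun M => (K M).coeff D) u y]
    congr 1
    exact sum_emb (nf ω) (fun M => (K (M + yw ω y)).coeff D) u
  rw [hL, hR, mul_sum]
  simp only [rep_key, hcard]
  rw [Finset.sum_comm' (t' := (univ : Finset (Fin s → Bool)))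
    (s' := fun ω => (univ : Finset (Fin n)).powersetCard (nf ω))]
  · apply sum_congr rfl
    intro ω _
    simp only [mul_sum]
    apply sum_congr rfl
    intro B hB
    rw [(mem_powersetCard.mp hB).2]
    ring
  · intro B ω
    simp only [mem_univ, mem_filter, true_and, mem_powersetCard, subset_univ, and_true]
    constructor
    · intro h
      exact h.symm
    · intro h
      exact h.symm

end Pool.Agent.Lib.MP_90b327_co.LS
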