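import Mathlib
import Pool.Agent.Lib.MP_90b327_co.LS.Pos
import Pool.Agent.Lib.MP_90b327_co.LS.Rep
import Pool.Agent.Lib.MP_90b327_co.LS.Err

/-!
Module Step (30 min): the step lemma.

PROOF. `B0`, `H` from `pos`; `c := s! * H`. Given `κ`, use `pos` with `κ/3` to get `J0`; then `y`; `K' := rep K s D y`. For `Q c ∣ n`:
`‖ph K n - ph K' n‖ ≤ avr_u ‖ee(Ph K u) - ee(Ph K' u)‖ = avr_u ‖ee(Ph K u - Ph K' u) - 1‖` (`norm_ee_sub_ee`, `avc_sub`, `avc_norm_le_avr`), `rep_eq`, `err`.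
-/

set_option autoImplicit false

namespace Pool.Agent.Lib.MP_90b327_co.LS

open Finset Polynomial
open scoped BigOperators

theorem step (s D : ℕ) (hD : 1 ≤ D) (ε : ℝ) (hε : 0 < ε) :
    ∃ B0 : ℕ, 1 ≤ B0 ∧ ∀ q Bq : ℕ, D ≤ q + 1 → B0 ≤ Bq → ∃ c : ℕ, 1 ≤ c ∧ ∀ κ : ℝ, 0 < κ →
      ∃ J0 : ℕ, ∀ J : ℕ, J0 ≤ J → ∀ Q : ℕ, 1 ≤ Q → ∀ (V : Type) [Fintype V] [Nonempty V]
        (K : Multiset V → ℝ[X]) (E : ℕ), Cls s D E K → ε ≤ ‖sc Q J q Bq (ph K)‖ →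
        ∃ K' : Multiset V → ℝ[X], Cls s (D - 1) (max E (D + s)) K' ∧
          ∀ n : ℕ, Q * c ∣ n → ‖ph K n - ph K' n‖ ≤ κ * (n : ℝ) ^ (D + s) := by
  obtain ⟨B0, hB0, hP⟩ := pos s D hD ε hε
  refine ⟨B0, hB0, fun q Bq hq hBq => ?_⟩
  obtain ⟨H, hH, hP2⟩ := hP q Bq hq hBq
  refine ⟨s.factorial * H, Nat.mul_pos s.factorial_pos hH, fun κ hκ => ?_⟩
  obtain ⟨J0, hJ0⟩ := hP2 (κ / 3) (by positivity)
  refine ⟨J0, fun J hJ Q hQ V _ _ K E hK hsc => ?_⟩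
  obtain ⟨y, hy⟩ := hJ0 J hJ Q hQ V K E hK hsc
  refine ⟨rep K s D y, rep_cls K s D E hD hK y, fun n hn => ?_⟩
  have h1 : ph K n - ph (rep K s D y) n = avc (fun u : Fin n → V => ee (Ph K u) - ee (Ph (rep K s D y) u)) := by
    unfold ph
    rw [avc_sub]
  rw [h1]
  refine (avc_norm_le_avr _).trans ?_
  have h2 : (fun u : Fin n → V => ‖ee (Ph K u) - ee (Ph (rep K s D y) u)‖) =
      fun u : Fin n → V => ‖ee (((n : ℝ) ^ D / (s.factorial : ℝ)) *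
        ∑ i : Fin s ↪ Fin n, (fun x => box (fun z => (K (ms z)).coeff D) x y) (fun l => u (i l))) - 1‖ := by
    funext u
    rw [norm_ee_sub_ee, rep_eq K s D E hD hK y n u]
  rw [h2]
  refine (err s D H Q n hD hH hQ hn (fun x => box (fun z => (K (ms z)).coeff D) x y) (κ / 3) (by positivity) hy).trans
    (le_of_eq ?_)
  ring

end Pool.Agent.Lib.MP_90b327_co.LS
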