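import Mathlib
import Pool.Agent.Lib.MP_90b327_co.LS.Step
import Pool.Agent.Lib.MP_90b327_co.LS.Chn
import Pool.Agent.Lib.MP_90b327_co.LS.Cha

/-!
Module Core (30 min): the core lemma.

PROOF. `(B, t)` from `cls_chain s D E`; for `k < B` `B0_k` from `step (t k).1 (t k).2.1 _ (ε/3)`; `q := Σ_k (t k).2.1` (or a max), `Bq := Σ_k B0_k + 1`; `c_k`, `J0` from `step`.
`𝒞 k := {F | ∃ (V : Type) (_ : Fintype V) (_ : Nonempty V) (K : Multiset V → ℝ[X]), Cls (t k).. K ∧ F = ph K}`. `chain` with `ε/3`. `hlast`: `K ∈ Cls 0 0 _` means `K M = 0` for card `> 0` and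
`K 0` constant with `coeff 0 = 0`, so `Ph K u = 0`, `ph K n = 1`. `hbd`: `avc_norm_le`, `norm_ee`.
-/

set_option autoImplicit false

namespace Pool.Agent.Lib.MP_90b327_co.LS

open Finset Polynomial
open scoped BigOperators

theorem core (s D E : ℕ) (ε : ℝ) (hε : 0 < ε) :
    ∃ (r : ℕ) (w : Fin r → ℝ) (n : Fin r → ℕ), (∀ j, 0 ≤ w j) ∧ ∑ j, w j = 1 ∧ (∀ j, 1 ≤ n j) ∧
      ∀ (V : Type) [Fintype V] [Nonempty V] (K : Multiset V → ℝ[X]), Cls s D E K →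
        -ε ≤ ∑ j, w j * (ph K (n j)).re := by
  obtain ⟨B, t, h0, hk, hB1, hB2⟩ := cls_chain s D E
  have hε3 : 0 < ε / 3 := by positivity
  have hst : ∀ k : ℕ, ∃ B0 : ℕ, k < B → ∀ q Bq : ℕ, (t k).2.1 ≤ q + 1 → B0 ≤ Bq →
      ∃ c : ℕ, 1 ≤ c ∧ ∀ κ : ℝ, 0 < κ →
      ∃ J0 : ℕ, ∀ J : ℕ, J0 ≤ J → ∀ Q : ℕ, 1 ≤ Q → ∀ (V : Type) [Fintype V] [Nonempty V]
        (K : Multiset V → ℝ[X]) (E : ℕ), Cls (t k).1 (t k).2.1 E K → ε / 3 ≤ ‖sc Q J q Bq (ph K)‖ →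
        ∃ K' : Multiset V → ℝ[X], Cls (t k).1 ((t k).2.1 - 1) (max E ((t k).2.1 + (t k).1)) K' ∧
          ∀ n : ℕ, Q * c ∣ n → ‖ph K n - ph K' n‖ ≤ κ * (n : ℝ) ^ ((t k).2.1 + (t k).1) := by
    intro k
    by_cases h : k < B
    · obtain ⟨B0, _, hB0⟩ := step (t k).1 (t k).2.1 (hk k h).1 (ε / 3) hε3
      exact ⟨B0, fun _ => hB0⟩
    · exact ⟨0, fun h' => absurd h' h⟩
  choose B0 hB0 using hst
  obtain ⟨q, hq⟩ : ∃ q : ℕ, ∀ k < B, (t k).2.1 ≤ q := by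
    refine ⟨∑ k ∈ range B, (t k).2.1, fun k h => ?_⟩
    exact Finset.single_le_sum (f := fun k => (t k).2.1) (fun _ _ => Nat.zero_le _) (mem_range.2 h)
  obtain ⟨Bq, hBq1, hBq⟩ : ∃ Bq : ℕ, 1 ≤ Bq ∧ ∀ k < B, B0 k ≤ Bq := by
    refine ⟨∑ k ∈ range B, B0 k + 1, by omega, fun k h => ?_⟩
    have := Finset.single_le_sum (f := fun k => B0 k) (fun _ _ => Nat.zero_le _) (mem_range.2 h)
    omega
  obtain ⟨CC, hCC⟩ : ∃ CC : ℕ → Set (ℕ → ℂ), ∀ k F, F ∈ CC k ↔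
      ∃ (V : Type) (_ : Fintype V) (_ : Nonempty V) (K : Multiset V → ℝ[X]),
        Cls (t k).1 (t k).2.1 (t k).2.2 K ∧ F = ph K :=
    ⟨fun k => {F | ∃ (V : Type) (_ : Fintype V) (_ : Nonempty V) (K : Multiset V → ℝ[X]),
      Cls (t k).1 (t k).2.1 (t k).2.2 K ∧ F = ph K}, fun _ _ => Iff.rfl⟩
  have hlast : ∀ F ∈ CC B, ∀ n, 0 ≤ (F n).re := by
    intro F hF n
    obtain ⟨V, _, _, K, hK, rfl⟩ := (hCC B F).1 hF
    rw [hB1, hB2] at hK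
    have hK0 : ∀ M, K M = 0 := by
      intro M
      rcases Nat.eq_zero_or_pos (Multiset.card M) with h | h
      · have h1 := hK.top M h
        have h2 := hK.zero M
        rw [Polynomial.eq_C_of_natDegree_le_zero h1, h2, Polynomial.C_0]
      · exact hK.big M h
    have h1 : ∀ u : Fin n → V, ee (Ph K u) = 1 := by
      intro u
      have h2 : Ph K u = 0 := by
        unfold Ph
        exact Finset.sum_eq_zero fun B _ => by rw [hK0, Polynomial.eval_zero]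
      rw [h2, ee_zero]
    have h2 : ph K n = 1 := by
      unfold ph
      rw [show (fun u : Fin n → V => ee (Ph K u)) = fun _ => 1 from funext h1, avc_const]
    rw [h2]
    norm_num
  have hbd : ∀ k, ∀ F ∈ CC k, ∀ n, ‖F n‖ ≤ 1 := by
    intro k F hF n
    obtain ⟨V, _, _, K, _, rfl⟩ := (hCC k F).1 hF
    unfold ph
    exact avc_norm_le _ fun u => (norm_ee _).le
  have hstep : ∀ k < B, ∃ c : ℕ, 1 ≤ c ∧ ∃ A : ℕ, ∀ κ : ℝ, 0 < κ → ∃ J0 : ℕ, ∀ J : ℕ, J0 ≤ J →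
      ∀ Q : ℕ, 1 ≤ Q → ∀ F ∈ CC k, ε / 3 ≤ ‖sc Q J q Bq F‖ →
        ∃ F' ∈ CC (k + 1), ∀ n : ℕ, Q * c ∣ n → ‖F n - F' n‖ ≤ κ * (n : ℝ) ^ A := by
    intro k hkB
    obtain ⟨c, hc1, hc⟩ := hB0 k hkB q Bq (by have := hq k hkB; omega) (hBq k hkB)
    refine ⟨c, hc1, (t k).2.1 + (t k).1, ?_⟩
    intro κ hκ
    obtain ⟨J0, hJ0⟩ := hc κ hκ
    refine ⟨J0, ?_⟩
    intro J hJ Q hQ F hF hbig
    obtain ⟨V, hV1, hV2, K, hK, rfl⟩ := (hCC k F).1 hF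
    obtain ⟨K', hK', hn⟩ := hJ0 J hJ Q hQ V K (t k).2.2 hK hbig
    exact ⟨ph K', (hCC (k + 1) _).2 ⟨V, hV1, hV2, K', (hk k hkB).2 V K' hK', rfl⟩, hn⟩
  obtain ⟨r, w, n, hw, hw1, hn, hF⟩ := chain B CC q Bq hBq1 (ε / 3) hε3 hlast hbd hstep
  refine ⟨r, w, n, hw, hw1, hn, ?_⟩
  intro V _ _ K hK
  have h1 := hF (ph K) ((hCC 0 _).2 ⟨V, inferInstance, inferInstance, K, h0 V K hK, rfl⟩)
  linarith

end Pool.Agent.Lib.MP_90b327_co.LS
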