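import Mathlib
import Pool.Agent.Lib.MP_90b327_co.LS.Def

/-!
Module Four (60 min): the Fourier inequality on `(Z/M)^ι`.

PROOF. For `t : ι → ZMod M` let `θ_t i = (t i).val / M` and `F(t) = ‖(1/M^|ι|) Σ_{z ∈ T} ee(Σ_i θ_t i * (z i).val)‖^2 ≥ 0`.
Orthogonality: `Σ_t ee(Σ_i θ_t i * x i) = M^|ι|` if all the integers `x i` are divisible by `M`, else `0` (product over `i` of geometric sums over `ZMod M`;
or use `ZMod.stdAddChar`, `AddChar.sum_apply_eq_ite`; `Finset.prod_univ_sum`). Hence for an integer vector `g`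
`#{z ∈ T : z + g ∈ T} / M^|ι| = Σ_t F(t) ee(± Σ_i θ_t i * g i)`, in particular (`g = 0`) `Σ_t F(t) = |T|/M^|ι| =: δ'`; and `F(0) = δ'^2`.
So the right side is `Σ_t F(t) Σ_a w a Re ee(Σ θ g_a) ≥ δ'^2 Σ_a w a - ε Σ_{t ≠ 0} F(t)` and `Σ_{t ≠ 0} F(t) = δ' - δ'^2 ≤ δ'`. (The sign of the exponent does not
matter: the hypothesis holds for all `θ`, and `Re` is even.)
-/

set_option autoImplicit false

namespace Pool.Agent.Lib.MP_90b327_co.LS

open Finset Polynomial
open scoped BigOperators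

private noncomputable def Four_chi {ι : Type} [Fintype ι] (M : ℕ) [NeZero M] (t z : ι → ZMod M) : ℂ :=
  ZMod.stdAddChar (∑ i, t i * z i)

private theorem Four_map_sum {ι A : Type} [AddCommGroup A] (ψ : AddChar A ℂ) (s : Finset ι)
    (f : ι → A) : ψ (∑ i ∈ s, f i) = ∏ i ∈ s, ψ (f i) := by
  classical
  induction s using Finset.induction_on with
  | empty => simp
  | insert a s ha ih =>
    rw [Finset.sum_insert ha, Finset.prod_insert ha, AddChar.map_add_eq_mul, ih]

private theorem Four_orth {ι : Type} [Fintype ι] [DecidableEq ι] (M : ℕ) [NeZero M] (x : ι → ZMod M) :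
    ∑ t : ι → ZMod M, Four_chi M t x = if x = 0 then ((M : ℂ) ^ (Fintype.card ι)) else 0 := by
  have h1 : ∀ t : ι → ZMod M, Four_chi M t x = ∏ i, (ZMod.stdAddChar (t i * x i) : ℂ) := by
    intro t
    unfold Four_chi
    exact Four_map_sum _ _ _
  rw [Finset.sum_congr rfl fun t _ => h1 t]
  have h2 := (Finset.prod_univ_sum (fun _ : ι => (univ : Finset (ZMod M)))
    (fun i s => (ZMod.stdAddChar (s * x i) : ℂ)))
  rw [Fintype.piFinset_univ] at h2
  rw [← h2]
  have h3 : ∀ i, ∑ s : ZMod M, (ZMod.stdAddChar (s * x i) : ℂ) = if x i = 0 then (M : ℂ) else 0 := by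
    intro i
    rw [AddChar.sum_mulShift (x i) (ZMod.isPrimitive_stdAddChar M), ZMod.card]
    split_ifs <;> simp
  rw [Finset.prod_congr rfl fun i _ => h3 i]
  by_cases hx : x = 0
  · subst hx
    simp
  · rw [if_neg hx]
    have : ∃ i, x i ≠ 0 := by
      by_contra hcon
      push Not at hcon
      exact hx (funext hcon)
    obtain ⟨i, hi⟩ := this
    exact Finset.prod_eq_zero (Finset.mem_univ i) (if_neg hi)

private theorem Four_chi_add {ι : Type} [Fintype ι] (M : ℕ) [NeZero M] (t z w : ι → ZMod M) :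
    Four_chi M t (z + w) = Four_chi M t z * Four_chi M t w := by
  unfold Four_chi
  rw [← AddChar.map_add_eq_mul, ← Finset.sum_add_distrib]
  congr 1
  refine Finset.sum_congr rfl fun i _ => ?_
  rw [Pi.add_apply, mul_add]

private theorem Four_chi_conj {ι : Type} [Fintype ι] (M : ℕ) [NeZero M] (t z : ι → ZMod M) :
    (starRingEnd ℂ) (Four_chi M t z) = Four_chi M t (-z) := by
  unfold Four_chi
  have h1 : ∑ i, t i * (-z) i = -∑ i, t i * z i := by
    rw [← Finset.sum_neg_distrib]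
    refine Finset.sum_congr rfl fun i _ => ?_
    rw [Pi.neg_apply, mul_neg]
  rw [h1, AddChar.map_neg_eq_conj]

private theorem Four_chi_ee {ι : Type} [Fintype ι] (M : ℕ) [NeZero M] (t : ι → ZMod M) (g : ι → ℤ) :
    Four_chi M t (fun i => ((g i : ℤ) : ZMod M)) =
      ee (∑ i, (((t i).val : ℝ) / (M : ℝ)) * (g i : ℝ)) := by
  have h1 : (∑ i, t i * ((g i : ℤ) : ZMod M)) = ((∑ i, ((t i).val : ℤ) * g i : ℤ) : ZMod M) := by
    push_cast
    refine Finset.sum_congr rfl fun i _ => ?_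
    rw [ZMod.natCast_val, ZMod.cast_id', id]
  unfold Four_chi
  rw [h1, ZMod.stdAddChar_coe]
  unfold ee
  congr 1
  have hM : (M : ℂ) ≠ 0 := by exact_mod_cast NeZero.ne M
  have h2 : (∑ i, (((t i).val : ℝ) / (M : ℝ)) * (g i : ℝ)) =
      ((∑ i, ((t i).val : ℤ) * g i : ℤ) : ℝ) / (M : ℝ) := by
    push_cast
    rw [Finset.sum_div]
    refine Finset.sum_congr rfl fun i _ => ?_
    ring
  rw [h2]
  push_cast
  ring

private theorem Four_count {ι : Type} [Fintype ι] [DecidableEq ι] (M : ℕ) [NeZero M]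
    (T : Finset (ι → ZMod M)) (g : ι → ZMod M) :
    ∑ t : ι → ZMod M, ((Complex.normSq (∑ z ∈ T, Four_chi M t z) : ℝ) : ℂ) * Four_chi M t g =
      ((M : ℂ) ^ (Fintype.card ι)) * ((T.filter (fun z => z + g ∈ T)).card : ℂ) := by
  have h1 : ∀ t : ι → ZMod M, ((Complex.normSq (∑ z ∈ T, Four_chi M t z) : ℝ) : ℂ) * Four_chi M t g =
      ∑ z ∈ T, ∑ w ∈ T, Four_chi M t (z + g - w) := by
    intro t
    rw [← Complex.mul_conj, map_sum, Finset.sum_mul_sum, Finset.sum_mul]
    refine Finset.sum_congr rfl fun z _ => ?_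
    rw [Finset.sum_mul]
    refine Finset.sum_congr rfl fun w _ => ?_
    rw [Four_chi_conj, sub_eq_add_neg, Four_chi_add, Four_chi_add]
    ring
  rw [Finset.sum_congr rfl fun t _ => h1 t, Finset.sum_comm]
  have h2 : ∀ z ∈ T, ∑ t : ι → ZMod M, ∑ w ∈ T, Four_chi M t (z + g - w) =
      if z + g ∈ T then ((M : ℂ) ^ (Fintype.card ι)) else 0 := by
    intro z _
    rw [Finset.sum_comm]
    have h3 : ∀ w ∈ T, ∑ t : ι → ZMod M, Four_chi M t (z + g - w) =
        if z + g = w then ((M : ℂ) ^ (Fintype.card ι)) else 0 := by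
      intro w _
      rw [Four_orth]
      by_cases h : z + g = w
      · rw [if_pos h, if_pos (sub_eq_zero.mpr h)]
      · rw [if_neg h, if_neg (fun h' => h (sub_eq_zero.mp h'))]
    rw [Finset.sum_congr rfl h3, Finset.sum_ite_eq]
  rw [Finset.sum_congr rfl h2, ← Finset.sum_filter, Finset.sum_const, nsmul_eq_mul, mul_comm]

theorem four {ι : Type} [Fintype ι] [DecidableEq ι] (M : ℕ) [NeZero M] (T : Finset (ι → ZMod M))
    {α : Type} [Fintype α] (w : α → ℝ) (g : α → ι → ℤ) (ε : ℝ) (hε : 0 ≤ ε)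
    (h : ∀ θ : ι → ℝ, -ε ≤ ∑ a, w a * (ee (∑ i, θ i * (g a i : ℝ))).re) :
    (∑ a, w a) * ((T.card : ℝ) / (M : ℝ) ^ (Fintype.card ι)) ^ 2 -
        ε * ((T.card : ℝ) / (M : ℝ) ^ (Fintype.card ι)) ≤
      ∑ a, w a * (((T.filter (fun z => (fun i => z i + ((g a i : ℤ) : ZMod M)) ∈ T)).card : ℝ) /
        (M : ℝ) ^ (Fintype.card ι)) := by
  have hM0 : (0 : ℝ) < M := by exact_mod_cast Nat.pos_of_ne_zero (NeZero.ne M)
  obtain ⟨q, hq⟩ : ∃ q : ℝ, q = (M : ℝ) ^ (Fintype.card ι) := ⟨_, rfl⟩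
  have hq0 : 0 < q := by rw [hq]; positivity
  obtain ⟨F, hF⟩ : ∃ F : (ι → ZMod M) → ℝ,
    F = fun t => Complex.normSq (∑ z ∈ T, Four_chi M t z) := ⟨_, rfl⟩
  have hF0 : ∀ t, 0 ≤ F t := fun t => by rw [hF]; exact Complex.normSq_nonneg _
  -- the count
  have hcount : ∀ x : ι → ZMod M, ∑ t, F t * (Four_chi M t x).re =
      q * ((T.filter (fun z => z + x ∈ T)).card : ℝ) := by
    intro x
    have h1 := congrArg Complex.re (Four_count M T x)
    rw [Complex.re_sum] at h1
    have h2 : ((M : ℂ) ^ (Fintype.card ι)) * ((T.filter (fun z => z + x ∈ T)).card : ℂ) =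
        ((q * ((T.filter (fun z => z + x ∈ T)).card : ℝ) : ℝ) : ℂ) := by
      rw [hq]
      push_cast
      rfl
    rw [h2, Complex.ofReal_re] at h1
    rw [← h1]
    refine Finset.sum_congr rfl fun t _ => ?_
    rw [Complex.re_ofReal_mul, hF]
  have hone : ∀ t : ι → ZMod M, Four_chi M t 0 = 1 := by
    intro t
    unfold Four_chi
    simp
  have hone' : ∀ z : ι → ZMod M, Four_chi M 0 z = 1 := by
    intro z
    unfold Four_chi
    simp
  have htot : ∑ t, F t = q * (T.card : ℝ) := by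
    have h1 := hcount 0
    simp only [hone, Complex.one_re, mul_one, add_zero] at h1
    rw [h1]
    congr 2
    rw [Finset.filter_true_of_mem fun z hz => hz]
  have hFz : F 0 = (T.card : ℝ) ^ 2 := by
    rw [hF]
    simp only [hone']
    rw [Finset.sum_const, nsmul_eq_mul, mul_one, Complex.normSq_natCast]
    ring
  -- exchange
  have hR : ∀ t : ι → ZMod M, -ε ≤ ∑ a, w a * (Four_chi M t (fun i => ((g a i : ℤ) : ZMod M))).re := by
    intro t
    have h1 := h (fun i => ((t i).val : ℝ) / (M : ℝ))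
    refine h1.trans (le_of_eq ?_)
    refine Finset.sum_congr rfl fun a _ => ?_
    rw [Four_chi_ee]
  have hsum : ∑ a, w a * (((T.filter (fun z => (fun i => z i + ((g a i : ℤ) : ZMod M)) ∈ T)).card : ℝ) / q) =
      (∑ t, F t * ∑ a, w a * (Four_chi M t (fun i => ((g a i : ℤ) : ZMod M))).re) / q ^ 2 := by
    have h1 : ∑ t, F t * ∑ a, w a * (Four_chi M t (fun i => ((g a i : ℤ) : ZMod M))).re =
        ∑ a, w a * (q * ((T.filter (fun z => (fun i => z i + ((g a i : ℤ) : ZMod M)) ∈ T)).card : ℝ)) := by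
      have h2 : ∀ t : ι → ZMod M, F t * ∑ a, w a * (Four_chi M t (fun i => ((g a i : ℤ) : ZMod M))).re =
          ∑ a, w a * (F t * (Four_chi M t (fun i => ((g a i : ℤ) : ZMod M))).re) := by
        intro t
        rw [Finset.mul_sum]
        refine Finset.sum_congr rfl fun a _ => ?_
        ring
      rw [Finset.sum_congr rfl fun t _ => h2 t, Finset.sum_comm]
      refine Finset.sum_congr rfl fun a _ => ?_
      rw [← Finset.mul_sum, hcount]
      rfl
    rw [h1, Finset.sum_div]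
    refine Finset.sum_congr rfl fun a _ => ?_
    field_simp
  rw [← hq, hsum, le_div_iff₀ (by positivity)]
  have h0 : ∑ a, w a * (Four_chi M (0 : ι → ZMod M) (fun i => ((g a i : ℤ) : ZMod M))).re = ∑ a, w a := by
    refine Finset.sum_congr rfl fun a _ => ?_
    rw [hone', Complex.one_re, mul_one]
  rw [← Finset.add_sum_erase univ _ (Finset.mem_univ (0 : ι → ZMod M)), h0, hFz]
  have hrest : -(ε * (q * (T.card : ℝ))) ≤ ∑ t ∈ univ.erase (0 : ι → ZMod M),
      F t * ∑ a, w a * (Four_chi M t (fun i => ((g a i : ℤ) : ZMod M))).re := by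
    have h1 : ∑ t ∈ univ.erase (0 : ι → ZMod M), F t * (-ε) ≤ ∑ t ∈ univ.erase (0 : ι → ZMod M),
      F t * ∑ a, w a * (Four_chi M t (fun i => ((g a i : ℤ) : ZMod M))).re :=
      Finset.sum_le_sum fun t _ => mul_le_mul_of_nonneg_left (hR t) (hF0 t)
    rw [← Finset.sum_mul] at h1
    have h2 : ∑ t ∈ univ.erase (0 : ι → ZMod M), F t ≤ ∑ t, F t :=
      Finset.sum_le_sum_of_subset_of_nonneg (Finset.erase_subset _ _) fun t _ _ => hF0 t
    rw [htot] at h2
    have h3 := mul_le_mul_of_nonneg_right h2 hε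
    linarith
  have h4 : ((∑ a, w a) * ((T.card : ℝ) / q) ^ 2 - ε * ((T.card : ℝ) / q)) * q ^ 2 =
      (∑ a, w a) * (T.card : ℝ) ^ 2 - ε * (q * (T.card : ℝ)) := by
    field_simp
  rw [h4]
  linarith

end Pool.Agent.Lib.MP_90b327_co.LS
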