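import Mathlib
import Pool.Agent.Lib.MP_90b327_co.LS.Grd

/-!
Module Ker (60 min): the kernel of a character; class and identity.

PROOF of `kk_cls`: `big` by the `if`; `zero` and the degrees: every summand is `C _ * X^(zc c)` with `1 ≤ zc c ≤ d` (a reference cell has a coordinate `none`).
PROOF of `kk_eq`: `u : Fin n → V` injective, `γ = univ.image u`. For `B : Finset (Fin n)`: `(B.val.map u).toFinset = B.image u`, card of the multiset is `B.card`.
`Ph (kk θ) u = Σ_B [B.card ≤ d-1] Σ_c [supp c = B.image u] θ c (-1)^(zc c + 1) n^(zc c)`. For a reference cell `c` with `supp c ⊆ γ` there is exactly one `B` with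
`B.image u = supp c` (the preimage), and `B.card = (supp c).card ≤ d - 1` (at least one coordinate is `none`); if `supp c ⊄ γ` there is none. So the sum is
`Σ_{c : supp c ⊆ γ} θ c (-1)^(zc c + 1) n^(zc c)`, and `GG γ c = -∏ hh γ (c i)` is `-(-n)^(zc c)` if `supp c ⊆ γ` and `0` otherwise (`γ.card = n`).
-/

set_option autoImplicit false

namespace Pool.Agent.Lib.MP_90b327_co.LS

open Finset Polynomial
open scoped BigOperators

private theorem Ker_zc_pos {d : ℕ} {V : Type} [DecidableEq V] (c : RR d V) : 1 ≤ zc c.1 := by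
  obtain ⟨i, hi⟩ := c.2
  unfold zc
  exact Finset.card_pos.mpr ⟨i, Finset.mem_filter.mpr ⟨Finset.mem_univ i, hi⟩⟩

private theorem Ker_zc_le {d : ℕ} {V : Type} [DecidableEq V] (c : RR d V) : zc c.1 ≤ d := by
  unfold zc
  refine (Finset.card_filter_le _ _).trans ?_
  rw [Finset.card_univ, Fintype.card_fin]

private theorem Ker_supp_card {d : ℕ} {V : Type} [Fintype V] [DecidableEq V] (c : RR d V) :
    (supp c.1).card ≤ d - 1 := by
  obtain ⟨i0, hi0⟩ := c.2
  have h1 : ((supp c.1).image (fun v => some v)) ⊆ ((univ : Finset (Fin d)).erase i0).image c.1 := by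
    intro o ho
    rw [Finset.mem_image] at ho ⊢
    obtain ⟨v, hv, rfl⟩ := ho
    obtain ⟨i, hi⟩ := (Finset.mem_filter.mp hv).2
    refine ⟨i, Finset.mem_erase.mpr ⟨?_, Finset.mem_univ i⟩, hi⟩
    rintro rfl
    rw [hi0] at hi
    exact absurd hi (by simp)
  have h2 : ((supp c.1).image (fun v => some v)).card = (supp c.1).card :=
    Finset.card_image_of_injective _ (Option.some_injective V)
  rw [← h2]
  refine (Finset.card_le_card h1).trans (Finset.card_image_le.trans ?_)
  rw [Finset.card_erase_of_mem (Finset.mem_univ i0), Finset.card_univ, Fintype.card_fin]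

theorem kk_cls {d : ℕ} (hd : 1 ≤ d) {V : Type} [Fintype V] [DecidableEq V] (θ : RR d V → ℝ) :
    Cls (d - 1) d d (kk θ) := by
  have hdeg : ∀ M, (kk θ M).natDegree ≤ d := by
    intro M
    unfold kk
    split_ifs with h
    · refine Polynomial.natDegree_sum_le_of_forall_le _ _ fun c _ => ?_
      split_ifs with h2
      · exact (Polynomial.natDegree_C_mul_X_pow_le _ _).trans (Ker_zc_le c)
      · simp
    · simp
  refine ⟨?_, ?_, fun M _ => hdeg M, fun M _ => hdeg M⟩
  · intro M hM
    unfold kk
    rw [if_neg (by omega)]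
  · intro M
    unfold kk
    split_ifs with h
    · rw [Polynomial.finsetSum_coeff]
      refine Finset.sum_eq_zero fun c _ => ?_
      split_ifs with h2
      · rw [Polynomial.coeff_C_mul_X_pow, if_neg]
        have := Ker_zc_pos c
        omega
      · simp
    · simp

private theorem Ker_eval {d : ℕ} {V : Type} [Fintype V] [DecidableEq V] (θ : RR d V → ℝ)
    (M : Multiset V) (x : ℝ) : (kk θ M).eval x =
      ∑ c : RR d V, if Multiset.card M ≤ d - 1 ∧ supp c.1 = M.toFinset then
        θ c * (-1) ^ (zc c.1 + 1) * x ^ (zc c.1) else 0 := by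
  unfold kk
  by_cases h : Multiset.card M ≤ d - 1
  · rw [if_pos h, Polynomial.eval_finsetSum]
    refine Finset.sum_congr rfl fun c _ => ?_
    by_cases h2 : supp c.1 = M.toFinset
    · rw [if_pos h2, if_pos ⟨h, h2⟩]
      simp
    · rw [if_neg h2, if_neg (fun h3 => h2 h3.2)]
      simp
  · rw [if_neg h, Polynomial.eval_zero]
    symm
    refine Finset.sum_eq_zero fun c _ => ?_
    rw [if_neg (fun h3 => h h3.1)]

theorem kk_eq {d : ℕ} (hd : 1 ≤ d) {V : Type} [Fintype V] [DecidableEq V] (θ : RR d V → ℝ) (n : ℕ)
    (u : Fin n → V) (hu : Function.Injective u) :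
    Ph (kk θ) u = ∑ c : RR d V, θ c * ((GG ((univ : Finset (Fin n)).image u) c : ℤ) : ℝ) := by
  unfold Ph
  have h1 : ∀ B : Finset (Fin n), (kk θ (B.val.map u)).eval (Fintype.card (Fin n) : ℝ) =
      ∑ c : RR d V, if B.card ≤ d - 1 ∧ supp c.1 = B.image u then
        θ c * (-1) ^ (zc c.1 + 1) * (n : ℝ) ^ (zc c.1) else 0 := by
    intro B
    rw [Ker_eval, Fintype.card_fin, Multiset.card_map]
    rfl
  rw [Finset.sum_congr rfl fun B _ => h1 B, Finset.sum_comm]
  refine Finset.sum_congr rfl fun c _ => ?_
  by_cases hs : supp c.1 ⊆ (univ : Finset (Fin n)).image u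
  · -- the unique preimage
    have hB : ∀ B : Finset (Fin n), supp c.1 = B.image u ↔
        B = univ.filter (fun i => u i ∈ supp c.1) := by
      intro B
      constructor
      · intro h
        ext i
        rw [Finset.mem_filter, h]
        constructor
        · intro hi
          exact ⟨Finset.mem_univ i, Finset.mem_image_of_mem u hi⟩
        · rintro ⟨_, hi⟩
          obtain ⟨j, hj, hji⟩ := Finset.mem_image.mp hi
          rwa [← hu hji]
      · rintro rfl
        ext v
        rw [Finset.mem_image]
        constructor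
        · intro hv
          obtain ⟨i, _, hi⟩ := Finset.mem_image.mp (hs hv)
          exact ⟨i, Finset.mem_filter.mpr ⟨Finset.mem_univ i, by rwa [hi]⟩, hi⟩
        · rintro ⟨i, hi, rfl⟩
          exact (Finset.mem_filter.mp hi).2
    have hcard : ((univ : Finset (Fin n)).filter (fun i => u i ∈ supp c.1)).card ≤ d - 1 := by
      have h2 := (hB _).mpr rfl
      have h3 : ((univ : Finset (Fin n)).filter (fun i => u i ∈ supp c.1)).card = (supp c.1).card := by
        conv_rhs => rw [h2]
        rw [Finset.card_image_of_injective _ hu]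
      rw [h3]
      exact Ker_supp_card c
    rw [Finset.sum_eq_single (univ.filter (fun i => u i ∈ supp c.1))]
    · rw [if_pos ⟨hcard, (hB _).mpr rfl⟩]
      have hγ : ((univ : Finset (Fin n)).image u).card = n := by
        rw [Finset.card_image_of_injective _ hu, Finset.card_univ, Fintype.card_fin]
      have h4 : HH ((univ : Finset (Fin n)).image u) c.1 = (-(n : ℤ)) ^ (zc c.1) := by
        unfold HH zc
        rw [← Finset.prod_const, Finset.prod_filter]
        refine Finset.prod_congr rfl fun i _ => ?_
        rcases ho : c.1 i with _ | v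
        · simp only [hh, if_true]
          rw [hγ]
        · have hv : v ∈ (univ : Finset (Fin n)).image u :=
            hs (Finset.mem_filter.mpr ⟨Finset.mem_univ v, i, ho⟩)
          simp [hh, hv]
      unfold GG
      rw [h4]
      push_cast
      rw [neg_pow (n : ℝ)]
      ring
    · intro B _ hne
      rw [if_neg]
      rintro ⟨_, h3⟩
      exact hne ((hB B).mp h3)
    · intro h
      exact absurd (Finset.mem_univ _) h
  · have h2 : ∃ v ∈ supp c.1, v ∉ (univ : Finset (Fin n)).image u := by
      by_contra hcon
      push Not at hcon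
      exact hs hcon
    obtain ⟨v, hv, hv2⟩ := h2
    obtain ⟨i, hi⟩ := (Finset.mem_filter.mp hv).2
    have h3 : HH ((univ : Finset (Fin n)).image u) c.1 = 0 := by
      unfold HH
      refine Finset.prod_eq_zero (Finset.mem_univ i) ?_
      rw [hi]
      exact if_neg hv2
    unfold GG
    rw [h3]
    simp only [neg_zero, Int.cast_zero, mul_zero]
    refine Finset.sum_eq_zero fun B _ => ?_
    rw [if_neg]
    rintro ⟨_, h4⟩
    apply hs
    rw [h4]
    exact Finset.image_subset_image (Finset.subset_univ B)

end Pool.Agent.Lib.MP_90b327_co.LS
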