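import Mathlib
import Pool.Agent.Lib.MP_90b327_co.LS.Def

/-!
Module NonInj (20 min): most maps `Fin n → Fin k` are injective.
PROOF. Union bound over the pairs `i < j`: `pr (u i = u j) = 1/k`. (Or Bernoulli: the number of injections is `k (k-1) .. (k-n+1) ≥ k^n (1 - n^2/k)`,
`Nat.descFactorial`, `Fintype.card_embedding_eq`, `one_add_mul_le_pow`-like, induction on `n`.)
-/

set_option autoImplicit false

namespace Pool.Agent.Lib.MP_90b327_co.LS

open Finset Polynomial
open scoped BigOperators

private lemma noninj_pr (n k : ℕ) :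
    pr (fun u : Fin n → Fin k => Function.Injective u) = (k.descFactorial n : ℝ) / (k : ℝ) ^ n := by
  classical
  unfold pr avr
  have h1 : (∑ x : Fin n → Fin k, if Function.Injective x then (1 : ℝ) else 0) = (k.descFactorial n : ℝ) := by
    rw [Finset.sum_boole, ← Fintype.card_subtype,
      Fintype.card_congr (Equiv.subtypeInjectiveEquivEmbedding (Fin n) (Fin k)), Fintype.card_embedding_eq,
      Fintype.card_fin, Fintype.card_fin]
  have h2 : (Fintype.card (Fin n → Fin k) : ℝ) = (k : ℝ) ^ n := by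
    rw [Fintype.card_fun, Fintype.card_fin, Fintype.card_fin]
    push_cast
    rfl
  rw [h2]
  congr 1
  rw [← h1]
  refine Finset.sum_congr rfl (fun u _ => ?_)
  by_cases hu : Function.Injective u
  · simp [hu]
  · simp [hu]

theorem pr_not_inj (n k : ℕ) (hk : 1 ≤ k) :
    pr (fun u : Fin n → Fin k => ¬ Function.Injective u) ≤ (n : ℝ) ^ 2 / k := by
  classical
  have hk0 : (0 : ℝ) < k := by exact_mod_cast hk
  rcases Nat.lt_or_ge k n with hn | hn
  · refine (pr_le_one _).trans ?_
    rw [one_le_div hk0]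
    have h1 : (k : ℝ) ≤ n := by exact_mod_cast hn.le
    have h2 : (1 : ℝ) ≤ k := by exact_mod_cast hk
    nlinarith
  · have hne : Nonempty (Fin k) := ⟨⟨0, hk⟩⟩
    rw [pr_compl, noninj_pr]
    have h1 : ((k + 1 - n : ℕ) : ℝ) ^ n ≤ (k.descFactorial n : ℝ) := by
      exact_mod_cast Nat.pow_sub_le_descFactorial k n
    have h2 : ((k + 1 - n : ℕ) : ℝ) = (k : ℝ) + 1 - n := by
      rw [Nat.cast_sub (by omega)]
      push_cast
      ring
    have hnk : (n : ℝ) ≤ k := by exact_mod_cast hn
    have h3 : 1 + (n : ℝ) * ((1 - n) / k) ≤ (1 + (1 - (n : ℝ)) / k) ^ n := by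
      apply one_add_mul_le_pow
      have h4 : (-1 : ℝ) ≤ (1 - n) / k := by
        rw [le_div_iff₀ hk0]
        linarith
      linarith
    have h5 : (1 + (1 - (n : ℝ)) / k) ^ n ≤ (k.descFactorial n : ℝ) / (k : ℝ) ^ n := by
      have h6 : 1 + (1 - (n : ℝ)) / k = ((k : ℝ) + 1 - n) / k := by
        field_simp
        ring
      rw [h6, div_pow, ← h2]
      exact div_le_div_of_nonneg_right h1 (by positivity)
    have h7 : (n : ℝ) ^ 2 / k - (1 - (1 + (n : ℝ) * ((1 - n) / k))) = n / k := by
      field_simp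
      ring
    have h8 : (0 : ℝ) ≤ n / k := by positivity
    linarith

end Pool.Agent.Lib.MP_90b327_co.LS
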