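import Mathlib
import Pool.Agent.Lib.MP_90b327_co.LS.Core
import Pool.Agent.Lib.MP_90b327_co.LS.Four
import Pool.Agent.Lib.MP_90b327_co.LS.Ker
import Pool.Agent.Lib.MP_90b327_co.LS.NonInj

/-!
Module Cnt (75 min): a dense set of integer vectors in a large box contains `z` and `z + GG γ`.

PROOF. Let `ε' := δ/16` (WLOG `δ ≤ 1`), `(r, w, n)` from `core (d-1) d d ε'`, `n0 := Σ_j n j` (so `n j ≤ n0`), `k` with `n0^2 / k ≤ δ/16`,
`ι := RR d (Fin k)`, `M := L + 1 + n0^d`, `L` so large that `((L+1)/M)^(card ι) ≥ 1/2` (Bernoulli). Given `T` let `T' : Finset (ι → ZMod M)` be its image under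
`z ↦ (z c : ZMod M)` (injective since `L < M`), `δ' := |T'|/M^|ι| ≥ δ/2`.
`α := Σ j : Fin r, {u : Fin (n j) → Fin k // Injective u}` with weights `w j / k^(n j)` and `g (j,u) := fun c => GG (univ.image u) c`. For every `θ`
`Σ_a w_a Re ee(Σ_c θ c GG c) = Σ_j w j avr_u [u inj] Re ee(Ph (kk θ) u)` (`kk_eq`) `≥ Σ_j w j ((ph (kk θ) (n j)).re - pr(not inj)) ≥ -ε' - δ/16 = -δ/8` (`core`, `kk_cls`, `pr_not_inj`), and
`Σ_a w_a = Σ_j w j (1 - pr(not inj)) ≥ 1 - δ/16 ≥ 15/16`. By `four` with `ε = δ/8`: `(15/16) δ'^2 - (δ/8) δ' > 0` as `δ' ≥ δ/2`, so some `a` has `w a > 0` and a `z` with `z ∈ T'`,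
`z + g_a ∈ T'`. Lift: `z, z' ∈ T`, `(z' c) ≡ (z c) + GG c mod M`, `|GG γ c| ≤ n^d ≤ n0^d` (`γ.card = n ≥ 1`), so `|z' c - z c - GG c| ≤ L + n0^d < M`, equality.
`γ = univ.image u` is non-empty as `n j ≥ 1`.
-/

set_option autoImplicit false

namespace Pool.Agent.Lib.MP_90b327_co.LS

open Finset Polynomial
open scoped BigOperators

private theorem Cnt_HH {d : ℕ} {V : Type} [DecidableEq V] (γ : Finset V) (hγ : γ.Nonempty)
    (c : Fin d → Option V) : |HH γ c| ≤ ((γ.card : ℤ)) ^ d := by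
  have h1 : (1 : ℤ) ≤ (γ.card : ℤ) := by exact_mod_cast Finset.card_pos.mpr hγ
  unfold HH
  rw [Finset.abs_prod]
  calc ∏ i, |hh γ (c i)| ≤ ∏ _i : Fin d, (γ.card : ℤ) := by
        refine Finset.prod_le_prod (fun i _ => abs_nonneg _) fun i _ => ?_
        rcases c i with _ | v
        · show |(-(γ.card : ℤ))| ≤ _
          rw [abs_neg, abs_of_nonneg (by positivity)]
        · show |(if v ∈ γ then (1 : ℤ) else 0)| ≤ _
          split_ifs
          · simpa using h1
          · rw [abs_zero]; positivity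
    _ = ((γ.card : ℤ)) ^ d := by rw [Finset.prod_const, Finset.card_univ, Fintype.card_fin]

/-- the average over the injective maps -/
private theorem Cnt_ph {k n : ℕ} (K : Multiset (Fin k) → ℝ[X]) (hk : 1 ≤ k) :
    (ph K n).re - pr (fun u : Fin n → Fin k => ¬ Function.Injective u) ≤
      (∑ u : {u : Fin n → Fin k // Function.Injective u}, (ee (Ph K u.1)).re) / (k : ℝ) ^ n := by
  classical
  have hcard : (Fintype.card (Fin n → Fin k) : ℝ) = (k : ℝ) ^ n := by
    rw [Fintype.card_fun, Fintype.card_fin, Fintype.card_fin]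
    push_cast
    rfl
  have hk0 : (0 : ℝ) < (k : ℝ) ^ n := by
    have : (0 : ℝ) < k := by exact_mod_cast hk
    positivity
  unfold ph
  rw [avc_re]
  unfold pr avr
  rw [hcard, ← sub_div, ← Finset.sum_sub_distrib]
  refine div_le_div_of_nonneg_right ?_ hk0.le
  have h1 : ∑ u : {u : Fin n → Fin k // Function.Injective u}, (ee (Ph K u.1)).re =
      ∑ u : Fin n → Fin k, if Function.Injective u then (ee (Ph K u)).re else 0 := by
    rw [← Finset.sum_filter]
    exact (Finset.sum_subtype (univ.filter (fun u : Fin n → Fin k => Function.Injective u))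
      (fun u => by simp) (fun u => (ee (Ph K u)).re)).symm
  rw [h1]
  refine Finset.sum_le_sum fun u _ => ?_
  by_cases hu : Function.Injective u
  · rw [if_pos hu, if_neg (not_not.mpr hu), sub_zero]
  · rw [if_neg hu, if_pos hu]
    have h2 := Complex.abs_re_le_norm (ee (Ph K u))
    rw [norm_ee] at h2
    linarith [(abs_le.mp h2).2]

private theorem Cnt_wt {k n : ℕ} (hk : 1 ≤ k) :
    (Fintype.card {u : Fin n → Fin k // Function.Injective u} : ℝ) / (k : ℝ) ^ n =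
      1 - pr (fun u : Fin n → Fin k => ¬ Function.Injective u) := by
  classical
  haveI : Nonempty (Fin k) := ⟨⟨0, hk⟩⟩
  have hcard : (Fintype.card (Fin n → Fin k) : ℝ) = (k : ℝ) ^ n := by
    rw [Fintype.card_fun, Fintype.card_fin, Fintype.card_fin]
    push_cast
    rfl
  rw [pr_compl, sub_sub_cancel]
  unfold pr avr
  rw [hcard]
  congr 1
  rw [Fintype.card_subtype, Finset.cast_card, Finset.sum_filter]
  refine Finset.sum_congr rfl fun x _ => ?_
  by_cases hx : Function.Injective x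
  · simp [hx]
  · simp [hx]

theorem cnt (d : ℕ) (hd : 1 ≤ d) (δ : ℝ) (hδ : 0 < δ) : ∃ k L : ℕ, 1 ≤ k ∧
    ∀ T : Finset (RR d (Fin k) → Fin (L + 1)),
      δ * (Fintype.card (RR d (Fin k) → Fin (L + 1)) : ℝ) ≤ (T.card : ℝ) →
      ∃ z ∈ T, ∃ z' ∈ T, ∃ γ : Finset (Fin k), γ.Nonempty ∧
        ∀ c, ((z' c : ℕ) : ℤ) = ((z c : ℕ) : ℤ) + GG γ c := by
  classical
  obtain ⟨δ0, hδ0, hδ1, hδδ⟩ : ∃ δ0 : ℝ, 0 < δ0 ∧ δ0 ≤ 1 ∧ δ0 ≤ δ :=
    ⟨min δ 1, lt_min hδ one_pos, min_le_right _ _, min_le_left _ _⟩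
  obtain ⟨r, w, n, hw0, hw1, hn1, hcore⟩ := core (d - 1) d d (δ0 / 16) (by positivity)
  obtain ⟨n0, hn0⟩ : ∃ n0 : ℕ, n0 = ∑ j, n j := ⟨_, rfl⟩
  have hnn0 : ∀ j, n j ≤ n0 := fun j => by
    rw [hn0]
    exact Finset.single_le_sum (f := n) (fun _ _ => Nat.zero_le _) (Finset.mem_univ j)
  obtain ⟨k, hk⟩ : ∃ k : ℕ, k = ⌈16 * (n0 : ℝ) ^ 2 / δ0⌉₊ + 1 := ⟨_, rfl⟩
  have hk1 : 1 ≤ k := by omega
  have hkR : (0 : ℝ) < k := by exact_mod_cast hk1
  have hkn : (n0 : ℝ) ^ 2 / k ≤ δ0 / 16 := by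
    have h1 : 16 * (n0 : ℝ) ^ 2 / δ0 ≤ k := by
      rw [hk]
      push_cast
      linarith [Nat.le_ceil (16 * (n0 : ℝ) ^ 2 / δ0)]
    rw [div_le_iff₀ hδ0] at h1
    rw [div_le_iff₀ hkR]
    linarith
  obtain ⟨C, hC⟩ : ∃ C : ℕ, C = Fintype.card (RR d (Fin k)) := ⟨_, rfl⟩
  obtain ⟨L, hL⟩ : ∃ L : ℕ, L = 2 * C * n0 ^ d := ⟨_, rfl⟩
  obtain ⟨M, hM⟩ : ∃ M : ℕ, M = L + 1 + n0 ^ d := ⟨_, rfl⟩
  haveI : NeZero M := ⟨by omega⟩
  haveI hne : Nonempty (Fin k) := ⟨⟨0, hk1⟩⟩
  refine ⟨k, L, hk1, fun T hT => ?_⟩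
  have hMR : (0 : ℝ) < M := by
    have : 0 < M := by omega
    exact_mod_cast this
  -- the embedding
  obtain ⟨f, hf⟩ : ∃ f : (RR d (Fin k) → Fin (L + 1)) → (RR d (Fin k) → ZMod M),
    f = fun z c => ((z c : ℕ) : ZMod M) := ⟨_, rfl⟩
  have hfinj : Function.Injective f := by
    intro z z' hzz
    funext c
    have h1 := congrFun hzz c
    rw [hf] at h1
    have h2 : ((z c : ℕ) : ZMod M) = ((z' c : ℕ) : ZMod M) := h1
    have h3 := congrArg ZMod.val h2
    rw [ZMod.val_natCast_of_lt (by have := (z c).2; omega),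
      ZMod.val_natCast_of_lt (by have := (z' c).2; omega)] at h3
    exact Fin.ext h3
  have hTcard : (T.image f).card = T.card := Finset.card_image_of_injective _ hfinj
  -- density
  obtain ⟨η, hη⟩ : ∃ η : ℝ, η = ((T.card : ℝ) / (M : ℝ) ^ C) := ⟨_, rfl⟩
  have hηδ : δ0 / 2 ≤ η := by
    have h1 : (Fintype.card (RR d (Fin k) → Fin (L + 1)) : ℝ) = ((L : ℝ) + 1) ^ C := by
      rw [Fintype.card_fun, Fintype.card_fin, ← hC]
      push_cast
      rfl
    rw [h1] at hT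
    have h2 : δ0 * ((L : ℝ) + 1) ^ C ≤ T.card :=
      le_trans (mul_le_mul_of_nonneg_right hδδ (by positivity)) hT
    have h3 : (1 / 2 : ℝ) * (M : ℝ) ^ C ≤ ((L : ℝ) + 1) ^ C := by
      have h4 : (M : ℝ) = (L + 1) + (n0 : ℝ) ^ d := by rw [hM]; push_cast; ring
      have h5 : (L : ℝ) = 2 * C * (n0 : ℝ) ^ d := by rw [hL]; push_cast; ring
      have h6 : (-2 : ℝ) ≤ -((n0 : ℝ) ^ d / M) := by
        have : (n0 : ℝ) ^ d / M ≤ 1 := by
          rw [div_le_one hMR, h4]
          have : (0 : ℝ) ≤ L := Nat.cast_nonneg L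
          linarith
        linarith
      have h7 := one_add_mul_le_pow h6 C
      have h8 : (1 : ℝ) + -((n0 : ℝ) ^ d / M) = ((L : ℝ) + 1) / M := by
        rw [eq_div_iff hMR.ne', add_mul, neg_mul, div_mul_cancel₀ _ hMR.ne', h4]
        ring
      have h9 : (1 / 2 : ℝ) ≤ 1 + (C : ℝ) * -((n0 : ℝ) ^ d / M) := by
        have : (C : ℝ) * ((n0 : ℝ) ^ d / M) ≤ 1 / 2 := by
          rw [← mul_div_assoc, div_le_iff₀ hMR, h4, h5]
          have : (0 : ℝ) ≤ (n0 : ℝ) ^ d := by positivity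
          linarith
        linarith
      rw [h8, div_pow] at h7
      have h10 := h9.trans h7
      rwa [le_div_iff₀ (by positivity)] at h10
    rw [hη, le_div_iff₀ (by positivity)]
    calc δ0 / 2 * (M : ℝ) ^ C = δ0 * ((1 / 2 : ℝ) * (M : ℝ) ^ C) := by ring
      _ ≤ δ0 * ((L : ℝ) + 1) ^ C := mul_le_mul_of_nonneg_left h3 hδ0.le
      _ ≤ T.card := h2
  -- the non-injective maps
  have hpr : ∀ j, pr (fun u : Fin (n j) → Fin k => ¬ Function.Injective u) ≤ δ0 / 16 := by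
    intro j
    refine (pr_not_inj (n j) k hk1).trans (le_trans ?_ hkn)
    refine div_le_div_of_nonneg_right ?_ hkR.le
    have : (n j : ℝ) ≤ n0 := by exact_mod_cast hnn0 j
    exact pow_le_pow_left₀ (Nat.cast_nonneg _) this 2
  -- four
  have hfour := four M (T.image f)
    (α := Σ j : Fin r, {u : Fin (n j) → Fin k // Function.Injective u})
    (fun a => w a.1 / (k : ℝ) ^ (n a.1))
    (fun a c => GG ((univ : Finset (Fin (n a.1))).image a.2.1) c) (δ0 / 8) (by positivity) (by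
      intro θ
      have h1 := hcore (Fin k) (kk θ) (kk_cls hd θ)
      have h2 : ∑ a : (Σ j : Fin r, {u : Fin (n j) → Fin k // Function.Injective u}),
          w a.1 / (k : ℝ) ^ (n a.1) * (ee (∑ c, θ c *
            ((GG ((univ : Finset (Fin (n a.1))).image a.2.1) c : ℤ) : ℝ))).re =
          ∑ j, w j * ((∑ u : {u : Fin (n j) → Fin k // Function.Injective u},
            (ee (Ph (kk θ) u.1)).re) / (k : ℝ) ^ (n j)) := by
        rw [Fintype.sum_sigma]
        refine Finset.sum_congr rfl fun j _ => ?_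
        rw [Finset.sum_div, Finset.mul_sum]
        refine Finset.sum_congr rfl fun u _ => ?_
        rw [kk_eq hd θ (n j) u.1 u.2]
        ring
      rw [h2]
      have h3 : ∑ j, w j * ((ph (kk θ) (n j)).re - δ0 / 16) ≤
          ∑ j, w j * ((∑ u : {u : Fin (n j) → Fin k // Function.Injective u},
            (ee (Ph (kk θ) u.1)).re) / (k : ℝ) ^ (n j)) := by
        refine Finset.sum_le_sum fun j _ => mul_le_mul_of_nonneg_left ?_ (hw0 j)
        have h4 := Cnt_ph (n := n j) (kk θ) hk1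
        have h5 := hpr j
        linarith
      have h6 : ∑ j, w j * ((ph (kk θ) (n j)).re - δ0 / 16) =
          ∑ j, w j * (ph (kk θ) (n j)).re - δ0 / 16 := by
        have h7 : ∑ j, w j * ((ph (kk θ) (n j)).re - δ0 / 16) =
            ∑ j, (w j * (ph (kk θ) (n j)).re - w j * (δ0 / 16)) :=
          Finset.sum_congr rfl fun j _ => mul_sub _ _ _
        rw [h7, Finset.sum_sub_distrib, ← Finset.sum_mul, hw1, one_mul]
      linarith)
  rw [hTcard, ← hC, ← hη] at hfour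
  have hwsum : 15 / 16 ≤ ∑ a : (Σ j : Fin r, {u : Fin (n j) → Fin k // Function.Injective u}),
      w a.1 / (k : ℝ) ^ (n a.1) := by
    rw [Fintype.sum_sigma]
    have h1 : ∀ j, ∑ _u : {u : Fin (n j) → Fin k // Function.Injective u}, w j / (k : ℝ) ^ (n j) =
        w j * (1 - pr (fun u : Fin (n j) → Fin k => ¬ Function.Injective u)) := by
      intro j
      rw [← Cnt_wt hk1, Finset.sum_const, Finset.card_univ, nsmul_eq_mul]
      ring
    rw [Finset.sum_congr rfl fun j _ => h1 j]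
    calc (15 / 16 : ℝ) ≤ 1 - δ0 / 16 := by linarith
      _ = ∑ j, w j * (1 - δ0 / 16) := by rw [← Finset.sum_mul, hw1, one_mul]
      _ ≤ _ := Finset.sum_le_sum fun j _ => mul_le_mul_of_nonneg_left (by linarith [hpr j]) (hw0 j)
  have hη0 : 0 < η := lt_of_lt_of_le (by positivity) hηδ
  have hpos : 0 < (∑ a : (Σ j : Fin r, {u : Fin (n j) → Fin k // Function.Injective u}),
      w a.1 / (k : ℝ) ^ (n a.1)) * η ^ 2 - δ0 / 8 * η := by
    have h1 := mul_le_mul_of_nonneg_right hwsum (sq_nonneg η)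
    nlinarith
  have hex : ∃ a : (Σ j : Fin r, {u : Fin (n j) → Fin k // Function.Injective u}),
      (((T.image f).filter (fun z => (fun i => z i +
        ((GG ((univ : Finset (Fin (n a.1))).image a.2.1) i : ℤ) : ZMod M)) ∈ T.image f))).Nonempty := by
    by_contra hcon
    push Not at hcon
    have h1 := lt_of_lt_of_le hpos hfour
    have h2 : ∑ a : (Σ j : Fin r, {u : Fin (n j) → Fin k // Function.Injective u}),
        w a.1 / (k : ℝ) ^ (n a.1) * ((((T.image f).filter (fun z => (fun i => z i +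
          ((GG ((univ : Finset (Fin (n a.1))).image a.2.1) i : ℤ) : ZMod M)) ∈ T.image f)).card : ℝ) /
          (M : ℝ) ^ C) = 0 := by
      refine Finset.sum_eq_zero fun a _ => ?_
      rw [hcon a, Finset.card_empty]
      simp
    rw [h2] at h1
    exact lt_irrefl _ h1
  obtain ⟨a, z0, hz0⟩ := hex
  rw [Finset.mem_filter, Finset.mem_image, Finset.mem_image] at hz0
  obtain ⟨⟨z, hz, hzf⟩, ⟨z', hz', hzf'⟩⟩ := hz0
  have hγne : ((univ : Finset (Fin (n a.1))).image a.2.1).Nonempty :=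
    ⟨a.2.1 ⟨0, hn1 a.1⟩, Finset.mem_image_of_mem _ (Finset.mem_univ _)⟩
  refine ⟨z, hz, z', hz', (univ : Finset (Fin (n a.1))).image a.2.1, hγne, fun c => ?_⟩
  have h1 : ((z' c : ℕ) : ZMod M) = ((z c : ℕ) : ZMod M) +
      ((GG ((univ : Finset (Fin (n a.1))).image a.2.1) c : ℤ) : ZMod M) := by
    have h2 := congrFun hzf' c
    rw [← hzf, hf] at h2
    exact h2
  have h2 : (M : ℤ) ∣ ((z' c : ℕ) : ℤ) -
      (((z c : ℕ) : ℤ) + GG ((univ : Finset (Fin (n a.1))).image a.2.1) c) := by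
    rw [← ZMod.intCast_zmod_eq_zero_iff_dvd]
    push_cast
    rw [h1]
    ring
  have h3 : |GG ((univ : Finset (Fin (n a.1))).image a.2.1) c| ≤ ((n0 : ℤ)) ^ d := by
    unfold GG
    rw [abs_neg]
    refine (Cnt_HH _ hγne c.1).trans ?_
    refine pow_le_pow_left₀ (by positivity) ?_ d
    rw [Finset.card_image_of_injective _ a.2.2, Finset.card_univ, Fintype.card_fin]
    exact_mod_cast hnn0 a.1
  have h4 : |((z' c : ℕ) : ℤ) -
      (((z c : ℕ) : ℤ) + GG ((univ : Finset (Fin (n a.1))).image a.2.1) c)| < M := by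
    have h5 := (z c).2
    have h6 := (z' c).2
    have h7 := abs_le.mp h3
    have h8 : (M : ℤ) = L + 1 + (n0 : ℤ) ^ d := by rw [hM]; push_cast; ring
    rw [abs_lt, h8]
    constructor
    · omega
    · omega
  have h5 := Int.eq_zero_of_abs_lt_dvd h2 h4
  linarith

end Pool.Agent.Lib.MP_90b327_co.LS
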