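import Mathlib
import Pool.Agent.Lib.MP_90b327_co.LS.Box

/-!
Module Gad (75 min): the gadget patterns.

PROOF of `pat_full`: a cell `cw c l ω` with `ω i = true` has `i`-th coordinate `Sum.inr _`, a cell of `full γ` has all coordinates `Sum.inl _`.
PROOF of `pat_line`: (1) if `ω ≠ false` then `(c, l, ω)` is determined by `cw c l ω` (`ω` = set of the coordinates in `inr`, which also tell `(c,l)`, ... the full triple sits in the `inr`
coordinate). So for every cell `x`: `[x ∈ pat z] = Σ_{c,l} Σ_{ω ≠ false} [Odd (nt ω) ↔ l < z c] [cw c l ω = x]` (integers).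
(2) `[Odd (nt ω) ↔ l < z c] - [Odd (nt ω) ↔ l < z' c] = ([l < z c] - [l < z' c]) * (-(-1)^(nt ω))`.
(3) by `box_line`, for every `c, l, b, j`: `Σ_v Σ_{ω ≠ false} (-(-1)^(nt ω)) [cw c l ω = update b j v] = Σ_v [inl ∘ c = update b j v]` (the term `ω = false`).
(4) `Σ_l ([l < z c] - [l < z' c]) = z c - z' c = HH γ c` (values `≤ L`).
(5) so `#(pat z ∪ full γ) - #(pat z')` on the line is `Σ_v ([update b j v ∈ full γ] + Σ_{c ∈ RR} HH γ c [inl ∘ c = update b j v]) = Σ_v Σ_{c : Fin d → Option V} HH γ c [inl ∘ c = update b j v]`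
(for `c` without `none`, `HH γ c = 1` if all `c i ∈ γ` and `0` otherwise). If all `b i`, `i ≠ j`, are `inl (b' i)` this is `Σ_{o : Option V} HH γ (update b' j o) = 0` (`HH_line`); otherwise
no term. (`pat z` and `full γ` are disjoint, so the cardinality of the union on the line is the sum.)
-/

set_option autoImplicit false

namespace Pool.Agent.Lib.MP_90b327_co.LS

open Finset Polynomial
open scoped BigOperators

/-- indicator of a proposition -/
private noncomputable def ib (p : Prop) : ℤ := @ite ℤ p (Classical.propDecidable p) 1 0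

private theorem ib_pos {p : Prop} (h : p) : ib p = 1 := by
  unfold ib
  exact if_pos h

private theorem ib_neg {p : Prop} (h : ¬ p) : ib p = 0 := by
  unfold ib
  exact if_neg h

private theorem ib_eq (p : Prop) [Decidable p] : (if p then (1 : ℤ) else 0) = ib p := by
  by_cases h : p
  · rw [if_pos h, ib_pos h]
  · rw [if_neg h, ib_neg h]

private theorem gad_ls {d : ℕ} {U : Type} [Fintype U] [DecidableEq U] (A : Finset (Fin d → U))
    (j : Fin d) (a : Fin d → U) : ((ls A j a : ℕ) : ℤ) = ∑ v, ib (Function.update a j v ∈ A) := by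
  unfold ls
  rw [card_filter]
  push_cast
  exact sum_congr rfl fun v _ => ib_eq _

private theorem gad_uniq {T X : Type} [Fintype T] (f : T → X) (P : T → Prop)
    (hinj : ∀ s t, P s → P t → f s = f t → s = t) (x : X) :
    ∑ t, ib (P t ∧ f t = x) = ib (∃ t, P t ∧ f t = x) := by
  by_cases h : ∃ t, P t ∧ f t = x
  · rw [ib_pos h]
    obtain ⟨t0, h1, h2⟩ := h
    rw [sum_eq_single t0]
    · exact ib_pos ⟨h1, h2⟩
    · intro t _ ht
      refine ib_neg fun h3 => ht ?_
      exact hinj t t0 h3.1 h1 (h3.2.trans h2.symm)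
    · intro h3
      exact absurd (mem_univ t0) h3
  · rw [ib_neg h]
    exact sum_eq_zero fun t _ => ib_neg fun h1 => h ⟨t, h1⟩

private theorem gad_cw_inj {d : ℕ} {V : Type} {L : ℕ} (c c' : RR d V) (l l' : Fin L)
    (ω ω' : Fin d → Bool) (hω : ∃ i, ω i = true) (h : cw c l ω = cw c' l' ω') :
    c = c' ∧ l = l' ∧ ω = ω' := by
  have h1 : ∀ i, ω i = ω' i := by
    intro i
    have h2 := congrFun h i
    unfold cw pick at h2
    cases ha : ω i <;> cases hb : ω' i
    · rfl
    · rw [ha, hb] at h2
      simp at h2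
    · rw [ha, hb] at h2
      simp at h2
    · rfl
  obtain ⟨i, hi⟩ := hω
  have h2 := congrFun h i
  have h3 := h1 i
  rw [hi] at h3
  unfold cw pick at h2
  rw [hi, ← h3, if_pos rfl, if_pos rfl] at h2
  have h4 := Sum.inr.inj h2
  exact ⟨(Prod.mk.inj h4).1, (Prod.mk.inj (Prod.mk.inj h4).2).1, funext h1⟩

private theorem gad_pat {d : ℕ} {V : Type} [Fintype V] [DecidableEq V] {L : ℕ} (z : RR d V → ℕ)
    (x : Fin d → UU d V L) : ib (x ∈ pat (L := L) z) =
      ∑ c : RR d V, ∑ l : Fin L, ∑ ω : Fin d → Bool,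
        ib (((∃ i, ω i = true) ∧ (Odd (nt ω) ↔ (l : ℕ) < z c)) ∧ cw c l ω = x) := by
  have h1 := gad_uniq (T := RR d V × Fin L × (Fin d → Bool)) (X := Fin d → UU d V L)
    (fun t => cw t.1 t.2.1 t.2.2)
    (fun t => (∃ i, t.2.2 i = true) ∧ (Odd (nt t.2.2) ↔ (t.2.1 : ℕ) < z t.1))
    (by
      rintro ⟨c, l, ω⟩ ⟨c', l', ω'⟩ hs _ h
      obtain ⟨h1, h2, h3⟩ := gad_cw_inj c c' l l' ω ω' hs.1 h
      rw [h1, h2, h3]) x
  rw [Fintype.sum_prod_type] at h1
  simp only [Fintype.sum_prod_type] at h1
  rw [h1]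
  congr 1
  rw [mem_pat]
  apply propext
  constructor
  · rintro ⟨c, l, ω, h2, h3, h4⟩
    exact ⟨(c, l, ω), ⟨h2, h3⟩, h4.symm⟩
  · rintro ⟨⟨c, l, ω⟩, ⟨h2, h3⟩, h4⟩
    exact ⟨c, l, ω, h2, h3, h4.symm⟩

private theorem gad_full {d : ℕ} {V : Type} [Fintype V] [DecidableEq V] {L : ℕ} (γ : Finset V)
    (x : Fin d → UU d V L) : ib (x ∈ full (L := L) γ) =
      ∑ c : Fin d → Option V, (1 - ib (∃ i, c i = none)) *
        (HH γ c * ib ((fun i => (Sum.inl (c i) : UU d V L)) = x)) := by
  by_cases hx : ∃ c : Fin d → Option V, (fun i => (Sum.inl (c i) : UU d V L)) = x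
  · obtain ⟨c0, rfl⟩ := hx
    rw [sum_eq_single c0]
    · rw [ib_pos (rfl : (fun i => (Sum.inl (c0 i) : UU d V L)) = _), mul_one]
      by_cases h1 : ∃ i, c0 i = none
      · rw [ib_pos h1, sub_self, zero_mul]
        refine ib_neg fun h2 => ?_
        rw [mem_full] at h2
        obtain ⟨i, hi⟩ := h1
        obtain ⟨v, _, hv⟩ := h2 i
        have h3 := Sum.inl.inj hv
        rw [hi] at h3
        exact absurd h3 (by simp)
      · rw [ib_neg h1, sub_zero, one_mul]
        by_cases h2 : ∀ i, ∃ v ∈ γ, c0 i = some v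
        · rw [ib_pos]
          · unfold HH
            symm
            refine prod_eq_one fun i _ => ?_
            obtain ⟨v, hv, hv2⟩ := h2 i
            rw [hv2]
            exact if_pos hv
          · rw [mem_full]
            intro i
            obtain ⟨v, hv, hv2⟩ := h2 i
            exact ⟨v, hv, by rw [hv2]⟩
        · rw [ib_neg]
          · push Not at h2
            obtain ⟨i, hi⟩ := h2
            unfold HH
            symm
            refine prod_eq_zero (mem_univ i) ?_
            cases hc : c0 i with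
            | none => exact absurd ⟨i, hc⟩ h1
            | some v =>
              exact if_neg fun hv => hi v hv hc
          · intro h3
            apply h2
            intro i
            rw [mem_full] at h3
            obtain ⟨v, hv, hv2⟩ := h3 i
            exact ⟨v, hv, Sum.inl.inj hv2⟩
    · intro c _ hc
      rw [ib_neg (p := (fun i => (Sum.inl (c i) : UU d V L)) = _), mul_zero, mul_zero]
      intro h
      apply hc
      funext i
      exact Sum.inl.inj (congrFun h i)
    · intro h
      exact absurd (mem_univ c0) h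
  · rw [ib_neg]
    · symm
      refine sum_eq_zero fun c _ => ?_
      rw [ib_neg (fun h => hx ⟨c, h⟩), mul_zero, mul_zero]
    · intro h
      rw [mem_full] at h
      choose v hv hv2 using h
      exact hx ⟨fun i => some (v i), funext fun i => (hv2 i).symm⟩

private theorem gad_inner {d : ℕ} {V : Type} [Fintype V] [DecidableEq V] {L : ℕ}
    (c : Fin d → Option V) (j : Fin d) (b : Fin d → UU d V L) :
    ∑ v, ib ((fun i => (Sum.inl (c i) : UU d V L)) = Function.update b j v) =
      ib (∀ i, i ≠ j → (Sum.inl (c i) : UU d V L) = b i) := by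
  by_cases h : ∀ i, i ≠ j → (Sum.inl (c i) : UU d V L) = b i
  · rw [ib_pos h, sum_eq_single (Sum.inl (c j))]
    · apply ib_pos
      funext i
      by_cases hi : i = j
      · subst hi
        rw [Function.update_self]
      · rw [Function.update_of_ne hi]
        exact h i hi
    · intro v _ hv
      refine ib_neg fun h2 => hv ?_
      have h3 := congrFun h2 j
      rw [Function.update_self] at h3
      exact h3.symm
    · intro h2
      exact absurd (mem_univ _) h2
  · rw [ib_neg h]
    refine sum_eq_zero fun v _ => ib_neg fun h2 => h ?_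
    intro i hi
    have h3 := congrFun h2 i
    rw [Function.update_of_ne hi] at h3
    exact h3

private theorem gad_HH {d : ℕ} {V : Type} [Fintype V] [DecidableEq V] {L : ℕ} (γ : Finset V)
    (j : Fin d) (b : Fin d → UU d V L) :
    ∑ c : Fin d → Option V, HH γ c * ib (∀ i, i ≠ j → (Sum.inl (c i) : UU d V L) = b i) = 0 := by
  by_cases hb : ∃ b' : Fin d → Option V, ∀ i, i ≠ j → (Sum.inl (b' i) : UU d V L) = b i
  · obtain ⟨b', hb'⟩ := hb
    rw [← HH_line γ b' j]
    symm
    refine sum_of_injOn (fun o => Function.update b' j o) ?_ (fun _ _ => mem_coe.2 (mem_univ _))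
      ?_ ?_
    · intro o _ o' _ h
      have h2 := congrFun h j
      simpa using h2
    · intro c _ hc
      rw [ib_neg, mul_zero]
      intro h
      apply hc
      refine ⟨c j, mem_coe.2 (mem_univ _), ?_⟩
      funext i
      by_cases hi : i = j
      · subst hi
        exact Function.update_self _ _ _
      · show Function.update b' j (c j) i = c i
        rw [Function.update_of_ne hi]
        have h2 := (hb' i hi).trans (h i hi).symm
        exact Sum.inl.inj h2
    · intro o _
      rw [ib_pos, mul_one]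
      intro i hi
      rw [Function.update_of_ne hi]
      exact hb' i hi
  · refine sum_eq_zero fun c _ => ?_
    rw [ib_neg (fun h => hb ⟨c, h⟩), mul_zero]

private theorem gad_box {d : ℕ} {V : Type} [Fintype V] [DecidableEq V] {L : ℕ} (c : RR d V)
    (l : Fin L) (j : Fin d) (b : Fin d → UU d V L) :
    ∑ v, ∑ ω : Fin d → Bool, ib (∃ i, ω i = true) *
      (-(-1 : ℤ) ^ (nt ω) * ib (cw c l ω = Function.update b j v)) =
        ∑ v, ib ((fun i => (Sum.inl (c.1 i) : UU d V L)) = Function.update b j v) := by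
  have h1 := box_line (fun i => (Sum.inl (c.1 i) : UU d V L)) (fun i => Sum.inr (c, l, i)) b j
  simp only [ib_eq] at h1
  have h2 : ∀ v, ∑ ω : Fin d → Bool, (-1 : ℤ) ^ (nt ω) *
      ib (pick ω (fun i => (Sum.inl (c.1 i) : UU d V L)) (fun i => Sum.inr (c, l, i)) =
        Function.update b j v) =
      ib ((fun i => (Sum.inl (c.1 i) : UU d V L)) = Function.update b j v) -
        ∑ ω : Fin d → Bool, ib (∃ i, ω i = true) *
          (-(-1 : ℤ) ^ (nt ω) * ib (cw c l ω = Function.update b j v)) := by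
    intro v
    have h3 : ∀ ω : Fin d → Bool, (-1 : ℤ) ^ (nt ω) *
        ib (pick ω (fun i => (Sum.inl (c.1 i) : UU d V L)) (fun i => Sum.inr (c, l, i)) =
          Function.update b j v) =
        (1 - ib (∃ i, ω i = true)) *
          ((-1 : ℤ) ^ (nt ω) * ib (cw c l ω = Function.update b j v)) -
          ib (∃ i, ω i = true) *
            (-(-1 : ℤ) ^ (nt ω) * ib (cw c l ω = Function.update b j v)) := by
      intro ω
      have h4 : cw c l ω =
          pick ω (fun i => (Sum.inl (c.1 i) : UU d V L)) (fun i => Sum.inr (c, l, i)) := rfl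
      rw [h4]
      ring
    simp only [h3]
    rw [sum_sub_distrib]
    congr 1
    rw [sum_eq_single (fun _ => false)]
    · rw [ib_neg (p := ∃ i, (fun _ : Fin d => false) i = true)]
      · have h5 : nt (fun _ : Fin d => false) = 0 := by
          unfold nt
          simp
        rw [h5, pow_zero, one_mul, sub_zero, one_mul]
        rfl
      · rintro ⟨i, hi⟩
        exact absurd hi (by simp)
    · intro ω _ hω
      rw [ib_pos, sub_self, zero_mul]
      by_contra h5
      push Not at h5
      apply hω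
      funext i
      have := h5 i
      simpa using this
    · intro h5
      exact absurd (mem_univ _) h5
  simp only [h2] at h1
  rw [sum_sub_distrib, sub_eq_zero] at h1
  exact h1.symm

private theorem gad_count {L n : ℕ} (hn : n ≤ L) : ∑ l : Fin L, ib ((l : ℕ) < n) = n := by
  have h1 : ∑ l : Fin L, ib ((l : ℕ) < n) = ∑ l ∈ range L, ib (l < n) :=
    Fin.sum_univ_eq_sum_range (fun l => ib (l < n)) L
  rw [h1, ← sum_range_add_sum_Ico _ hn]
  have h2 : ∑ l ∈ range n, ib (l < n) = n := by
    rw [sum_congr rfl (fun l hl => ib_pos (mem_range.1 hl))]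
    simp
  have h3 : ∑ l ∈ Ico n L, ib (l < n) = 0 :=
    sum_eq_zero fun l hl => ib_neg (by
      rw [mem_Ico] at hl
      omega)
  rw [h2, h3, add_zero]

private theorem gad_par (P Q R e : Prop) (n : ℕ) :
    ib ((R ∧ (Odd n ↔ P)) ∧ e) - ib ((R ∧ (Odd n ↔ Q)) ∧ e) =
      (ib P - ib Q) * (ib R * (-(-1 : ℤ) ^ n * ib e)) := by
  by_cases he : e
  · by_cases hR : R
    · rw [ib_pos he, ib_pos hR, mul_one, one_mul]
      rcases Nat.even_or_odd n with hn | hn
      · rw [hn.neg_one_pow]
        have hn' : ¬ Odd n := Nat.not_odd_iff_even.2 hn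
        by_cases hP : P <;> by_cases hQ : Q
        · rw [ib_pos hP, ib_pos hQ, ib_neg (fun h => hn' (h.1.2.2 hP)),
            ib_neg (fun h => hn' (h.1.2.2 hQ))]
          norm_num
        · rw [ib_pos hP, ib_neg hQ, ib_neg (fun h => hn' (h.1.2.2 hP)),
            ib_pos ⟨⟨hR, ⟨fun h => absurd h hn', fun h => absurd h hQ⟩⟩, he⟩]
          norm_num
        · rw [ib_neg hP, ib_pos hQ, ib_neg (fun h : (R ∧ (Odd n ↔ Q)) ∧ e => hn' (h.1.2.2 hQ)),
            ib_pos ⟨⟨hR, ⟨fun h => absurd h hn', fun h => absurd h hP⟩⟩, he⟩]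
          norm_num
        · rw [ib_neg hP, ib_neg hQ, ib_pos ⟨⟨hR, ⟨fun h => absurd h hn', fun h => absurd h hP⟩⟩, he⟩,
            ib_pos ⟨⟨hR, ⟨fun h => absurd h hn', fun h => absurd h hQ⟩⟩, he⟩]
          norm_num
      · rw [hn.neg_one_pow]
        by_cases hP : P <;> by_cases hQ : Q
        · rw [ib_pos hP, ib_pos hQ, ib_pos ⟨⟨hR, ⟨fun _ => hP, fun _ => hn⟩⟩, he⟩,
            ib_pos ⟨⟨hR, ⟨fun _ => hQ, fun _ => hn⟩⟩, he⟩]
          norm_num
        · rw [ib_pos hP, ib_neg hQ, ib_pos ⟨⟨hR, ⟨fun _ => hP, fun _ => hn⟩⟩, he⟩,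
            ib_neg (fun h : (R ∧ (Odd n ↔ Q)) ∧ e => hQ (h.1.2.1 hn))]
          norm_num
        · rw [ib_neg hP, ib_pos hQ, ib_neg (fun h : (R ∧ (Odd n ↔ P)) ∧ e => hP (h.1.2.1 hn)),
            ib_pos ⟨⟨hR, ⟨fun _ => hQ, fun _ => hn⟩⟩, he⟩]
          norm_num
        · rw [ib_neg hP, ib_neg hQ, ib_neg (fun h : (R ∧ (Odd n ↔ P)) ∧ e => hP (h.1.2.1 hn)),
            ib_neg (fun h : (R ∧ (Odd n ↔ Q)) ∧ e => hQ (h.1.2.1 hn))]
          norm_num
    · rw [ib_neg hR, ib_neg (fun h => hR h.1.1), ib_neg (fun h => hR h.1.1)]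
      ring
  · rw [ib_neg he, ib_neg (fun h => he h.2), ib_neg (fun h => he h.2)]
    ring

theorem pat_full {d : ℕ} {V : Type} [Fintype V] [DecidableEq V] {L : ℕ} (z : RR d V → ℕ)
    (γ : Finset V) : Disjoint (pat (L := L) z) (full (L := L) (d := d) γ) := by
  rw [Finset.disjoint_left]
  intro x hx hx'
  rw [mem_pat] at hx
  rw [mem_full] at hx'
  obtain ⟨c, l, ω, ⟨i, hi⟩, _, rfl⟩ := hx
  obtain ⟨v, _, hv⟩ := hx' i
  unfold cw pick at hv
  rw [hi, if_pos rfl] at hv
  exact absurd hv (by simp)

theorem pat_line {d : ℕ} {V : Type} [Fintype V] [DecidableEq V] {L : ℕ} (z z' : RR d V → ℕ)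
    (hz : ∀ c, z c ≤ L) (hz' : ∀ c, z' c ≤ L) (γ : Finset V)
    (h : ∀ c, ((z' c : ℕ) : ℤ) = ((z c : ℕ) : ℤ) + GG γ c) (j : Fin d) (b : Fin d → UU d V L) :
    ls (pat (L := L) z ∪ full γ) j b = ls (pat (L := L) z') j b := by
  have hmain : ((ls (pat (L := L) z ∪ full γ) j b : ℕ) : ℤ) = ((ls (pat (L := L) z') j b : ℕ) : ℤ) := by
    rw [gad_ls, gad_ls]
    have h1 : ∀ x : Fin d → UU d V L, ib (x ∈ pat (L := L) z ∪ full γ) =
        ib (x ∈ pat (L := L) z) + ib (x ∈ full (L := L) γ) := by
      intro x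
      by_cases h2 : x ∈ pat (L := L) z
      · have h3 : x ∉ full (L := L) γ := Finset.disjoint_left.1 (pat_full z γ) h2
        rw [ib_pos (mem_union_left _ h2), ib_pos h2, ib_neg h3, add_zero]
      · by_cases h3 : x ∈ full (L := L) γ
        · rw [ib_pos (mem_union_right _ h3), ib_neg h2, ib_pos h3, zero_add]
        · rw [ib_neg, ib_neg h2, ib_neg h3, add_zero]
          rw [mem_union]
          tauto
    simp only [h1]
    rw [sum_add_distrib]
    -- the difference of the patterns
    have h2 : ∑ v, ib (Function.update b j v ∈ pat (L := L) z) -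
        ∑ v, ib (Function.update b j v ∈ pat (L := L) z') =
        ∑ c : RR d V, HH γ c.1 * ib (∀ i, i ≠ j → (Sum.inl (c.1 i) : UU d V L) = b i) := by
      rw [← sum_sub_distrib]
      have h3 : ∀ v, ib (Function.update b j v ∈ pat (L := L) z) -
          ib (Function.update b j v ∈ pat (L := L) z') =
          ∑ c : RR d V, ∑ l : Fin L, (ib ((l : ℕ) < z c) - ib ((l : ℕ) < z' c)) *
            ∑ ω : Fin d → Bool, ib (∃ i, ω i = true) *
              (-(-1 : ℤ) ^ (nt ω) * ib (cw c l ω = Function.update b j v)) := by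
        intro v
        rw [gad_pat, gad_pat, ← sum_sub_distrib]
        refine sum_congr rfl fun c _ => ?_
        rw [← sum_sub_distrib]
        refine sum_congr rfl fun l _ => ?_
        rw [← sum_sub_distrib, mul_sum]
        exact sum_congr rfl fun ω _ => gad_par _ _ _ _ _
      simp only [h3]
      rw [sum_comm]
      refine sum_congr rfl fun c _ => ?_
      rw [sum_comm]
      have h4 : ∀ l : Fin L, ∑ v, (ib ((l : ℕ) < z c) - ib ((l : ℕ) < z' c)) *
            ∑ ω : Fin d → Bool, ib (∃ i, ω i = true) *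
              (-(-1 : ℤ) ^ (nt ω) * ib (cw c l ω = Function.update b j v)) =
          (ib ((l : ℕ) < z c) - ib ((l : ℕ) < z' c)) *
            ib (∀ i, i ≠ j → (Sum.inl (c.1 i) : UU d V L) = b i) := by
        intro l
        rw [← mul_sum, gad_box, gad_inner]
      simp only [h4]
      rw [← sum_mul, sum_sub_distrib, gad_count (hz c), gad_count (hz' c)]
      have h5 := h c
      unfold GG at h5
      rw [h5]
      ring
    -- the full part
    have h6 : ∑ v, ib (Function.update b j v ∈ full (L := L) γ) =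
        ∑ c : Fin d → Option V, (1 - ib (∃ i, c i = none)) *
          (HH γ c * ib (∀ i, i ≠ j → (Sum.inl (c i) : UU d V L) = b i)) := by
      simp only [gad_full]
      rw [sum_comm]
      refine sum_congr rfl fun c _ => ?_
      rw [← mul_sum, ← mul_sum, gad_inner]
    have h7 : ∑ c : RR d V, HH γ c.1 * ib (∀ i, i ≠ j → (Sum.inl (c.1 i) : UU d V L) = b i) =
        ∑ c : Fin d → Option V, ib (∃ i, c i = none) *
          (HH γ c * ib (∀ i, i ≠ j → (Sum.inl (c i) : UU d V L) = b i)) := by
      rw [← Finset.sum_subtype (univ.filter (fun c : Fin d → Option V => ∃ i, c i = none))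
        (by intro x; simp)
        (fun c => HH γ c * ib (∀ i, i ≠ j → (Sum.inl (c i) : UU d V L) = b i)), sum_filter]
      refine sum_congr rfl fun c _ => ?_
      by_cases h8 : ∃ i, c i = none
      · rw [if_pos h8, ib_pos h8, one_mul]
      · rw [if_neg h8, ib_neg h8, zero_mul]
    have h8 := gad_HH γ j b
    have h9 : ∑ c : Fin d → Option V, HH γ c * ib (∀ i, i ≠ j → (Sum.inl (c i) : UU d V L) = b i) =
        ∑ c : Fin d → Option V, ib (∃ i, c i = none) *
          (HH γ c * ib (∀ i, i ≠ j → (Sum.inl (c i) : UU d V L) = b i)) +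
        ∑ c : Fin d → Option V, (1 - ib (∃ i, c i = none)) *
          (HH γ c * ib (∀ i, i ≠ j → (Sum.inl (c i) : UU d V L) = b i)) := by
      rw [← sum_add_distrib]
      refine sum_congr rfl fun c _ => ?_
      ring
    rw [h6]
    rw [h7] at h2
    linarith
  exact_mod_cast hmain

end Pool.Agent.Lib.MP_90b327_co.LS
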