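import Mathlib
import Pool.Agent.Lib.MP_90b327_co.Random
import Pool.Agent.Lib.MP_90b327_co.Limit

/-!
Module Real (60 min): realisation of finitely many patterns with the right frequencies.

PROOF. Let `j : Fin K → Fin N` be `Fin.castLE`. For every pattern `X` and every family `S`, `corS_ext` with the empty map `Fin 0 → Fin K` (see the proof of `transfer` in
`Transfer.lean`, where exactly this is done, and `corS_zero`) gives `|corS S j X X - N! |S|| ≤ √(2^(K^d)/m) N! 2^(N^d)` for all `m ≥ 1` with `K (m+1) ≤ N`, where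
`corS S j X X = Σ_σ Σ_A ind S (rel σ (ov j A X))` (`ind_mul_self`). Choose `m` with `√(2^(K^d)/m) ≤ δ / (8 (1 + |κ|))`. Then the average over `(σ, A)` of
`(1/|ι|) Σ_i ind S0 (rel σ (ov j A (X0 i))) - Σ_{i : κ} ind E (rel σ (ov j A (X1 i)))` is at least `δ - δ/8 - |κ| ε - δ/8 ≥ δ/2`, so some `(σ, A)` has this value `≥ δ/2`. The first term is
`≤ 1` and the second sum is a natural number; if it were `≥ 1` the value would be `≤ 0`. So no `X1 i` is realised in `E`, and at least `(δ/2) |ι|` of the `X0 i` in `S0`.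
Finally `rel σ (ov j A X) = ov (σ⁻¹ ∘ j) (rel σ A) X` (`ov_rel` with `τ = σ⁻¹`, `rel_rel`), so take `φ = σ⁻¹ ∘ j` and `A' = rel σ A`; `ind S X = 1 ↔ toSet X ∈ S`.
-/

set_option autoImplicit false

namespace Pool.Agent.Lib.MP_90b327_co.LS

open Finset
open Pool.Agent.Lib.MP_90b327_co

/-- every pattern is realised with almost the right frequency -/
private theorem Real_abs {d K N m : ℕ} (hd : 1 ≤ d) (hm : 1 ≤ m) (hN : K * (m + 1) ≤ N)
    (j : Fin K → Fin N) (hj : Function.Injective j) (S : Finset (Finset (Fin d → Fin N)))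
    (X : Pat d K) :
    |corS S j X X - (N.factorial : ℝ) * S.card| ≤ Real.sqrt (2 ^ (K ^ d) / m) * nrm d N := by
  have hm' : (0 : ℝ) < m := by exact_mod_cast hm
  have hD : 0 < nrm d N := nrm_pos d N
  have h2 := corS_ext (m := m) S (fun v : Fin 0 => (v.elim0 : Fin K)) (fun v => v.elim0) X X
    (fun _ _ => rfl) hN (fun v => v.elim0) (fun v => v.elim0) j hj
  rw [corS_zero hd] at h2
  have h3 : ((m : ℝ) * (corS S j X X - (N.factorial : ℝ) * S.card)) ^ 2 ≤
      (m * (Real.sqrt (2 ^ (K ^ d) / m) * nrm d N)) ^ 2 := by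
    calc ((m : ℝ) * (corS S j X X - (N.factorial : ℝ) * S.card)) ^ 2
        = (m * corS S j X X - m * ((N.factorial : ℝ) * S.card)) ^ 2 := by ring
      _ ≤ m * 2 ^ (K ^ d) * ((N.factorial : ℝ) * 2 ^ (N ^ d)) ^ 2 := h2
      _ = (m * (Real.sqrt (2 ^ (K ^ d) / m) * nrm d N)) ^ 2 := by
        have e5 : Real.sqrt (2 ^ (K ^ d) / m) ^ 2 = 2 ^ (K ^ d) / m := Real.sq_sqrt (by positivity)
        have e6 : (m : ℝ) ^ 2 * (2 ^ (K ^ d) / m) = m * 2 ^ (K ^ d) := by
          field_simp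
        calc (m : ℝ) * 2 ^ (K ^ d) * ((N.factorial : ℝ) * 2 ^ (N ^ d)) ^ 2
            = ((m : ℝ) ^ 2 * (2 ^ (K ^ d) / m)) * (nrm d N) ^ 2 := by
              rw [e6]
              rfl
          _ = (m : ℝ) ^ 2 * (Real.sqrt (2 ^ (K ^ d) / m) ^ 2) * (nrm d N) ^ 2 := by rw [e5]
          _ = _ := by ring
  have h4 := abs_le_of_sq_le_sq' h3 (by positivity)
  rw [abs_le]
  constructor
  · have h5 := h4.1
    rw [← mul_neg] at h5
    exact le_of_mul_le_mul_left h5 hm'
  · exact le_of_mul_le_mul_left h4.2 hm'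

private theorem Real_rel {d K N : ℕ} (j : Fin K → Fin N) (hj : Function.Injective j)
    (σ : Equiv.Perm (Fin N)) (A : Pat d N) (X : Pat d K) :
    ov (fun v => σ⁻¹ (j v)) (rel σ A) X = rel σ (ov j A X) := by
  rw [ov_rel j hj σ⁻¹, inv_inv, rel_rel, mul_inv_cancel, rel_one]

theorem realise (d K : ℕ) (hd : 1 ≤ d) {ι κ : Type} [Fintype ι] [Nonempty ι] [Fintype κ]
    (X0 : ι → Pat d K) (X1 : κ → Pat d K) (δ ε : ℝ)
    (hδ : 0 < δ) (hε : (Fintype.card κ : ℝ) * ε ≤ δ / 4) : ∃ N0 : ℕ, ∀ N : ℕ, N0 ≤ N →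
      ∀ S0 E : Finset (Finset (Fin d → Fin N)), δ * (2 : ℝ) ^ (N ^ d) ≤ (S0.card : ℝ) →
        (E.card : ℝ) ≤ ε * (2 : ℝ) ^ (N ^ d) →
        ∃ (φ : Fin K → Fin N) (A : Pat d N), Function.Injective φ ∧
          δ / 2 * (Fintype.card ι : ℝ) ≤
            (((univ : Finset ι).filter (fun i => toSet (ov φ A (X0 i)) ∈ S0)).card : ℝ) ∧
          ∀ i : κ, toSet (ov φ A (X1 i)) ∉ E := by
  classical
  have hι : (0 : ℝ) < Fintype.card ι := by exact_mod_cast Fintype.card_pos
  have hκ : (0 : ℝ) ≤ Fintype.card κ := Nat.cast_nonneg _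
  set η : ℝ := δ / (8 * (1 + Fintype.card κ)) with hη
  have hη0 : 0 < η := by positivity
  obtain ⟨m, hm⟩ := exists_nat_ge ((2 : ℝ) ^ (K ^ d) / η ^ 2 + 1)
  have hm1 : 1 ≤ m := by
    have h1 : (0 : ℝ) ≤ (2 : ℝ) ^ (K ^ d) / η ^ 2 := by positivity
    have h2 : (1 : ℝ) ≤ m := by linarith
    exact_mod_cast h2
  have hm0 : (0 : ℝ) < m := by exact_mod_cast hm1
  have hsq : Real.sqrt (2 ^ (K ^ d) / m) ≤ η := by
    rw [Real.sqrt_le_left hη0.le, div_le_iff₀ hm0]
    have h1 : (2 : ℝ) ^ (K ^ d) / η ^ 2 ≤ m := by linarith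
    rw [div_le_iff₀ (by positivity)] at h1
    linarith
  refine ⟨K * (m + 1), fun N hN S0 E hS0 hE => ?_⟩
  have hKN : K ≤ N := by nlinarith
  set j : Fin K → Fin N := Fin.castLE hKN with hj
  have hjinj : Function.Injective j := Fin.castLE_injective hKN
  have hD : 0 < nrm d N := nrm_pos d N
  have hnrm : nrm d N = (N.factorial : ℝ) * 2 ^ (N ^ d) := rfl
  have hf : (0 : ℝ) < N.factorial := by exact_mod_cast Nat.factorial_pos N
  have hsqD : Real.sqrt (2 ^ (K ^ d) / m) * nrm d N ≤ η * nrm d N :=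
    mul_le_mul_of_nonneg_right hsq hD.le
  have hA0 : ∀ i, (δ - η) * nrm d N ≤ corS S0 j (X0 i) (X0 i) := by
    intro i
    have h1 := (abs_le.1 ((Real_abs hd hm1 hN j hjinj S0 (X0 i)).trans hsqD)).1
    have h2 : δ * nrm d N ≤ (N.factorial : ℝ) * S0.card := by
      rw [hnrm]
      calc δ * ((N.factorial : ℝ) * 2 ^ (N ^ d)) = N.factorial * (δ * 2 ^ (N ^ d)) := by ring
        _ ≤ _ := mul_le_mul_of_nonneg_left hS0 hf.le
    linarith
  have hA1 : ∀ i, corS E j (X1 i) (X1 i) ≤ (ε + η) * nrm d N := by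
    intro i
    have h1 := (abs_le.1 ((Real_abs hd hm1 hN j hjinj E (X1 i)).trans hsqD)).2
    have h2 : (N.factorial : ℝ) * E.card ≤ ε * nrm d N := by
      rw [hnrm]
      calc (N.factorial : ℝ) * E.card ≤ N.factorial * (ε * 2 ^ (N ^ d)) :=
            mul_le_mul_of_nonneg_left hE hf.le
        _ = _ := by ring
    linarith
  -- a good choice
  obtain ⟨σ, A, hσA⟩ : ∃ (σ : Equiv.Perm (Fin N)) (A : Pat d N), δ / 2 * (Fintype.card ι : ℝ) ≤
      ∑ i, ind S0 (rel σ (ov j A (X0 i))) -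
        (Fintype.card ι : ℝ) * ∑ i, ind E (rel σ (ov j A (X1 i))) := by
    by_contra hcon
    push Not at hcon
    have h1 : ∑ σ : Equiv.Perm (Fin N), ∑ A : Pat d N, (∑ i, ind S0 (rel σ (ov j A (X0 i))) -
        (Fintype.card ι : ℝ) * ∑ i, ind E (rel σ (ov j A (X1 i)))) <
          ∑ σ : Equiv.Perm (Fin N), ∑ A : Pat d N, δ / 2 * (Fintype.card ι : ℝ) := by
      refine Finset.sum_lt_sum_of_nonempty Finset.univ_nonempty fun σ _ => ?_
      exact Finset.sum_lt_sum_of_nonempty Finset.univ_nonempty fun A _ => hcon σ A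
    have h2 : ∑ σ : Equiv.Perm (Fin N), ∑ A : Pat d N, δ / 2 * (Fintype.card ι : ℝ) =
        δ / 2 * (Fintype.card ι : ℝ) * nrm d N := by
      rw [← sum_one_eq, mul_sum]
      refine sum_congr rfl fun σ _ => ?_
      rw [mul_sum]
      simp only [mul_one]
    have h3 : ∑ σ : Equiv.Perm (Fin N), ∑ A : Pat d N, (∑ i, ind S0 (rel σ (ov j A (X0 i))) -
        (Fintype.card ι : ℝ) * ∑ i, ind E (rel σ (ov j A (X1 i)))) =
        ∑ i, corS S0 j (X0 i) (X0 i) - (Fintype.card ι : ℝ) * ∑ i, corS E j (X1 i) (X1 i) := by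
      have e1 : ∑ i, corS S0 j (X0 i) (X0 i) =
          ∑ σ : Equiv.Perm (Fin N), ∑ A : Pat d N, ∑ i, ind S0 (rel σ (ov j A (X0 i))) := by
        unfold corS
        simp_rw [ind_mul_self]
        rw [Finset.sum_comm]
        refine sum_congr rfl fun σ _ => ?_
        rw [Finset.sum_comm]
      have e2 : ∑ i, corS E j (X1 i) (X1 i) =
          ∑ σ : Equiv.Perm (Fin N), ∑ A : Pat d N, ∑ i, ind E (rel σ (ov j A (X1 i))) := by
        unfold corS
        simp_rw [ind_mul_self]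
        rw [Finset.sum_comm]
        refine sum_congr rfl fun σ _ => ?_
        rw [Finset.sum_comm]
      rw [e1, e2, mul_sum, ← sum_sub_distrib]
      refine sum_congr rfl fun σ _ => ?_
      rw [mul_sum, ← sum_sub_distrib]
    have h4 : (Fintype.card ι : ℝ) * ((δ - η) * nrm d N) ≤ ∑ i, corS S0 j (X0 i) (X0 i) := by
      have := Finset.sum_le_sum fun i (_ : i ∈ (univ : Finset ι)) => hA0 i
      rwa [sum_const, card_univ, nsmul_eq_mul] at this
    have h5 : ∑ i, corS E j (X1 i) (X1 i) ≤ (Fintype.card κ : ℝ) * ((ε + η) * nrm d N) := by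
      have := Finset.sum_le_sum fun i (_ : i ∈ (univ : Finset κ)) => hA1 i
      rwa [sum_const, card_univ, nsmul_eq_mul] at this
    rw [h2, h3] at h1
    have h6 : (Fintype.card ι : ℝ) * ∑ i, corS E j (X1 i) (X1 i) ≤
        (Fintype.card ι : ℝ) * ((Fintype.card κ : ℝ) * ((ε + η) * nrm d N)) :=
      mul_le_mul_of_nonneg_left h5 hι.le
    have h7 : (Fintype.card ι : ℝ) * ((δ - η) * nrm d N) -
        (Fintype.card ι : ℝ) * ((Fintype.card κ : ℝ) * ((ε + η) * nrm d N)) <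
          δ / 2 * (Fintype.card ι : ℝ) * nrm d N := by linarith
    have h8 : (1 + (Fintype.card κ : ℝ)) * η = δ / 8 := by
      rw [hη]
      field_simp
    have h9 : δ / 2 ≤ (δ - η) - (Fintype.card κ : ℝ) * (ε + η) := by
      have : (δ - η) - (Fintype.card κ : ℝ) * (ε + η) =
        δ - (1 + (Fintype.card κ : ℝ)) * η - (Fintype.card κ : ℝ) * ε := by ring
      rw [this, h8]
      linarith
    have h10 : (Fintype.card ι : ℝ) * nrm d N * (δ / 2) ≤
        (Fintype.card ι : ℝ) * nrm d N * ((δ - η) - (Fintype.card κ : ℝ) * (ε + η)) :=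
      mul_le_mul_of_nonneg_left h9 (by positivity)
    nlinarith
  have hcard0 : ∑ i, ind S0 (rel σ (ov j A (X0 i))) =
      (((univ : Finset ι).filter (fun i => toSet (rel σ (ov j A (X0 i))) ∈ S0)).card : ℝ) := by
    unfold ind
    rw [Finset.sum_ite, sum_const_zero, add_zero, sum_const, nsmul_eq_mul, mul_one]
  have hcard1 : ∑ i, ind S0 (rel σ (ov j A (X0 i))) ≤ Fintype.card ι := by
    rw [hcard0]
    exact_mod_cast card_le_univ _
  have hE0 : ∀ i, ind E (rel σ (ov j A (X1 i))) = 0 := by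
    intro i
    by_contra h
    have h1 : ind E (rel σ (ov j A (X1 i))) = 1 := by
      unfold ind at h ⊢
      split_ifs at h ⊢ with h2
      · rfl
      · exact absurd rfl h
    have h2 : 1 ≤ ∑ i, ind E (rel σ (ov j A (X1 i))) := by
      rw [← h1]
      exact Finset.single_le_sum (f := fun i => ind E (rel σ (ov j A (X1 i))))
        (fun i _ => ind_nonneg _ _) (mem_univ i)
    have h3 : (Fintype.card ι : ℝ) * 1 ≤
        (Fintype.card ι : ℝ) * ∑ i, ind E (rel σ (ov j A (X1 i))) :=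
      mul_le_mul_of_nonneg_left h2 hι.le
    have h4 : 0 < δ / 2 * (Fintype.card ι : ℝ) := by positivity
    linarith
  have hsum0 : ∑ i, ind E (rel σ (ov j A (X1 i))) = 0 := Finset.sum_eq_zero fun i _ => hE0 i
  refine ⟨fun v => σ⁻¹ (j v), rel σ A, σ⁻¹.injective.comp hjinj, ?_, ?_⟩
  · simp only [Real_rel j hjinj]
    rw [hsum0, mul_zero, sub_zero, hcard0] at hσA
    exact hσA
  · intro i
    rw [Real_rel j hjinj]
    intro h
    have h1 := hE0 i
    unfold ind at h1
    rw [if_pos h] at h1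
    exact one_ne_zero h1

end Pool.Agent.Lib.MP_90b327_co.LS
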