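import Mathlib
import Pool.Agent.Lib.MP_90b327_co.Random
import Pool.Agent.Lib.MP_90b327_co.LS.Grd

/-!
Module Tra (60 min): from the window to `[N]^d`.

Let `U` be a finite type, `e : U ≃ Fin K`, `φ : Fin K → Fin N` injective, `A : Pat d N`. For `P : Finset (Fin d → U)` let `wp e P : Pat d K` be its indicator.
PROOF of `tra_line`: consider the line `(j, a)` of `[N]^d`. If all `a i`, `i ≠ j`, are of the form `φ (e (b i))` then the cells of the line inside the window are `update a j (φ (e v))`, `v : U`, which correspond to
`update b j v`, and there membership in the overwritten set is membership in `P`; the other cells of the line (those `update a j x`, `x` not in the range of `φ`) are not overwritten, the same for `P` and `Q`. If some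
`a i`, `i ≠ j`, is not in the range of `φ`, no cell of the line is in the window.
PROOF of `tra_full`: with `g := γ.image (fun v => φ (e (v')))` ... the cells of `g^d` are the `φ ∘ e ∘ x` with `x i ∈ Γ`, `Γ : Finset U`, i.e. `x ∈ Fintype.piFinset (fun _ => Γ)`.
PROOF of `tra_diff`: the two sets differ only in the window, which has `K^d` cells.
-/

set_option autoImplicit false

namespace Pool.Agent.Lib.MP_90b327_co.LS

open Finset
open Pool.Agent.Lib.MP_90b327_co

open Classical in
/-- the pattern of a set of window cells -/
noncomputable def wp {d K : ℕ} {U : Type} (e : U ≃ Fin K) (P : Finset (Fin d → U)) : Pat d K :=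
  fun c => decide ((fun i => e.symm (c i)) ∈ P)

private lemma tra_in {d K N : ℕ} {U : Type} (e : U ≃ Fin K)
    (φ : Fin K → Fin N) (hφ : Function.Injective φ) (A : Pat d N) (P : Finset (Fin d → U))
    (x : Fin d → U) : ov φ A (wp e P) (fun i => φ (e (x i))) = true ↔ x ∈ P := by
  classical
  rw [ov_in φ hφ A (wp e P) (fun i => e (x i))]
  unfold wp
  simp only [Equiv.symm_apply_apply, decide_eq_true_eq]

private lemma tra_out {d K N : ℕ} {U : Type} (e : U ≃ Fin K)
    (φ : Fin K → Fin N) (A : Pat d N) (X : Pat d K) (c : Fin d → Fin N)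
    (h : ¬ ∃ x : Fin d → U, c = fun i => φ (e (x i))) : ov φ A X c = A c := by
  apply ov_out
  rintro ⟨c', hc'⟩
  apply h
  refine ⟨fun i => e.symm (c' i), ?_⟩
  rw [← hc']
  funext i
  simp

private lemma tra_mem {d K N : ℕ} {U : Type} (e : U ≃ Fin K)
    (φ : Fin K → Fin N) (hφ : Function.Injective φ) (A : Pat d N) (P : Finset (Fin d → U))
    (x : Fin d → U) : (fun i => φ (e (x i))) ∈ toSet (ov φ A (wp e P)) ↔ x ∈ P := by
  rw [mem_toSet]
  exact tra_in e φ hφ A P x

theorem tra_line {d K N : ℕ} {U : Type} [Fintype U] [DecidableEq U] (e : U ≃ Fin K)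
    (φ : Fin K → Fin N) (hφ : Function.Injective φ) (A : Pat d N) (P Q : Finset (Fin d → U))
    (h : ∀ (j : Fin d) (b : Fin d → U), ls P j b = ls Q j b) (j : Fin d) (a : Fin d → Fin N) :
    ls (toSet (ov φ A (wp e P))) j a = ls (toSet (ov φ A (wp e Q))) j a := by
  classical
  by_cases hb : ∃ b : Fin d → U, ∀ i, i ≠ j → a i = φ (e (b i))
  · obtain ⟨b, hb⟩ := hb
    have hup : ∀ u : U, Function.update a j (φ (e u)) = fun i => φ (e (Function.update b j u i)) := by
      intro u
      funext i
      by_cases hi : i = j
      · subst hi
        simp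
      · rw [Function.update_of_ne hi, Function.update_of_ne hi]
        exact hb i hi
    set img : Finset (Fin N) := univ.image (fun u : U => φ (e u)) with himg
    have hinj : Function.Injective (fun u : U => φ (e u)) := fun u v huv => e.injective (hφ huv)
    have key : ∀ R : Finset (Fin d → U), ls (toSet (ov φ A (wp e R))) j a =
        ls R j b + ∑ v ∈ univ.filter (fun v => v ∉ img), if A (Function.update a j v) = true then 1 else 0 := by
      intro R
      unfold ls
      rw [card_filter, ← sum_filter_add_sum_filter_not univ (fun v => v ∈ img)]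
      congr 1
      · have h1 : univ.filter (fun v => v ∈ img) = img := by
          ext v
          simp
        rw [h1, himg, sum_image fun u _ v _ huv => hinj huv, card_filter]
        refine sum_congr rfl fun u _ => ?_
        rw [hup u]
        simp only [tra_mem e φ hφ A R]
      · refine sum_congr rfl fun v hv => ?_
        rw [mem_filter] at hv
        have h2 : ov φ A (wp e R) (Function.update a j v) = A (Function.update a j v) := by
          apply tra_out e
          rintro ⟨x, hx⟩
          apply hv.2
          have h3 := congrFun hx j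
          rw [Function.update_self] at h3
          rw [himg, mem_image]
          exact ⟨x j, mem_univ _, h3.symm⟩
        simp only [mem_toSet, h2]
    rw [key P, key Q, h j b]
  · have key : ∀ (R : Finset (Fin d → U)) (v : Fin N),
        ov φ A (wp e R) (Function.update a j v) = A (Function.update a j v) := by
      intro R v
      apply tra_out e
      rintro ⟨x, hx⟩
      apply hb
      refine ⟨x, fun i hi => ?_⟩
      have h3 := congrFun hx i
      rw [Function.update_of_ne hi] at h3
      exact h3
    unfold ls
    simp only [mem_toSet, key]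

theorem tra_disj {d K N : ℕ} {U : Type} [Fintype U] [DecidableEq U] (e : U ≃ Fin K)
    (φ : Fin K → Fin N) (hφ : Function.Injective φ) (A : Pat d N) (P : Finset (Fin d → U))
    (Γ : Finset U) (h : Disjoint P (Fintype.piFinset (fun _ : Fin d => Γ))) :
    Disjoint (toSet (ov φ A (wp e P)))
      (Fintype.piFinset (fun _ : Fin d => Γ.image (fun v => φ (e v)))) := by
  rw [Finset.disjoint_left]
  intro c hc hc2
  rw [Fintype.mem_piFinset] at hc2
  simp only [mem_image] at hc2
  choose x hx hxc using hc2
  have h1 : c = fun i => φ (e (x i)) := by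
    funext i
    exact (hxc i).symm
  rw [h1] at hc
  have h2 := (tra_mem e φ hφ A P x).mp hc
  exact Finset.disjoint_left.mp h h2 (Fintype.mem_piFinset.mpr hx)

theorem tra_union {d K N : ℕ} {U : Type} [Fintype U] [DecidableEq U] (e : U ≃ Fin K)
    (φ : Fin K → Fin N) (hφ : Function.Injective φ) (A : Pat d N) (P : Finset (Fin d → U))
    (Γ : Finset U) :
    toSet (ov φ A (wp e P)) ∪ Fintype.piFinset (fun _ : Fin d => Γ.image (fun v => φ (e v))) =
      toSet (ov φ A (wp e (P ∪ Fintype.piFinset (fun _ : Fin d => Γ)))) := by
  have hinj : Function.Injective (fun u : U => φ (e u)) := fun u v huv => e.injective (hφ huv)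
  ext c
  rw [mem_union, Fintype.mem_piFinset]
  by_cases hc : ∃ x : Fin d → U, c = fun i => φ (e (x i))
  · obtain ⟨x, rfl⟩ := hc
    rw [tra_mem e φ hφ A P x, tra_mem e φ hφ A _ x, mem_union, Fintype.mem_piFinset]
    have h1 : ∀ i, φ (e (x i)) ∈ Γ.image (fun v => φ (e v)) ↔ x i ∈ Γ := by
      intro i
      rw [mem_image]
      constructor
      · rintro ⟨v, hv, hvx⟩
        rw [← hinj hvx]
        exact hv
      · intro hx
        exact ⟨x i, hx, rfl⟩
    simp only [h1]
  · rw [mem_toSet, mem_toSet, tra_out e φ A _ c hc, tra_out e φ A _ c hc]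
    constructor
    · rintro (h1 | h1)
      · exact h1
      · exfalso
        apply hc
        simp only [mem_image] at h1
        choose x hx hxc using h1
        exact ⟨x, by funext i; exact (hxc i).symm⟩
    · intro h1
      exact Or.inl h1

theorem tra_diff {d K N : ℕ} (φ : Fin K → Fin N) (A : Pat d N) (X Y : Pat d K) :
    (symmDiff (toSet (ov φ A X)) (toSet (ov φ A Y))).card ≤ K ^ d := by
  classical
  have h1 : symmDiff (toSet (ov φ A X)) (toSet (ov φ A Y)) ⊆
      (univ : Finset (Fin d → Fin K)).image (fun c' => (fun i => φ (c' i))) := by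
    intro c hc
    rw [mem_image]
    by_contra hcon
    have h2 : ¬ ∃ c' : Fin d → Fin K, (fun i => φ (c' i)) = c := by
      rintro ⟨c', hc'⟩
      exact hcon ⟨c', mem_univ _, hc'⟩
    rw [mem_symmDiff, mem_toSet, mem_toSet, ov_out φ A X c h2, ov_out φ A Y c h2] at hc
    tauto
  refine (card_le_card h1).trans (card_image_le.trans ?_)
  rw [card_univ, Fintype.card_fun, Fintype.card_fin, Fintype.card_fin]

end Pool.Agent.Lib.MP_90b327_co.LS
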