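import Mathlib
import Pool.Agent.Lib.MP_90b327_co.LS.Cnt
import Pool.Agent.Lib.MP_90b327_co.LS.Gad
import Pool.Agent.Lib.MP_90b327_co.LS.Real
import Pool.Agent.Lib.MP_90b327_co.LS.Tra

/-!
Assembly of the LineSums theorem.
-/

set_option autoImplicit false

namespace Pool.Agent.Lib.MP_90b327_co.LS

open Finset
open Pool.Agent.Lib.MP_90b327_co

/-- the vertices of `γ` inside the window -/
def gU {d k L : ℕ} (γ : Finset (Fin k)) : Finset (UU d (Fin k) L) :=
  γ.image (fun v => Sum.inl (some v))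

lemma full_eq {d k L : ℕ} (γ : Finset (Fin k)) :
    full (d := d) (L := L) γ = Fintype.piFinset (fun _ : Fin d => gU (d := d) (L := L) γ) := by
  ext x
  rw [mem_full, Fintype.mem_piFinset]
  unfold gU
  simp only [Finset.mem_image]
  constructor
  · intro h i
    obtain ⟨v, hv, hx⟩ := h i
    exact ⟨v, hv, hx.symm⟩
  · intro h i
    obtain ⟨v, hv, hx⟩ := h i
    exact ⟨v, hv, hx.symm⟩

/-- For every family of positive density: the pair `A`, `A ∪ γ^d` up to a bounded number of cells and the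
same line sums; and the pair itself for families close to families determined by line sums. -/
theorem main_aux (d : ℕ) (hd : 1 ≤ d) (δ : ℝ) (hδ : 0 < δ) : ∃ (m : ℕ) (ε : ℝ), 0 < ε ∧
    ∃ N0 : ℕ, ∀ N : ℕ, N0 ≤ N → ∀ S0 E : Finset (Finset (Fin d → Fin N)),
      δ * (2 : ℝ) ^ (N ^ d) ≤ (S0.card : ℝ) → (E.card : ℝ) ≤ ε * (2 : ℝ) ^ (N ^ d) →
      ∃ A ∈ S0, ∃ B ∈ S0, ∃ γ : Finset (Fin N), γ.Nonempty ∧
        Disjoint A (Fintype.piFinset (fun _ : Fin d => γ)) ∧
        (∀ j a, ls (A ∪ Fintype.piFinset (fun _ : Fin d => γ)) j a = ls B j a) ∧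
        (symmDiff (A ∪ Fintype.piFinset (fun _ : Fin d => γ)) B).card ≤ m ∧
        A ∉ E ∧ A ∪ Fintype.piFinset (fun _ : Fin d => γ) ∉ E := by
  obtain ⟨k, L, hk, hcnt⟩ := cnt d hd (δ / 2) (by linarith)
  let U := UU d (Fin k) L
  let K := Fintype.card U
  let e : U ≃ Fin K := Fintype.equivFin U
  let Z := RR d (Fin k) → Fin (L + 1)
  let P : Z → Finset (Fin d → U) := fun z => pat (L := L) (fun c => (z c : ℕ))
  let X0 : Z → Pat d K := fun z => wp e (P z)
  let X1 : Z × Finset (Fin k) → Pat d K := fun p => wp e (P p.1 ∪ full (L := L) p.2)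
  have hcard : (0 : ℝ) ≤ Fintype.card (Z × Finset (Fin k)) := Nat.cast_nonneg _
  let ε : ℝ := δ / (4 * (Fintype.card (Z × Finset (Fin k)) + 1))
  have hε : 0 < ε := by positivity
  have hε' : (Fintype.card (Z × Finset (Fin k)) : ℝ) * ε ≤ δ / 4 := by
    show (Fintype.card (Z × Finset (Fin k)) : ℝ) * (δ / (4 * (Fintype.card (Z × Finset (Fin k)) + 1))) ≤ δ / 4
    rw [mul_div_assoc', div_le_div_iff₀ (by positivity) (by norm_num)]
    nlinarith
  obtain ⟨N0, hN0⟩ := realise d K hd X0 X1 δ ε hδ hε'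
  refine ⟨K ^ d, ε, hε, N0, ?_⟩
  intro N hN S0 E hS0 hE
  obtain ⟨φ, A0, hφ, hT, hX1⟩ := hN0 N hN S0 E hS0 hE
  obtain ⟨z, hz, z', hz', γ, hγ, hzz⟩ := hcnt _ hT
  rw [Finset.mem_filter] at hz hz'
  set Γ : Finset U := gU (d := d) (L := L) γ with hΓ
  set g : Finset (Fin N) := Γ.image (fun v => φ (e v)) with hg
  have hfull : full (d := d) (L := L) γ = Fintype.piFinset (fun _ : Fin d => Γ) := full_eq γ
  have hunion : toSet (ov φ A0 (wp e (P z))) ∪ Fintype.piFinset (fun _ : Fin d => g) =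
      toSet (ov φ A0 (wp e (P z ∪ Fintype.piFinset (fun _ : Fin d => Γ)))) :=
    tra_union e φ hφ A0 (P z) Γ
  have hempty : full (d := d) (L := L) (∅ : Finset (Fin k)) = ∅ := by
    rw [Finset.eq_empty_iff_forall_notMem]
    intro x hx
    rw [mem_full] at hx
    obtain ⟨v, hv, _⟩ := hx ⟨0, hd⟩
    exact absurd hv (Finset.notMem_empty v)
  refine ⟨toSet (ov φ A0 (X0 z)), hz.2, toSet (ov φ A0 (X0 z')), hz'.2, g, ?_, ?_, ?_, ?_, ?_, ?_⟩
  · obtain ⟨v, hv⟩ := hγ
    refine ⟨φ (e (Sum.inl (some v))), ?_⟩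
    rw [hg, Finset.mem_image]
    refine ⟨Sum.inl (some v), ?_, rfl⟩
    rw [hΓ]
    unfold gU
    exact Finset.mem_image.mpr ⟨v, hv, rfl⟩
  · apply tra_disj e φ hφ A0 (P z) Γ
    rw [← hfull]
    exact pat_full _ γ
  · intro j a
    show ls (toSet (ov φ A0 (wp e (P z))) ∪ Fintype.piFinset (fun _ : Fin d => g)) j a =
      ls (toSet (ov φ A0 (wp e (P z')))) j a
    rw [hunion]
    apply tra_line e φ hφ A0
    intro j b
    rw [← hfull]
    apply pat_line _ _ (fun c => Nat.lt_succ_iff.mp (z c).2) (fun c => Nat.lt_succ_iff.mp (z' c).2)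
    intro c
    exact hzz c
  · show (symmDiff (toSet (ov φ A0 (wp e (P z))) ∪ Fintype.piFinset (fun _ : Fin d => g))
      (toSet (ov φ A0 (wp e (P z'))))).card ≤ K ^ d
    rw [hunion]
    exact tra_diff φ A0 _ _
  · have h1 := hX1 (z, ∅)
    have h2 : X1 (z, ∅) = X0 z := by
      show wp e (P z ∪ full (L := L) (∅ : Finset (Fin k))) = wp e (P z)
      rw [hempty, Finset.union_empty]
    rw [h2] at h1
    exact h1
  · have h1 := hX1 (z, γ)
    show toSet (ov φ A0 (wp e (P z))) ∪ Fintype.piFinset (fun _ : Fin d => g) ∉ E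
    rw [hunion, ← hfull]
    exact h1

end Pool.Agent.Lib.MP_90b327_co.LS
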